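import Pool.Agent.Lib.MP_547e2f_an.Defs

/-!
Finite type in terms of real analytic CR vector fields, for submanifolds not assumed to be CR.
-/

namespace Pool.Agent.Lib.MP_547e2f_an.St

open MvPowerSeries

variable {n d : ℕ}

/-- Iterated Lie brackets of real analytic CR vector fields and their conjugates. -/
inductive IsBracketAn (ρ : Fin d → Ser n) : VField n → Prop
  | cr {V} : IsCRField ρ V → (∀ a, Convergent (V a)) → IsBracketAn ρ V
  | conj {V} : IsCRField ρ V → (∀ a, Convergent (V a)) → IsBracketAn ρ (conjField V)
  | lie {V W} : IsBracketAn ρ V → IsBracketAn ρ W → IsBracketAn ρ (bracket V W)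

/-- Finite type at `0`: the values at `0` of the iterated brackets of real analytic CR vector
fields and their conjugates span the complexified tangent space, the common kernel of the
differentials `dρ_i(0)`. -/
def FiniteTypeAn (ρ : Fin d → Ser n) : Prop :=
  (Submodule.span ℂ {w | ∃ V, IsBracketAn ρ V ∧ w = fun a => constantCoeff (V a)} :
    Set (Fin n ⊕ Fin n → ℂ)) = {v | ∀ i, ∑ a, v a * constantCoeff (pderiv ℂ a (ρ i)) = 0}

end Pool.Agent.Lib.MP_547e2f_an.St
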