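import Pool.Agent.Lib.MP_547e2f_an.Eval
import Pool.Agent.Lib.MP_547e2f_an.DefsAn

/-!
Graphs `y_k = φ_k (w, τ)`, `τ = conj w + z ^ 2 conj z`, over `ℂ ^ 2` are of finite type at `0`.
-/

namespace Pool.Agent.Lib.MP_547e2f_an.Cubic

open MvPowerSeries Finset Sum St Filter Topology Complex
open scoped MvPowerSeries.WithPiTopology

noncomputable section

section
variable {A : Type} [Fintype A] (V : A → PS A) (f g : PS A)

@[simp] lemma vf_add : vf V (f + g) = vf V f + vf V g := by simp [vf, mul_add, sum_add_distrib]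
@[simp] lemma vf_sub : vf V (f - g) = vf V f - vf V g := by simp [vf, mul_sub]
@[simp] lemma vf_neg : vf V (-f) = -vf V f := by simp [vf]
@[simp] lemma vf_zero : vf V 0 = 0 := by simp [vf]
@[simp] lemma vf_one : vf V 1 = 0 := by simp [vf]
@[simp] lemma vf_C (c : ℂ) : vf V (C c) = 0 := by simp [vf]

lemma vf_mem {ι : Type} {ρ : ι → PS A} (h : ∀ i, vf V (ρ i) ∈ Ideal.span (Set.range ρ)) {f : PS A}
    (hf : f ∈ Ideal.span (Set.range ρ)) : vf V f ∈ Ideal.span (Set.range ρ) := by
  induction hf using Submodule.span_induction with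
  | mem _ hf => obtain ⟨i, rfl⟩ := hf; exact h i
  | zero => simp
  | add _ _ _ _ h1 h2 => rw [vf_add]; exact add_mem h1 h2
  | smul a x h1 h2 =>
    rw [smul_eq_mul, vf_mul]
    exact add_mem (Ideal.mul_mem_left _ _ h2) (Ideal.mul_mem_right _ _ h1)

end

section
variable {n d : ℕ} (f g : Ser n)

@[simp] lemma cs_add : conjSer (f + g) = conjSer f + conjSer g := by simp [cs_eq]
@[simp] lemma cs_sub : conjSer (f - g) = conjSer f - conjSer g := by simp [cs_eq]
@[simp] lemma cs_mul : conjSer (f * g) = conjSer f * conjSer g := by simp [cs_eq]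
@[simp] lemma cs_neg : conjSer (-f) = -conjSer f := by simp [cs_eq]
@[simp] lemma cs_zero : conjSer (0 : Ser n) = 0 := by simp [cs_eq]
@[simp] lemma cs_one : conjSer (1 : Ser n) = 1 := by simp [cs_eq]
@[simp] lemma cs_C (c : ℂ) : conjSer (C c : Ser n) = C (starRingEnd ℂ c) := by simp [cs_eq]
@[simp] lemma cs_cs : conjSer (conjSer f) = f := by simp [cs_eq, cj_S, S_R]
instance [Cv f] : Cv (conjSer f) := by rw [cs_eq]; infer_instance
instance [Z f] : Z (conjSer f) := by rw [cs_eq]; infer_instance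

lemma span_tan' {ρ : Fin d → Ser n} (hρ : IsDefining ρ) {v : Fin n ⊕ Fin n → ℂ}
    (hv : v ∈ Submodule.span ℂ {w | ∃ V, IsBracket ρ V ∧ w = fun a => cc (V a)}) (i : Fin d) :
    ∑ a, v a * cc (pd a (ρ i)) = 0 := by
  have h1 : ∀ V, IsBracket ρ V → ∀ i, vf V (ρ i) ∈ Ideal.span (Set.range ρ) := by
    intro V hV
    induction hV with
    | cr hV => exact hV.2
    | conj hV => exact fun i => by rw [← hρ.real i, cs_vf]; exact cs_mem hρ (hV.2 i)
    | @lie V W _ _ hV hW =>
      intro i
      rw [show bracket V W = br V W from rfl, vf_br]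
      exact sub_mem (vf_mem _ hV (hW i)) (vf_mem _ hW (hV i))
  induction hv using Submodule.span_induction with
  | mem _ hv =>
    obtain ⟨V, hV, rfl⟩ := hv
    obtain ⟨c, hc⟩ := Ideal.mem_span_range_iff_exists_fun.mp (h1 V hV i)
    simpa [vf, hρ.zero] using congrArg cc hc.symm
  | zero => simp
  | add _ _ _ _ a1 a2 => simp only [Pi.add_apply, add_mul, sum_add_distrib, a1, a2, add_zero]
  | smul c _ _ a1 => simp only [Pi.smul_apply, smul_eq_mul, mul_assoc, ← mul_sum, a1, mul_zero]

lemma span_le (ρ : Fin d → Ser n) :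
    Submodule.span ℂ {w | ∃ V, IsBracketAn ρ V ∧ w = fun a => cc (V a)} ≤
      Submodule.span ℂ {w | ∃ V, IsBracket ρ V ∧ w = fun a => cc (V a)} := by
  refine Submodule.span_mono fun w ⟨V, hV, hw⟩ => ⟨V, ?_, hw⟩
  clear hw
  induction hV with
  | cr h _ => exact .cr h
  | conj h _ => exact .conj h
  | lie _ _ h h' => exact h.lie h'

lemma span_tan {ρ : Fin d → Ser n} (hρ : IsDefining ρ) {v : Fin n ⊕ Fin n → ℂ}
    (hv : v ∈ Submodule.span ℂ {w | ∃ V, IsBracketAn ρ V ∧ w = fun a => cc (V a)}) (i : Fin d) :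
    ∑ a, v a * cc (pd a (ρ i)) = 0 := span_tan' hρ (span_le ρ hv) i

lemma ft_of_an {ρ : Fin d → Ser n} (hρ : IsDefining ρ) (h : FiniteTypeAn ρ) : FiniteType ρ :=
  Set.ext fun v => ⟨span_tan' hρ, fun hv => span_le ρ ((Set.ext_iff.1 h v).2 hv)⟩

end

variable {m : ℕ} (φ : Fin m → PS (Option Unit))

/-- the functions `w` and `τ` -/
def sg (m : ℕ) : Option Unit → Ser (m + 2) := fun i =>
  i.elim (X (inl 1)) fun _ => X (inr 1) + X (inl 0) * X (inl 0) * X (inr 0)

instance (i : Option Unit) : Z (sg m i) := by unfold sg; infer_instance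
instance (i : Option Unit) : Cv (sg m i) := by unfold sg; infer_instance

/-- complex defining functions -/
def uu (k : Fin m) : Ser (m + 2) := X (inl k.succ.succ) - S (sg m) (φ k)

/-- real defining functions -/
def rh : Fin (m + m) → Ser (m + 2) := Fin.append (fun k => uu φ k + conjSer (uu φ k))
  fun k => C I * (uu φ k - conjSer (uu φ k))

/-- the CR vector field -/
def LL : VField (m + 2) := Sum.elim (fun _ => 0) <| Matrix.vecCons 1 <|
  Matrix.vecCons (-(X (inl 0) * X (inl 0))) fun k => ∑ q, conjSer (S (sg m) (pd q (φ k))) *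
    q.elim (-(X (inl 0) * X (inl 0))) fun _ => C 2 * X (inl 0) * X (inr 0)

lemma uu_mem (k : Fin m) : uu φ k ∈ Ideal.span (Set.range (rh φ)) := by
  have : uu φ k = C 2⁻¹ * rh φ (Fin.castAdd m k) - C (I / 2) * rh φ (Fin.natAdd m k) := by
    have e : (C (I / 2) * C I : Ser (m + 2)) = -C 2⁻¹ := by
      rw [← map_mul, ← map_neg]; congr 1; linear_combination (1 / 2 : ℂ) * I_mul_I
    have e2 : (C 2⁻¹ + C 2⁻¹ : Ser (m + 2)) = 1 := by rw [← map_add, ← map_one C]; norm_num
    simp only [rh, Fin.append_left, Fin.append_right]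
    linear_combination (uu φ k - conjSer (uu φ k)) * e - uu φ k * e2
  rw [this]
  exact sub_mem (Ideal.mul_mem_left _ _ (Ideal.subset_span ⟨_, rfl⟩))
    (Ideal.mul_mem_left _ _ (Ideal.subset_span ⟨_, rfl⟩))

lemma rh_ind {P : Ser (m + 2) → Prop} (h1 : ∀ k, P (uu φ k + conjSer (uu φ k)))
    (h2 : ∀ k, P (C I * (uu φ k - conjSer (uu φ k)))) (i : Fin (m + m)) : P (rh φ i) := by
  induction i using Fin.addCases <;> simp only [rh, Fin.append_left, Fin.append_right, h1, h2]

lemma cc_vf (v : Fin (m + 2) ⊕ Fin (m + 2) → ℂ) (k : Fin m) :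
    cc (vf (fun a => C (v a)) (uu φ k)) = v (inl k.succ.succ) -
      (cc (pd none (φ k)) * v (inl 1) + cc (pd (some ()) (φ k)) * v (inr 1)) ∧
    cc (vf (fun a => C (v a)) (conjSer (uu φ k))) = v (inr k.succ.succ) -
      (cc (pd none (cj (φ k))) * v (inr 1) + cc (pd (some ()) (cj (φ k))) * v (inl 1)) := by
  simp [uu, cs_S, cs_X, vf_S, vf_X, vf_mul, sg]

lemma tan_eq {v : Fin (m + 2) ⊕ Fin (m + 2) → ℂ} (h : ∀ i, ∑ a, v a * cc (pd a (rh φ i)) = 0)
    (k : Fin m) : v (inl k.succ.succ) =
      cc (pd none (φ k)) * v (inl 1) + cc (pd (some ()) (φ k)) * v (inr 1) ∧ v (inr k.succ.succ) =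
      cc (pd none (cj (φ k))) * v (inr 1) + cc (pd (some ()) (cj (φ k))) * v (inl 1) := by
  have h1 : ∀ i, cc (vf (fun a => C (v a)) (rh φ i)) = 0 := fun i => by simpa [vf] using h i
  have h2 := h1 (Fin.castAdd m k)
  have h3 := h1 (Fin.natAdd m k)
  simp only [rh, Fin.append_left, Fin.append_right, vf_add, vf_mul, vf_C, vf_sub, map_add, map_mul,
    map_sub, mul_zero, add_zero, (cc_vf φ v k).1, (cc_vf φ v k).2, constantCoeff_C, mul_eq_zero,
    I_ne_zero, false_or] at h2 h3
  exact ⟨by linear_combination (h2 + h3) / 2, by linear_combination (h2 - h3) / 2⟩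

lemma vf_LL (i : Fin (m + m)) : vf (LL φ) (rh φ i) = 0 := by
  have h1 : ∀ k, vf (LL φ) (uu φ k) = 0 := fun k => by simp [uu, vf_S, vf_X, vf_mul, sg, LL]
  have h2 : ∀ k, vf (LL φ) (conjSer (uu φ k)) = 0 := fun k => by
    have e : (C 2 : Ser (m + 2)) = 2 := map_ofNat C 2
    simp [uu, cs_S, cs_X, vf_S, vf_X, vf_mul, sg, LL, cj_pd, e]
    ring
  exact rh_ind φ (P := fun f => vf (LL φ) f = 0) (by simp [h1, h2]) (by simp [h1, h2, vf_mul]) i

lemma crLL : IsCRField (rh φ) (LL φ) :=
  ⟨fun _ => rfl, fun i => by rw [show act (LL φ) (rh φ i) = 0 from vf_LL φ i]; exact zero_mem _⟩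

variable [∀ k, Cv (φ k)] [∀ k, Z (φ k)]

instance (k : Fin m) : Cv (uu φ k) := by unfold uu; infer_instance
instance (k : Fin m) : Z (uu φ k) := by unfold uu; infer_instance
instance (i : Fin (m + m)) : Cv (rh φ i) := rh_ind φ (P := Cv) inferInstance inferInstance i

lemma defining : IsDefining (rh φ) := by
  refine ⟨fun i => cv_iff.2 inferInstance, rh_ind φ (P := fun f => conjSer f = f)
    (fun k => by simp [add_comm]) fun k => by simp; ring,
    rh_ind φ (P := fun f => cc f = 0) (by simp) (by simp), ?_⟩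
  refine Fintype.linearIndependent_iff.2 fun g hg => ?_
  have h1 : ∀ v : Fin (m + 2) ⊕ Fin (m + 2) → ℂ,
      ∑ i, g i * cc (vf (fun a => C (v a)) (rh φ i)) = 0 := fun v => by
    have := fun a => congrArg (v a * ·) (congrFun hg a)
    simp only [Finset.sum_apply, Pi.smul_apply, smul_eq_mul, mul_sum, Pi.zero_apply, mul_zero] at this
    simp only [vf, map_sum, map_mul, constantCoeff_C, mul_sum]
    rw [sum_comm]
    exact sum_eq_zero fun a _ => by simpa only [mul_left_comm] using this a
  have h2 : ∀ k, g (Fin.castAdd m k) = 0 ∧ g (Fin.natAdd m k) = 0 := fun k => by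
    have a1 := h1 (Pi.single (inl k.succ.succ) 1)
    have a2 := h1 (Pi.single (inr k.succ.succ) 1)
    simp only [Fin.sum_univ_add, rh, Fin.append_left, Fin.append_right, vf_add, vf_mul, vf_C,
      vf_sub, map_add, map_mul, map_sub, mul_zero, add_zero, (cc_vf φ _ _).1, (cc_vf φ _ _).2,
      constantCoeff_C] at a1 a2
    have e : (1 : Fin (m + 2)) ≠ k.succ.succ := (Fin.succ_succ_ne_one k).symm
    simp [Pi.single_apply, e, -Fin.natAdd_eq_addNat] at a1 a2
    exact ⟨by linear_combination (a1 + a2) / 2,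
      by linear_combination (a2 - a1) * I / 2 + g (Fin.natAdd m k) * I_mul_I⟩
  intro i
  induction i using Fin.addCases with
  | left k => exact (h2 k).1
  | right k => exact (h2 k).2

lemma finiteType : FiniteTypeAn (rh φ) := by
  refine Set.ext fun v => ⟨span_tan (defining φ), fun hv => ?_⟩
  have c : ∀ a, Convergent (LL φ a) := fun a => cv_iff.2 <| by
    rcases a with a | a
    · exact inferInstanceAs (Cv 0)
    · refine Fin.cases ?_ (Fin.cases ?_ fun k => ?_) a <;>
        simp only [LL, elim_inr, Matrix.cons_val_zero, Matrix.cons_val_succ] <;> infer_instance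
  have b1 := IsBracketAn.cr (crLL φ) c
  have b2 := IsBracketAn.conj (crLL φ) c
  have b3 := b1.lie (b1.lie b2)
  have b4 := b2.lie (b1.lie b2)
  have s := fun V (h : IsBracketAn (rh φ) V) (t : ℂ) => Submodule.smul_mem (Submodule.span ℂ
    {w | ∃ V, IsBracketAn (rh φ) V ∧ w = fun a => cc (V a)}) t (Submodule.subset_span ⟨V, h, rfl⟩)
  have h := add_mem (add_mem (s _ b1 (v (inr 0))) (s _ b2 (v (inl 0))))
    (add_mem (s _ b3 (-v (inl 1) / 2)) (s _ b4 (v (inr 1) / 2)))
  obtain ⟨w, hw, h⟩ : ∃ w, _ = w ∧ w ∈ _ := ⟨_, rfl, h⟩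
  have h1 := tan_eq φ (span_tan (defining φ) h)
  have h2 : w (inl 0) = v (inl 0) ∧ w (inr 0) = v (inr 0) ∧ w (inl 1) = v (inl 1) ∧
      w (inr 1) = v (inr 1) := by
    have e : ∀ (V : VField (m + 2)) f, act V f = vf V f := fun _ _ => rfl
    simp [← hw, bracket, e, conjField, LL, cs_X, vf_X, vf_mul]
    constructor <;> ring
  refine (funext fun a => ?_ : w = v) ▸ h
  rcases a with a | a <;> refine Fin.cases ?_ (Fin.cases ?_ fun k => ?_) a <;>
    simp [h2, h1, tan_eq φ hv]

/-- the parametrisation of the slice `z = 0` -/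
def par : Fin (m + 2) → PS (Option Unit) := Matrix.vecCons 0 (Matrix.vecCons (X none) φ)

instance (j : Fin (m + 2)) : Cv (par φ j) := by
  refine Fin.cases ?_ (Fin.cases ?_ fun k => ?_) j <;>
    simp only [par, Matrix.cons_val_zero, Matrix.cons_val_succ] <;> infer_instance

instance (j : Fin (m + 2)) : Z (par φ j) := by
  refine Fin.cases ?_ (Fin.cases ?_ fun k => ?_) j <;>
    simp only [par, Matrix.cons_val_zero, Matrix.cons_val_succ] <;> infer_instance

/-- the point `(x, conj x)` -/
def qq (x : ℂ) : Option Unit → ℂ := fun i => i.elim x fun _ => starRingEnd ℂ x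

lemma tend_qq : Tendsto qq (𝓝 0) (𝓝 0) :=
  Continuous.tendsto' (continuous_pi fun i => by cases i <;> simp only [qq, Option.elim] <;>
    fun_prop) _ _ (funext fun i => by cases i <;> simp [qq])

lemma tend0 {σ : Type} [Finite σ] (f : PS σ) [Cv f] [Z f] : Tendsto (value f) (𝓝 0) (𝓝 0) := by
  refine tendsto_zero_iff_enorm_tendsto_zero.2 (ENNReal.tendsto_nhds_zero.2 fun ε hε => ?_)
  filter_upwards [ev_nrm f (Cv.small f hε.ne')] with p hp
  exact (enorm_tsum_le_tsum_enorm.trans_eq (nrm_eq p f).symm).trans hp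

lemma par_mem : ∀ᶠ x in 𝓝 0, (fun j => value (par φ j) (qq x)) ∈ zeroSet (rh φ) := by
  let sw : Option Unit → Option Unit := fun i => i.elim (some ()) fun _ => none
  let Θ := Sum.elim (par φ) fun j => R sw (cj (par φ j))
  have h1 : ∀ k, S Θ (uu φ k) = 0 := fun k => by
    rw [uu, map_sub, S_S, S_eq_self fun i => by cases i <;> simp [sg, Θ, par, sw]]
    simp [Θ, par]
  have h2 : ∀ k, S Θ (conjSer (uu φ k)) = 0 := fun k => by
    rw [uu, cs_sub, map_sub, cs_S, S_S, S_congr (b := fun i => X (sw i)) fun i => by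
      cases i <;> simp [sg, Θ, par, sw, cs_X]]
    simp [Θ, par, cs_X]
  have h3 := rh_ind φ (P := fun f => S Θ f = 0) (by simp [h1, h2]) (by simp [h1, h2])
  filter_upwards [tend_qq (eventually_all.2 fun i => ev_S Θ (rh φ i)),
    tend_qq (eventually_all.2 fun j => ev_S (fun i => X (sw i)) (cj (par φ j)))] with x a1 a2 i
  simp only [Set.mem_preimage, Set.mem_ofPred_eq, value_X, h3] at a1 a2
  refine Eq.trans (congrArg _ (funext fun a => ?_)) ((a1 i).symm.trans (by simp [value]))
  rcases a with a | a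
  · rfl
  · simp only [Θ, elim_inr, a2, ← value_cj]
    exact congrArg _ (funext fun i => by cases i <;> simp [qq, sw])

lemma ident1 (g : PS (Option Empty)) [Cv g] (h : ∀ᶠ r : ℝ in 𝓝 0, value g (fun _ => r) = 0)
    (k : ℕ) : coeff (Finsupp.single none k) g = 0 := by
  by_contra hk
  obtain ⟨p, hp⟩ := exists_reg ⟨k, hk⟩
  obtain ⟨e, l, h1, h2, h3, h4⟩ := hp.dec
  have := (h4 ‹_›).1
  have h5 : l = 0 := MvPowerSeries.ext fun d => mem_Fil.1 h2 d (by
    simp [Finsupp.weight_apply, Finsupp.sum_fintype, show default = none from rfl])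
  have h6 : Tendsto (fun r : ℝ => fun _ : Option Empty => (r : ℂ)) (𝓝 0) (𝓝 0) :=
    Continuous.tendsto' (by fun_prop) _ _ (by ext; simp)
  have h7 := (tend0 (e - C (cc e))).comp h6
  have h8 : ∀ᶠ r : ℝ in 𝓝[≠] 0, -cc e = (value (e - C (cc e)) ∘ fun r : ℝ => fun _ => (r : ℂ)) r := by
    filter_upwards [nhdsWithin_le_nhds h, nhdsWithin_le_nhds (h6 (ev_B e)), self_mem_nhdsWithin]
      with r a1 a2 a3
    have a4 : (X none : PS (Option Empty)) ∈ B fun _ => (r : ℂ) := (nrm_X _ _).trans_ne enorm_ne_top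
    have a5 := map_pow (ev fun _ => (r : ℂ)) ⟨_, a4⟩ p
    have a6 := value_add (sub_mem a2 (algebraMap_mem _ (cc e))) (algebraMap_mem _ (cc e))
    rw [h3, h5, add_zero, value_mul (pow_mem a4 p) a2, show value (X none ^ p) _ = _ from
      a5.trans (congrArg (· ^ p) (value_X none)), mul_eq_zero_iff_left
      (pow_ne_zero _ (by simpa using a3))] at a1
    rw [sub_add_cancel, a1, show value (algebraMap _ _ _) _ = _ from value_C (cc e)] at a6
    exact (eq_neg_of_add_eq_zero_left a6.symm).symm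
  exact h1 (neg_eq_zero.1 (tendsto_nhds_unique tendsto_const_nhds
    ((h7.mono_left nhdsWithin_le_nhds).congr' (h8.mono fun _ => Eq.symm))))

lemma poly_zero (P : MvPolynomial (Option Unit) ℂ) (h : ∀ x, MvPolynomial.eval (qq x) P = 0) :
    P = 0 := by
  have h1 : MvPolynomial.bind₁ (fun i : Option Unit => (MvPolynomial.X none + MvPolynomial.C
      (i.elim I fun _ => -I) * MvPolynomial.X (some ()) : MvPolynomial (Option Unit) ℂ)) P = 0 :=
    MvPolynomial.funext_set (fun _ => Set.range ofReal)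
      (fun _ => Set.infinite_range_of_injective ofReal_injective) fun x hx => by
        obtain ⟨a, ha⟩ := hx none trivial
        obtain ⟨b, hb⟩ := hx (some ()) trivial
        rw [map_zero, ← h (a + I * b), ← MvPolynomial.aeval_eq_eval, MvPolynomial.aeval_bind₁]
        exact congrArg (MvPolynomial.eval · P) (funext fun i => by
          cases i <;> simp [qq, ← ha, ← hb])
  refine MvPolynomial.funext fun u => ?_
  have := congrArg (MvPolynomial.aeval fun i : Option Unit => i.elim ((u none + u (some ())) / 2)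
    fun _ => I * (u (some ()) - u none) / 2) h1
  rw [MvPolynomial.aeval_bind₁, map_zero] at this
  refine Eq.trans (congrArg (MvPolynomial.eval · P) (funext fun i => ?_)) (this.trans (by simp))
  cases i <;> simp
  · linear_combination (u none - u (some ())) / 2 * I_mul_I
  · linear_combination (u (some ()) - u none) / 2 * I_mul_I

lemma ident (G : PS (Option Unit)) [Cv G] (h : ∀ᶠ x in 𝓝 0, value G (qq x) = 0) : G = 0 := by
  have key : ∀ (c : Option Unit → ℂ) (k : ℕ) (f : PS (Option Unit)),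
      coeff (Finsupp.single none k) (S (fun i => C (c i) * X none) f : PS (Option Empty)) =
      ∑ d ∈ finsuppAntidiag univ k, coeff d f * ∏ i, c i ^ d i := by
    intro c k f
    refine ind_mono (P := fun f => coeff (Finsupp.single none k)
      (S (fun i => C (c i) * X none) f : PS (Option Empty)) =
      ∑ d ∈ finsuppAntidiag univ k, coeff d f * ∏ i, c i ^ d i)
      (isClosed_eq (by fun_prop) (by fun_prop))
      (fun f g hf hg => by simp only [map_add, hf, hg, add_mul, sum_add_distrib]) (fun e a => ?_) f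
    rw [S_monomial, Finsupp.prod_fintype _ _ (by simp)]
    simp only [mul_pow, prod_mul_distrib, prod_pow_eq_pow_sum, ← map_pow, ← map_prod, coeff_C_mul,
      coeff_X_pow, coeff_monomial, ite_mul, zero_mul, sum_ite_eq', mem_finsuppAntidiag,
      subset_univ, and_true, (Finsupp.single_injective _).eq_iff, eq_comm (a := k)]
    split_ifs <;> simp
  refine MvPowerSeries.ext fun d => ?_
  have h1 := poly_zero (∑ e ∈ finsuppAntidiag univ (∑ i, d i),
    MvPolynomial.monomial e (coeff e G)) fun x => by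
      have h6 : Tendsto (fun r : ℝ => fun _ : Option Empty => (r : ℂ)) (𝓝 0) (𝓝 0) :=
        Continuous.tendsto' (by fun_prop) _ _ (by ext; simp)
      have h7 : Tendsto (fun r : ℝ => x * r) (𝓝 0) (𝓝 0) :=
        Continuous.tendsto' (by fun_prop) _ _ (by simp)
      have := ident1 (S (fun i => C (qq x i) * X none) G) (by
        filter_upwards [h6 (ev_S (fun i => C (qq x i) * X none) G), h7 h] with r a1 a2
        refine Eq.trans a1 (Eq.trans (congrArg _ (funext fun i => ?_)) a2)
        rw [value_mul ((nrm_C _ _).trans_ne enorm_ne_top) ((nrm_X _ _).trans_ne enorm_ne_top),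
          value_X, value_C]
        cases i <;> simp [qq]) (∑ i, d i)
      rw [key] at this
      simpa [MvPolynomial.eval_monomial, Finsupp.prod_fintype] using this
  simpa [MvPolynomial.coeff_sum, MvPolynomial.coeff_monomial] using
    congrArg (MvPolynomial.coeff d) h1

lemma vanish (G : PS (Fin (m + 2))) [Cv G]
    (h : ∀ᶠ z in 𝓝 0, z ∈ zeroSet (rh φ) → value G z = 0) : S (par φ) G = 0 := by
  refine ident _ ?_
  filter_upwards [par_mem φ, tend_qq (ev_S (par φ) G), (tendsto_pi_nhds.2 fun j =>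
    (tend0 (par φ j)).comp tend_qq) h] with x a1 a2 a3
  exact a2.trans (a3 a1)

end

end Pool.Agent.Lib.MP_547e2f_an.Cubic
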