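import Mathlib

/-!
Real analytic CR submanifolds of finite type and formal holomorphic maps, in terms of power series.
A real analytic function near `0` in `ℂ^n` is a convergent power series in `(z, z̄)`: the variable
`inl j` stands for `z_j` and the variable `inr j` for `z̄_j`.
-/

namespace Pool.Agent.Lib.MP_547e2f_an.St

open MvPowerSeries

noncomputable section

/-- Formal power series in `(z, z̄)`, `z ∈ ℂ^n`. -/
abbrev Ser (n : ℕ) : Type := MvPowerSeries (Fin n ⊕ Fin n) ℂ

/-- A power series converges absolutely on some polydisc around `0`. -/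
def Convergent {σ : Type} (f : MvPowerSeries σ ℂ) : Prop :=
  ∃ r : ℝ, 0 < r ∧ Summable fun d : σ →₀ ℕ => ‖coeff d f‖ * r ^ d.degree

/-- The sum of a power series at a point. -/
def value {σ : Type} (f : MvPowerSeries σ ℂ) (p : σ → ℂ) : ℂ :=
  ∑' d : σ →₀ ℕ, coeff d f * d.prod fun i k => p i ^ k

/-- The series with complex conjugate coefficients. -/
def bar {σ : Type} (f : MvPowerSeries σ ℂ) : MvPowerSeries σ ℂ := map (starRingEnd ℂ) f

variable {n N d d' : ℕ}

/-- The series of the complex conjugate function: conjugate the coefficients and exchange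
`z` and `z̄`. -/
def conjSer (f : Ser n) : Ser n := bar (rename Sum.swap f)

/-- The common zero set `{z | ρ(z, z̄) = 0}`. -/
def zeroSet (ρ : Fin d → Ser n) : Set (Fin n → ℂ) :=
  {z | ∀ i, value (ρ i) (Sum.elim z fun j => starRingEnd ℂ (z j)) = 0}

/-- `ρ` is a system of defining functions of a real analytic submanifold through `0`: the `ρ i`
are convergent, real valued, vanish at `0` and have independent differentials at `0`. -/
structure IsDefining (ρ : Fin d → Ser n) : Prop where
  conv : ∀ i, Convergent (ρ i)
  real : ∀ i, conjSer (ρ i) = ρ i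
  zero : ∀ i, constantCoeff (ρ i) = 0
  indep : LinearIndependent ℂ fun i => fun a => constantCoeff (pderiv ℂ a (ρ i))

/-- Complex vector fields `∑ V (inl j) ∂/∂z_j + ∑ V (inr j) ∂/∂z̄_j`. -/
abbrev VField (n : ℕ) : Type := Fin n ⊕ Fin n → Ser n

/-- A vector field applied to a function. -/
def act (V : VField n) (f : Ser n) : Ser n := ∑ a, V a * pderiv ℂ a f

/-- The Lie bracket of vector fields. -/
def bracket (V W : VField n) : VField n := fun a => act V (W a) - act W (V a)

/-- The complex conjugate vector field. -/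
def conjField (V : VField n) : VField n := fun a => conjSer (V a.swap)

/-- CR vector fields of `{ρ = 0}`: fields of type `(0,1)` tangent to it. -/
def IsCRField (ρ : Fin d → Ser n) (V : VField n) : Prop :=
  (∀ j, V (Sum.inl j) = 0) ∧ ∀ i, act V (ρ i) ∈ Ideal.span (Set.range ρ)

/-- `{ρ = 0}` is a CR submanifold: every `(0,1)` tangent vector at `0` is the value of a CR vector
field (the spaces `T^{0,1}_p` form a bundle near `0`). -/
def IsCR (ρ : Fin d → Ser n) : Prop :=
  ∀ v : Fin n → ℂ, (∀ i, ∑ j, v j * constantCoeff (pderiv ℂ (Sum.inr j) (ρ i)) = 0) →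
    ∃ V, IsCRField ρ V ∧ ∀ j, constantCoeff (V (Sum.inr j)) = v j

/-- Iterated Lie brackets of CR vector fields and their conjugates. -/
inductive IsBracket (ρ : Fin d → Ser n) : VField n → Prop
  | cr {V} : IsCRField ρ V → IsBracket ρ V
  | conj {V} : IsCRField ρ V → IsBracket ρ (conjField V)
  | lie {V W} : IsBracket ρ V → IsBracket ρ W → IsBracket ρ (bracket V W)

/-- Finite type at `0` (Bloom, Graham, Kohn): the values at `0` of the iterated brackets span the
complexified tangent space, the common kernel of the differentials `dρ_i(0)`. -/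
def FiniteType (ρ : Fin d → Ser n) : Prop :=
  (Submodule.span ℂ {w | ∃ V, IsBracket ρ V ∧ w = fun a => constantCoeff (V a)} :
    Set (Fin n ⊕ Fin n → ℂ)) = {v | ∀ i, ∑ a, v a * constantCoeff (pderiv ℂ a (ρ i)) = 0}

/-- The formal holomorphic map `f` sends `{ρ = 0}` into `{ρ' = 0}` formally:
`ρ'(f(z), conj f(z)) = a(z, z̄) ρ(z, z̄)` for a matrix `a` of formal series. -/
def MapsFormally (ρ : Fin d → Ser n) (ρ' : Fin d' → Ser N)
    (f : Fin N → MvPowerSeries (Fin n) ℂ) : Prop :=
  ∃ a : Fin d' → Fin d → Ser n, ∀ i, subst (Sum.elim (fun j => (rename Sum.inl (f j) : Ser n))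
    fun j => rename Sum.inr (bar (f j))) (ρ' i) = ∑ k, a i k * ρ k

end

end Pool.Agent.Lib.MP_547e2f_an.St
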