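import Pool.Agent.Lib.MP_547e2f_an.Par
import Pool.Agent.Lib.MP_547e2f_an.Defs

-- part Pool.Agent.Lib.MP_547e2f_an.CR
section

/-!
CR submanifolds of finite type have the reflection property.
-/

namespace Pool.Agent.Lib.MP_547e2f_an

open MvPowerSeries Finset Sum St
open scoped ENNReal

noncomputable section

variable {σ τ D y : Type} {n d : ℕ}

lemma R_eq [Finite σ] (e : σ → τ) (f : PS σ) : rename e f = R e f := by
  rw [S_eq_subst (by simp), rename_eq_subst]; rfl

lemma mono_const (r : ℝ≥0∞) (d : σ →₀ ℕ) : mono (fun _ => r) d = r ^ d.degree := by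
  simp [mono, Finsupp.prod, Finsupp.degree, prod_pow_eq_pow_sum]

lemma cv_iff {f : PS σ} : Convergent f ↔ Cv f := by
  refine ⟨fun ⟨r, h1, h2⟩ => ⟨.ofReal r, by simpa using h1, ?_⟩, fun _ => ?_⟩
  · refine ne_of_eq_of_ne (tsum_congr fun d => ?_) h2.tsum_ofReal_ne_top
    rw [mono_const, ENNReal.ofReal_mul (norm_nonneg _), ofReal_norm, ENNReal.ofReal_pow h1.le]
  · obtain ⟨t, h1, h2⟩ := (ev_ne.and (Cv.ev f)).exists
    refine ⟨t.toReal, ENNReal.toReal_pos h1.1 h1.2.1, ?_⟩
    simpa [mono_const] using ENNReal.summable_toReal h2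

lemma cs_eq (f : Ser n) : conjSer f = cj (R Sum.swap f) := by rw [conjSer, R_eq]; rfl

lemma cs_S [Finite σ] (a : σ → Ser n) (f : PS σ) :
    conjSer (S a f) = S (fun i => conjSer (a i)) (cj f) := by
  simp only [cs_eq, S_S a, cj_S fun i => R _ (a i)]

lemma cs_X (a : Fin n ⊕ Fin n) : conjSer (X a) = X a.swap := by simp [cs_eq]

lemma cs_vf (V : VField n) (f : Ser n) : vf (conjField V) (conjSer f) = conjSer (vf V f) := by
  simp only [vf, cs_eq, conjField, map_sum, map_mul, ← cj_pd]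
  rw [← (Equiv.sumComm _ _).sum_comp]
  simp only [Equiv.sumComm_apply, swap_swap, pd_R_inj swap_leftInverse.injective]

variable {ρ : Fin d → Ser n}

lemma cs_mem (hρ : IsDefining ρ) {f : Ser n} (h : f ∈ Ideal.span (Set.range ρ)) :
    conjSer f ∈ Ideal.span (Set.range ρ) := by
  obtain ⟨c, rfl⟩ := Ideal.mem_span_range_iff_exists_fun.mp h
  simp only [cs_eq, map_sum, map_mul]
  exact sum_mem fun i _ => Ideal.mul_mem_left _ _
    (Ideal.subset_span ⟨i, by rw [← cs_eq, hρ.real]⟩)

variable [Fintype D] {v : D → Fin n ⊕ Fin n} {ι : Fin n ⊕ Fin n → PS D} [∀ a, Z (ι a)]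

lemma Par.ft [DecidableEq D] (h : Par ρ v ι) (hρ : IsDefining ρ) (hf : FiniteType ρ) [Fintype y]
    (Γ : D → PS y) (H : ∀ V, (∀ j, vf V (ι (inl j)) = 0) ∨ (∀ j, vf V (ι (inr j)) = 0) →
      Tan Γ V) : ∃ e : D → y, (Matrix.of fun q k => pd (e k) (Γ q)).det ≠ 0 := by
  have h0 : ∀ V : VField n, (∀ i, S ι (vf V (ρ i)) = 0) → ∀ a,
      vf (fun q => S ι (V (v q))) (ι a) = S ι (V a) := fun V hV a => by
    simpa [vf_X] using h.tang V hV (X a)
  have h1 : ∀ V, IsBracket ρ V → (∀ i, S ι (vf V (ρ i)) = 0) ∧ Tan Γ fun q => S ι (V (v q)) := by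
    intro V hV
    induction hV with
    | cr hV =>
      have := fun i => h.iff.mpr (hV.2 i)
      exact ⟨this, H _ (Or.inl fun j => by rw [h0 _ this, hV.1, map_zero])⟩
    | @conj V hV =>
      have : ∀ i, S ι (vf (conjField V) (ρ i)) = 0 := fun i => h.iff.mpr (by
        rw [← hρ.real i, cs_vf]; exact cs_mem hρ (hV.2 i))
      exact ⟨this, H _ (Or.inr fun j => by
        rw [h0 _ this, conjField, swap_inr, hV.1, cs_eq]; simp)⟩
    | @lie V W _ _ hV hW =>
      refine ⟨fun i => ?_, ?_⟩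
      · rw [show bracket V W = br V W from rfl, vf_br, map_sub, ← h.tang V hV.1, hW.1,
          ← h.tang W hW.1, hV.1]
        simp [vf]
      · convert hV.2.br hW.2 using 2 with q
        rw [br, h.tang V hV.1, h.tang W hW.1, ← map_sub]; rfl
  have h2 : ∀ t ∈ Submodule.span ℂ {w | ∃ V, IsBracket ρ V ∧ w = fun a => cc (V a)},
      ∃ W, Tan Γ W ∧ ∀ q, cc (W q) = t (v q) := by
    intro t ht
    induction ht using Submodule.span_induction with
    | mem _ ht =>
      obtain ⟨V, hV, rfl⟩ := ht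
      exact ⟨_, (h1 V hV).2, by simp⟩
    | zero => exact ⟨_, tan_zero Γ, by simp⟩
    | add _ _ _ _ h3 h4 =>
      obtain ⟨V, a1, a2⟩ := h3
      obtain ⟨W, a3, a4⟩ := h4
      exact ⟨_, a1.lin a3 1 1, by simp [a2, a4]⟩
    | smul c _ _ h3 =>
      obtain ⟨V, a1, a2⟩ := h3
      exact ⟨_, a1.lin a1 (C c) 0, by simp [a2]⟩
  choose W h3 h4 using fun q => h2 (fun a => cc (pd q (ι a))) (by
    refine (Set.ext_iff.mp hf _).mpr fun i => ?_
    have := congrArg (fun f => cc (pd q f)) (h.zero i)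
    simpa [pd_S, mul_comm] using this)
  choose c h5 a h6 using h3
  refine exists_minor (.of fun p k => pd k (Γ p)) (.of fun k q => a q k) ?_
  rw [show Matrix.of (fun p k => pd k (Γ p)) * Matrix.of (fun k q => a q k) =
    Matrix.of fun p q => c q * Matrix.of (fun p q => S Γ (W q p)) p q from Matrix.ext fun p q => by
      simp [Matrix.mul_apply, h6, vf, mul_comm], Matrix.det_mul_row]
  refine mul_ne_zero (prod_ne_zero_iff.mpr fun q _ => h5 q) fun h7 => ?_
  have := congrArg constantCoeff h7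
  rw [RingHom.map_det, show constantCoeff.mapMatrix (Matrix.of fun p q => S Γ (W q p)) = 1 from
    Matrix.ext fun p q => by simp [h4, h.co, pd_X, Matrix.one_apply, apply_ite]] at this
  simp at this

lemma Par.side (h : Par ρ v ι) (hρ : IsDefining ρ) [∀ a, Cv (ι a)]
    (h1 : ∀ q j, (v q).isRight → pd q (ι (inl j)) = 0) :
    Side (fun j => ι (inl j)) ∧ Side fun j => ι (inr j) := by
  have h2 : ∀ q, ¬(v q).isRight → ∃ j, ι (inl j) = X q := fun q hq => by
    rw [← h.co]
    cases hv : v q with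
    | inl j => exact ⟨j, rfl⟩
    | inr j => simp [hv] at hq
  have h3 : ∀ a, S (fun q => cj (ι (v q).swap)) (ι a) = cj (ι a.swap) :=
    h.univ (fun a => cj (ι a.swap)) fun i => by
      rw [← hρ.real i, cs_eq, ← cj_S, S_R]
      simp [h.zero]
  have h4 : ∀ a : Fin n ⊕ Fin n, S (fun q => ι (v q).swap) (cj (ι a.swap)) = ι a := fun a => by
    simpa [cj_S] using congrArg cj (h3 a.swap)
  refine ⟨.of_pd _ h1 h2, ?_⟩
  simpa only [← swap_inr, h4] using (Side.of_pd (z := fun j => cj (ι (inl j))) _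
    (fun q j hq => by rw [← cj_pd, h1 q j hq, map_zero]) fun q hq => (h2 q hq).imp fun j hj => by
      simp [hj]).transport (fun q => ι (v q).swap) (fun q => cj (ι (v q).swap))
      (fun q => by rw [h4, h.co]) fun q => by simp [h3, h.co]

theorem exists_chart (hρ : IsDefining ρ) (hc : IsCR ρ) (hf : FiniteType ρ) :
    ∃ (D : Type) (_ : Fintype D) (v : D → Fin n ⊕ Fin n) (ι : Fin n ⊕ Fin n → PS D),
      (∀ a, Cv (ι a)) ∧ (∀ a, Z (ι a)) ∧ Par ρ v ι ∧
      (∀ q j, (v q).isRight → pd q (ι (inl j)) = 0) ∧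
      ∃ w, P (fun j => ι (inl j)) (fun j => ι (inr j)) (blow w) := by
  classical
  obtain ⟨e, he, h1, h2⟩ := exists_cols (.of fun i a => cc (pd a (ρ i))) hρ.indep
    fun a => a.isRight
  have := fun i => cv_iff.mp (hρ.conv i)
  have : ∀ i, Z (ρ i) := fun i => ⟨hρ.zero i⟩
  obtain ⟨ι, _, _, h⟩ := exists_par ((Equiv.sumComm _ _).trans ((Equiv.sumCongr
    (Equiv.ofInjective e he) (Equiv.refl _)).trans (Equiv.Set.sumCompl (Set.range e)))) ρ h1
  change Par ρ Subtype.val ι at h
  have h3 : ∀ (q : ↥(Set.range e)ᶜ) j, q.1.isRight → pd q (ι (inl j)) = 0 := by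
    have h4 : ∀ q : ↥(Set.range e)ᶜ, q.1.isRight → ∃ V, IsCRField ρ V ∧
        ∀ p : ↥(Set.range e)ᶜ, cc (V p) = if q = p then 1 else 0 := fun q hq => by
      obtain ⟨l, a1, a2⟩ := h2 q hq
      obtain ⟨j, hj⟩ := isRight_iff.mp hq
      obtain ⟨V, a3, a4⟩ := hc (fun i => (if j = i then 1 else 0) -
          ∑ k, if e k = inr i then l k else 0) fun i => by
        have := a2 i
        simp only [sub_mul, sum_sub_distrib, sum_mul, ite_mul, one_mul, zero_mul, sum_ite_eq,
          mem_univ, if_true, Matrix.of_apply, hj] at this ⊢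
        rw [sum_comm, sub_eq_zero]
        refine this.trans (sum_congr rfl fun k _ => ?_)
        cases hk : e k with
        | inl i => simp [a1 k (by simp [hk])]
        | inr i => simp
      refine ⟨V, a3, fun ⟨p, hp⟩ => ?_⟩
      cases p with
      | inl i => simp [a3.1, Subtype.ext_iff, hj]
      | inr i =>
        rw [cc, a4, sum_eq_zero fun k _ => if_neg fun hk => hp ⟨k, hk⟩]
        simp [Subtype.ext_iff, hj]
    choose! V h5 h6 using h4
    intro q j hq
    have h7 := Matrix.eq_zero_of_mulVec_eq_zero (M := .of fun q p : ↥(Set.range e)ᶜ =>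
      if q.1.isRight then S ι (V q p) else if q = p then 1 else 0)
      (v := fun p => if p.1.isRight then pd p (ι (inl j)) else 0) (fun h7 => by
        have := congrArg constantCoeff h7
        rw [RingHom.map_det, show constantCoeff.mapMatrix _ = 1 from Matrix.ext fun p q => by
          by_cases hp : p.1.isRight <;> simp [hp, h6, Matrix.one_apply, apply_ite constantCoeff]]
          at this
        simp at this) (funext fun q => by
        by_cases hq : q.1.isRight
        · have := h.tang (V q) (fun i => h.iff.mpr ((h5 q hq).2 i)) (X (inl j))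
          rw [vf_X, (h5 q hq).1, map_zero, S_XZ] at this
          rw [Pi.zero_apply, ← this, vf, Matrix.mulVec, dotProduct]
          refine sum_congr rfl fun ⟨p, hp⟩ _ => ?_
          cases p <;> simp [hq, (h5 q hq).1]
        · rw [Pi.zero_apply, Matrix.mulVec, dotProduct, sum_eq_single q
            (fun p _ hp => by simp [hq, hp.symm]) (by simp)]
          simp [hq])
    simpa [hq] using congrFun h7 q
  obtain ⟨h4, h5⟩ := h.side hρ h3
  exact ⟨_, inferInstance, _, ι, ‹_›, ‹_›, h, h3, core h4 h5 fun y _ Γ _ => h.ft hρ hf Γ⟩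

end

end Pool.Agent.Lib.MP_547e2f_an
end

-- part Pool.Agent.Lib.MP_547e2f_an.Main
section

/-!
The approximation theorem at the level of power series.
-/

namespace Pool.Agent.Lib.MP_547e2f_an

open MvPowerSeries Finset Sum St

noncomputable section

variable {σ ν D ι : Type}

lemma exists_trunc [Finite σ] (f : PS σ) [Z f] (k : ℕ) :
    ∃ T, Cv T ∧ Z T ∧ T - f ∈ Fil (fun _ => 1) (k + 1) :=
  ⟨truncTotal (k + 1) f, inferInstance, ⟨by
    rw [cc, ← coeff_zero_eq_constantCoeff_apply, MvPolynomial.coeff_coe,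
      coeff_truncTotal _ (by simp)]
    simp⟩, fun d hd => by
    rw [map_sub, MvPolynomial.coeff_coe, coeff_truncTotal _
      (by rwa [Finsupp.degree_eq_weight_one]), sub_self]⟩

lemma descent [Finite ν] [Fintype D] [Finite ι] (v : D → ν ⊕ ν) (z : ν → PS D) [∀ j, Z (z j)]
    (h1 : ∀ q j, v q = inl j → z j = X q) (h2 : ∀ q j, (v q).isRight → pd q (z j) = 0)
    [∀ j, Cv (z j)] (f : ι → PS ν) [∀ i, Z (f i)] (k : ℕ) : ∃ F : ι → PS ν, (∀ i, Cv (F i)) ∧
      (∀ i, Z (F i)) ∧ (∀ i, F i - f i ∈ Fil (fun _ => 1) (k + 1)) ∧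
      Spec (Sum.elim X fun i => S z (f i)) (Sum.elim X fun i => S z (F i)) := by
  let κ : D → PS ν := fun q => Sum.elim X (fun _ => 0) (v q)
  have a1 : ∀ g, S z (S (fun j => S κ (z j)) g) = S z g := fun g => by
    rw [S_S]
    refine S_congr (fun j => ?_) g
    rw [S_S]
    refine (S_congr (fun q => ?_) _).trans (S_kill (fun q => (v q).isRight) fun q => h2 q j)
    cases hv : v q with
    | inl i => simp [κ, hv, h1 q i hv]
    | inr i => simp [κ, hv]
  obtain ⟨τ, _, Y, t, _, _, _, a2, a3⟩ := ploski fun i => S (fun j => S κ (z j)) (f i)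
  choose t' _ _ a4 using fun i => exists_trunc (t i) k
  choose T _ _ a5 using fun i => exists_trunc (f i) k
  refine ⟨fun i => S (Sum.elim X t') (Y i) + (T i - S (fun j => S κ (z j)) (T i)), inferInstance,
    inferInstance, fun i => ?_, ?_⟩
  · have := sub_mem (add_mem (sub_S_mem _ (Y i) (Sum.elim X t') (Sum.elim X t) fun j => by
      cases j <;> simp [a4]) (a5 i)) (S_mem_Fil (fun j => S κ (z j)) (a5 i))
    rw [a3, map_sub] at this
    convert this using 1; ring
  · have a6 : Spec (Sum.elim X fun i => S (fun j => S κ (z j)) (f i))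
        (Sum.elim X fun i => S (Sum.elim X t') (Y i)) := fun ψ b1 b2 => by
      simpa [S_elim] using congrArg (S (Sum.elim X t')) (a2 ψ ⟨b1, b2⟩)
    have a7 := ((a6.trans (.map _ z)).ext X).comp (Sum.elim (fun q => Sum.elim
      (fun j => X (inl (inl j))) (fun _ => X (inr q)) (v q)) fun i => X (inl (inr i)))
    refine ((Spec.map _ fun q => Sum.elim (fun j => X (inl j)) (fun _ => X (inr q)) (v q)).congr
      (fun _ => rfl) fun i => ?_).trans (a7.congr (fun _ => rfl) fun i => ?_)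
    · cases i with
      | inl q => cases hv : v q <;> simp [hv]
      | inr i =>
        simp only [elim_inr, S_XZ, elim_inl, S_S _ _ (f i)]
        refine S_congr (fun j => ?_) _
        rw [← S_kill (fun q => (v q).isRight) fun q => h2 q j, S_S, S_S, S_S]
        exact S_congr (fun q => by cases hv : v q <;> simp [κ, hv]) _
    · cases i with
      | inl q =>
        cases hv : v q with
        | inl j => simp [hv, h1 q j hv]
        | inr j => simp [hv]
      | inr i => simp [a1]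

theorem formal {n N d d' : ℕ} {ρ : Fin d → Ser n} (ρ' : Fin d' → Ser N) (hρ : IsDefining ρ)
    (hc : IsCR ρ) (hf : FiniteType ρ) [∀ i, Cv (ρ' i)] (f : Fin N → PS (Fin n)) [∀ i, Z (f i)]
    (h : MapsFormally ρ ρ' f) (k : ℕ) : ∃ F : Fin N → PS (Fin n), (∀ i, Cv (F i)) ∧
      (∀ i, Z (F i)) ∧ (∀ i, F i - f i ∈ Fil (fun _ => 1) (k + 1)) ∧ ∀ i, ∃ c : Fin d → Ser n,
      (∀ j, Cv (c j)) ∧ S (Sum.elim (fun j => R inl (F j)) fun j => R inr (cj (F j))) (ρ' i) =
        ∑ j, c j * ρ j := by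
  obtain ⟨D, _, v, ι, _, _, h1, h2, w, h3⟩ := exists_chart hρ hc hf
  obtain ⟨F, _, _, h4, h5⟩ := descent v (fun j => ι (inl j)) (fun q j h => by rw [← h, h1.co]) h2 f k
  obtain ⟨a, ha⟩ := h
  refine ⟨F, ‹_›, ‹_›, h4, fun i => ?_⟩
  have sw : ∀ (f g : Fin N → PS (Fin n)) [∀ j, Z (f j)] [∀ j, Z (g j)] (ψ : Ser N),
      S ι (S (Sum.elim (fun j => R inl (f j)) fun j => R inr (cj (g j))) ψ) = 0 →
      S ι (S (Sum.elim (fun j => R inl (g j)) fun j => R inr (cj (f j))) (conjSer ψ)) = 0 :=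
    fun f g _ _ ψ h => by
      refine (congrArg _ ?_).trans (h1.iff.mpr (cs_mem hρ (h1.iff.mp h)))
      rw [cs_S, cs_eq, cj_S, S_S _ _ (cj ψ)]
      exact S_congr (fun j => by cases j <;> simp [cs_eq, cj_S, S_R]) _
  have a1 := h3.of_blow _ _ (fun j => S (fun j => ι (inr j)) (cj (f j))) (R inr (ρ' i))
    (fun j => ⟨_, rfl⟩) (fun j => ⟨_, rfl⟩) (by
      have := congrArg (S ι) (ha i)
      rw [← S_eq_subst fun j => by cases j <;> simp [R_eq, bar]] at this
      simpa [S_elim, S_R, R_eq, h1.zero, bar] using this) h5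
  have a2 := sw F f (ρ' i) (by simpa [S_elim, S_R] using a1)
  have a3 := h5 (S (Sum.elim (fun j => X (inr j)) fun j => R inl (S (fun j => ι (inr j))
    (cj (F j)))) (conjSer (ρ' i))) (by rw [cs_eq]; infer_instance)
    (by simpa [S_elim, S_R] using a2)
  obtain ⟨c, a4, a5⟩ := h1.mem _ (sw F F _ (by simpa [S_elim, S_R] using a3))
  rw [show conjSer (conjSer (ρ' i)) = ρ' i by simp [cs_eq, cj_S, S_R]] at a4 a5
  exact ⟨c, a5 inferInstance, a4⟩

end

end Pool.Agent.Lib.MP_547e2f_an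
end

-- part Pool.Agent.Lib.MP_547e2f_an.Eval
section

/-!
Evaluation of convergent power series.
-/

namespace Pool.Agent.Lib.MP_547e2f_an

open MvPowerSeries Finset Sum St Filter Topology
open scoped ENNReal

noncomputable section

variable {σ τ α : Type}

/-- series that converge absolutely at `p` -/
def B (p : σ → ℂ) : Subalgebra ℂ (PS σ) where
  carrier := {f | nrm (fun i => ‖p i‖ₑ) f ≠ ∞}
  mul_mem' h1 h2 := ne_top_of_le_ne_top (ENNReal.mul_ne_top h1 h2) (nrm_mul _ _ _)
  add_mem' h1 h2 := ne_top_of_le_ne_top (ENNReal.add_ne_top.mpr ⟨h1, h2⟩) (nrm_add _ _ _)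
  algebraMap_mem' c := (nrm_C _ c).trans_ne enorm_ne_top

variable {p : σ → ℂ} {f g : PS σ}

lemma nrm_eq (p : σ → ℂ) (f : PS σ) : nrm (fun i => ‖p i‖ₑ) f =
    ∑' d : σ →₀ ℕ, ‖coeff d f * d.prod fun i k => p i ^ k‖ₑ := by
  simp [nrm, mono, Finsupp.prod, enorm_eq_nnnorm]

lemma summ (h : f ∈ B p) : Summable fun d : σ →₀ ℕ => ‖coeff d f * d.prod fun i k => p i ^ k‖ :=
  tsum_enorm_ne_top_iff_summable_norm.mp ((nrm_eq p f).symm.trans_ne h)

lemma value_add (hf : f ∈ B p) (hg : g ∈ B p) : value (f + g) p = value f p + value g p := by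
  simp only [value, map_add, add_mul]
  exact (summ hf).of_norm.tsum_add (summ hg).of_norm

lemma value_mul (hf : f ∈ B p) (hg : g ∈ B p) : value (f * g) p = value f p * value g p := by
  classical
  have h := summable_mul_of_summable_norm (summ hf) (summ hg)
  refine (tsum_congr fun d => ?_).trans
    ((summ hf).of_norm.tsum_mul_tsum_eq_tsum_sum_antidiagonal (summ hg).of_norm h).symm
  rw [coeff_mul, sum_mul]
  refine sum_congr rfl fun e he => ?_
  rw [← mem_antidiagonal.mp he, Finsupp.prod_add_index' (by simp) fun _ _ _ => pow_add _ _ _]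
  ring

lemma value_monomial (d : σ →₀ ℕ) (c : ℂ) :
    value (monomial d c) p = c * d.prod fun i k => p i ^ k := by
  rw [value, tsum_eq_single d fun e he => by simp [coeff_monomial_ne he], coeff_monomial_same]

lemma value_C (c : ℂ) : value (C c) p = c := by
  rw [← monomial_zero_eq_C_apply, value_monomial]; simp

lemma value_X (i : σ) : value (X i) p = p i := by rw [X_def, value_monomial]; simp

/-- evaluation -/
def ev (p : σ → ℂ) : B p →ₐ[ℂ] ℂ where
  toFun f := value f.1 p
  map_one' := value_C 1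
  map_mul' f g := value_mul f.2 g.2
  map_zero' := by simp [value]
  map_add' f g := value_add f.2 g.2
  commutes' := value_C

lemma value_sum (s : Finset α) (f : α → PS σ) (h : ∀ i, f i ∈ B p) :
    value (∑ i ∈ s, f i) p = ∑ i ∈ s, value (f i) p := by
  have := map_sum (ev p) (fun i => (⟨f i, h i⟩ : B p)) s
  rwa [show ∀ g : B p, ev p g = value g.1 p from fun _ => rfl, AddSubmonoidClass.coe_finsetSum]
    at this

lemma value_S [Finite τ] (a : τ → PS σ) [∀ i, Z (a i)] (ha : ∀ i, a i ∈ B p) (f : PS τ)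
    (h : nrm (fun i => nrm (fun j => ‖p j‖ₑ) (a i)) f ≠ ∞) :
    value (S a f) p = value f fun i => value (a i) p := by
  classical
  refine (HasSum.tsum_eq (L := .unconditional _) (tendsto_iff_enorm_sub_tendsto_zero.mpr
    (tendsto_of_tendsto_of_tendsto_of_le_of_le tendsto_const_nhds
      (ENNReal.tendsto_tsum_compl_atTop_zero h) (fun _ => bot_le) fun s => ?_))).symm
  have h1 : S a f ∈ B p := ne_top_of_le_ne_top h (nrm_S (fun _ => le_rfl) f)
  have h2 := map_sub (ev p) (∑ d ∈ s, coeff d f • d.prod fun i k => ⟨a i, ha i⟩ ^ k) ⟨_, h1⟩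
  have h3 : S a (∑ d ∈ s, monomial d (coeff d f) - f) = ((∑ d ∈ s, coeff d f •
      d.prod fun i k => ⟨a i, ha i⟩ ^ k) - ⟨_, h1⟩ : B p) := by
    simp [S_monomial, Finsupp.prod, smul_eq_C_mul]
  simp only [map_sum, map_smul, Finsupp.prod, map_prod, map_pow, smul_eq_mul] at h2
  refine (congrArg enorm h2.symm).trans_le (enorm_tsum_le_tsum_enorm.trans ?_)
  rw [← nrm_eq]
  refine (congrArg _ h3.symm).trans_le ((nrm_S (fun _ => le_rfl) _).trans_eq ?_)
  refine (tsum_congr fun d => ?_).trans (tsum_subtype {d | d ∉ s} fun d => ‖coeff d f‖ₑ *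
    mono (fun i => nrm (fun j => ‖p j‖ₑ) (a i)) d).symm
  by_cases hd : d ∈ s <;> simp [hd, coeff_monomial]

lemma value_cj (f : PS σ) (p : σ → ℂ) :
    value (cj f) (fun i => starRingEnd ℂ (p i)) = starRingEnd ℂ (value f p) := by
  simp [value, Complex.conj_tsum, Finsupp.prod]

variable [Finite σ]

lemma ev_nrm (f : PS σ) {c : ℝ≥0∞} (h : ∀ᶠ t in sm, nrm (fun _ => t) f ≤ c) :
    ∀ᶠ p in 𝓝 (0 : σ → ℂ), nrm (fun i => ‖p i‖ₑ) f ≤ c := by
  obtain ⟨t, h1, h2⟩ := (ev_ne.and h).exists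
  filter_upwards [eventually_all.mpr fun i => (continuous_apply i).enorm.continuousAt.eventually
    (Iic_mem_nhds (show ‖(0 : σ → ℂ) i‖ₑ < t by simpa using pos_iff_ne_zero.mpr h1.1))] with p hp
  exact (nrm_mono hp f).trans h2

lemma ev_B (f : PS σ) [h : Cv f] : ∀ᶠ p in 𝓝 (0 : σ → ℂ), f ∈ B p := by
  obtain ⟨r, h1, h2⟩ := h.out
  filter_upwards [ev_nrm f ((ev_le h1).mono fun t ht => nrm_mono (r' := fun _ => r) (fun _ => ht) f)]
    with p hp
  exact ne_top_of_le_ne_top h2 hp

lemma ev_S [Finite τ] (a : τ → PS σ) [∀ i, Z (a i)] [∀ i, Cv (a i)] (f : PS τ) [h : Cv f] :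
    ∀ᶠ p in 𝓝 (0 : σ → ℂ), value (S a f) p = value f fun i => value (a i) p := by
  obtain ⟨r, h1, h2⟩ := h.out
  filter_upwards [eventually_all.mpr fun i => ev_B (a i),
    eventually_all.mpr fun i => ev_nrm (a i) (Cv.small _ h1)] with p h3 h4
  exact value_S a h3 f (ne_top_of_le_ne_top h2 (nrm_mono h4 f))

lemma maps {n N d d' : ℕ} (ρ : Fin d → Ser n) (ρ' : Fin d' → Ser N) [∀ i, Cv (ρ i)]
    [∀ i, Cv (ρ' i)] (F : Fin N → PS (Fin n)) [∀ i, Cv (F i)] [∀ i, Z (F i)]
    (h : ∀ i, ∃ c : Fin d → Ser n, (∀ j, Cv (c j)) ∧ S (Sum.elim (fun j => R inl (F j))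
      fun j => R inr (cj (F j))) (ρ' i) = ∑ j, c j * ρ j) :
    ∀ᶠ z in 𝓝 (0 : Fin n → ℂ), z ∈ zeroSet ρ → (fun j => value (F j) z) ∈ zeroSet ρ' := by
  choose c _ h using h
  have h1 : Tendsto (fun z : Fin n → ℂ => Sum.elim z fun j => starRingEnd ℂ (z j)) (𝓝 0) (𝓝 0) :=
    Continuous.tendsto' (continuous_pi fun i => by cases i <;> simp only [elim_inl, elim_inr] <;>
      fun_prop) _ _ (funext fun i => by cases i <;> simp)
  filter_upwards [h1 (eventually_all.mpr fun i => ev_S (Sum.elim (fun j => R inl (F j))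
    fun j => R inr (cj (F j))) (ρ' i)), h1 (eventually_all.mpr fun i => ev_B (ρ i)),
    h1 (eventually_all.mpr fun i => eventually_all.mpr fun j => ev_B (c i j)),
    h1 (eventually_all.mpr fun j => ev_S (fun i => X (inl i)) (F j)),
    h1 (eventually_all.mpr fun j => ev_S (fun i => X (inr i)) (cj (F j)))] with z a1 a2 a3 a4 a5 hz i
  simp only [Set.mem_preimage, Set.mem_ofPred_eq, value_X, elim_inl, elim_inr, value_cj, h]
    at a1 a2 a3 a4 a5
  have := a1 i
  rw [value_sum _ _ fun j => mul_mem (a3 i j) (a2 j), sum_eq_zero fun j _ => by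
    rw [value_mul (a3 i j) (a2 j), hz j, mul_zero]] at this
  refine Eq.trans (congrArg _ (funext fun j => ?_)) this.symm
  cases j <;> simp [a4, a5]

end

end Pool.Agent.Lib.MP_547e2f_an
end
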