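import Pool.Agent.Lib.MP_547e2f_an.Eval

/-!
The example of Osgood and Gabrielov: a divergent series whose composition with
`(x, x t, x exp t)` converges.
-/

namespace Pool.Agent.Lib.MP_547e2f_an.Gab

open MvPowerSeries Finset Sum St Filter Topology
open scoped ENNReal Nat MvPowerSeries.WithPiTopology

noncomputable section

/-- the series `t ^ a * exp (b t)` -/
def te (a b : ℕ) : PowerSeries ℂ := PowerSeries.X ^ a * PowerSeries.exp ℂ ^ b

lemma te_mem (b a : ℕ) : te a b ∈ Module.End.maxGenEigenspace
    (PowerSeries.derivative ℂ).toLinearMap (b : ℂ) := by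
  rw [Module.End.mem_maxGenEigenspace]
  refine ⟨a + 1, ?_⟩
  have h : ∀ a : ℕ, ((PowerSeries.derivative ℂ).toLinearMap -
      (b : ℂ) • (1 : Module.End ℂ (PowerSeries ℂ)) : Module.End ℂ (PowerSeries ℂ))
      (te a b) = (a : ℂ) • te (a - 1) b := fun a => by
    have e : (b : PowerSeries ℂ) * PowerSeries.exp ℂ ^ (b - 1) * PowerSeries.exp ℂ =
        b * PowerSeries.exp ℂ ^ b := by
      cases b with
      | zero => simp
      | succ b => simp [pow_succ, mul_assoc]
    rw [LinearMap.sub_apply, LinearMap.smul_apply, Module.End.one_apply]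
    simp only [te, Derivation.coeFn_coe, Derivation.leibniz, Derivation.leibniz_pow, PowerSeries.derivative_exp,
      PowerSeries.derivative_X, smul_eq_mul, nsmul_eq_mul, mul_one, Nat.cast_smul_eq_nsmul]
    linear_combination PowerSeries.X ^ a * e
  induction a with
  | zero => rw [zero_add, pow_one, h]; simp
  | succ a ih => rw [pow_succ, Module.End.mul_apply, h, map_smul, Nat.add_sub_cancel, ih, smul_zero]

lemma te_li : LinearIndependent ℂ fun p : Σ _ : ℕ, ℕ => te p.2 p.1 := by
  refine linearIndependent_iUnion_finite (f := fun b a => te a b) (fun b => ?_) fun b t _ hb => ?_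
  · have h1 : LinearIndependent ℂ fun a : ℕ => (PowerSeries.X ^ a : PowerSeries ℂ) := by
      rw [linearIndependent_iff']
      intro s g h i hi
      have := congrArg (PowerSeries.coeff i) h
      simpa [PowerSeries.coeff_X_pow, hi] using this
    refine h1.map' (LinearMap.mulRight ℂ (PowerSeries.exp ℂ ^ b)) (LinearMap.ker_eq_bot'.2
      fun f hf => (mul_eq_zero.1 hf).resolve_right (pow_ne_zero _ fun h => ?_))
    simpa using congrArg PowerSeries.constantCoeff h
  · have : iSupIndep fun b => Submodule.span ℂ (Set.range fun a => te a b) :=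
      ((Module.End.independent_maxGenEigenspace (PowerSeries.derivative ℂ).toLinearMap).comp
        (Nat.cast_injective (R := ℂ))).mono fun b =>
          Submodule.span_le.2 (Set.range_subset_iff.2 (te_mem b))
    exact this.disjoint_biSup hb

/-- the map `(x, x t, x exp t)` -/
def th : Fin 3 → PS (Option Unit) :=
  ![X none, X none * X (some ()), X none * R some (PowerSeries.exp ℂ)]

instance (i : Fin 3) : Z (th i) := by
  fin_cases i <;> simp only [th] <;> exact ⟨by simp⟩

lemma cf_up (f : PS Unit) (j n : ℕ) : cf n (R some f * X none ^ j) = if n = j then f else 0 := by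
  refine MvPowerSeries.ext fun d => ?_
  rw [coeff_cf, coeff_up]
  split_ifs <;> simp_all

lemma cf_th (n : ℕ) (u : PS (Fin 3)) : cf n (S th u) =
    ∑ d ∈ finsuppAntidiag univ n, coeff d u • te (d 1) (d 2) := by
  refine ind_mono (P := fun u => cf n (S th u) =
    ∑ d ∈ finsuppAntidiag univ n, coeff d u • te (d 1) (d 2)) (isClosed_eq ?_ ?_)
    (fun f g hf hg => ?_) (fun e c => ?_) u
  · exact cont_iff.2 fun d => by simp only [coeff_cf]; fun_prop
  · exact cont_iff.2 fun d => by simp only [map_sum, map_smul]; fun_prop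
  · simp only [map_add, add_smul, sum_add_distrib, ← hf, ← hg]
    rfl
  · have : S th (monomial e c) = R some (c • te (e 1) (e 2)) * X none ^ (∑ i, e i) := by
      rw [S_monomial, Finsupp.prod_fintype _ _ (by simp)]
      simp only [Fin.prod_univ_three, Fin.sum_univ_three, th, te, map_mul, map_pow,
        PowerSeries.X, S_XZ, smul_eq_C_mul, Matrix.cons_val, S_C]
      ring
    rw [this, cf_up]
    simp only [coeff_monomial, ite_smul, zero_smul, sum_ite_eq', mem_finsuppAntidiag,
      subset_univ, and_true]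
    simp only [eq_comm]

lemma th_inj {u v : PS (Fin 3)} (h : S th u = S th v) : u = v := by
  ext d
  have h1 := congrArg (cf (∑ i, d i)) h
  rw [cf_th, cf_th, ← sub_eq_zero, ← sum_sub_distrib, ← sum_coe_sort] at h1
  simp only [← sub_smul] at h1
  have h2 := te_li.comp (fun e : finsuppAntidiag (univ : Finset (Fin 3)) (∑ i, d i) =>
    (⟨e.1 2, e.1 1⟩ : Σ _ : ℕ, ℕ)) fun e e' he => by
      have a1 := (mem_finsuppAntidiag.1 e.2).1
      have a2 := (mem_finsuppAntidiag.1 e'.2).1
      simp only [Sigma.mk.injEq, heq_eq_eq, Fin.sum_univ_three] at he a1 a2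
      refine Subtype.ext (Finsupp.ext fun i => ?_)
      fin_cases i <;> simp <;> omega
  exact sub_eq_zero.1 (Fintype.linearIndependent_iff.1 h2 _ h1 ⟨d, by simp⟩)

/-- homogeneous part of the divergent series -/
def gn (n : ℕ) : PS (Fin 3) := C (n ! : ℂ) * (X 0 ^ (n - 1) * X 2 -
  ∑ j ∈ range (n + 1), C (j ! : ℂ)⁻¹ * (X 0 ^ (n - j) * X 1 ^ j))

/-- the divergent series -/
def gg : PS (Fin 3) := fun d => if d = 0 then 0 else coeff d (gn (∑ i, d i))

lemma coeff_gg (d : Fin 3 →₀ ℕ) : coeff d gg = if d = 0 then 0 else coeff d (gn (∑ i, d i)) := rfl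

instance : Z gg := ⟨by rw [cc, ← coeff_zero_eq_constantCoeff_apply, coeff_gg, if_pos rfl]⟩

lemma not_cv_gg : ¬ Cv gg := by
  intro h
  obtain ⟨r, h1, h2⟩ := cv_iff.2 h
  have h3 := (h2.comp_injective (i := fun n : ℕ => Finsupp.single 0 n + Finsupp.single 2 1)
    fun a b hab => by simpa using congrArg (fun d => d 0) hab).tendsto_atTop_zero
  have h4 := (FloorSemiring.tendsto_pow_div_factorial_atTop r⁻¹).comp (tendsto_add_atTop_nat 1)
  have h5 := h3.mul h4
  refine one_ne_zero (tendsto_nhds_unique tendsto_const_nhds ((h5.congr fun n => ?_).trans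
    (by simp)) : (1 : ℝ) = 0)
  have e : ∀ j k : ℕ, (X 0 ^ j * X 1 ^ k : PS (Fin 3)) =
      monomial (Finsupp.single 0 j + Finsupp.single 1 k) 1 := fun j k => by
    simp [X_pow_eq, monomial_mul_monomial]
  have e1 : (X 0 ^ n * X 2 : PS (Fin 3)) = monomial (Finsupp.single 0 n + Finsupp.single 2 1) 1 := by
    rw [X_pow_eq, X_def, monomial_mul_monomial, one_mul]
  have e2 : coeff (Finsupp.single 0 n + Finsupp.single 2 1) gg = ((n + 1)! : ℂ) := by
    rw [coeff_gg, if_neg fun h => by simpa using congrArg (fun d => d 2) h]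
    simp only [Fin.sum_univ_three, Finsupp.add_apply, Finsupp.single_eq_same, ne_eq, Fin.reduceEq,
      not_false_eq_true, Finsupp.single_eq_of_ne, add_zero, zero_add, gn, Nat.add_sub_cancel, e1, e,
      coeff_C_mul, map_sub, map_sum, coeff_monomial_same]
    rw [sum_eq_zero fun j _ => by
      rw [coeff_monomial_ne fun h => by simpa using congrArg (fun d => d 2) h, mul_zero]]
    simp
  have : ((n + 1)! : ℝ) ≠ 0 := by positivity
  simp only [Function.comp_apply, e2, map_add, Finsupp.degree_single, Complex.norm_natCast, inv_pow]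
  field_simp

lemma cv_of_le {G : PS (Option Unit)} (h : ∀ d, ‖coeff d G‖ ≤ 1) : Cv G := by
  refine ⟨2⁻¹, by simp, ne_top_of_le_ne_top (b := ∑' p : ℕ × ℕ, 2⁻¹ ^ p.1 * 2⁻¹ ^ p.2) ?_ ?_⟩
  · rw [ENNReal.tsum_prod']
    simp only [ENNReal.tsum_mul_left, ENNReal.tsum_mul_right, ENNReal.tsum_geometric]
    exact ENNReal.mul_ne_top (by simp) (by simp)
  · refine le_trans (ENNReal.tsum_le_tsum fun d => ?_) (ENNReal.tsum_comp_le_tsum_of_injective
      (f := fun d : Option Unit →₀ ℕ => (d none, d (some ()))) (fun a b hab => ?_) _)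
    · rw [mono, Finsupp.prod_fintype _ _ (by simp)]
      simp only [Fintype.prod_option, univ_unique, prod_singleton]
      exact mul_le_of_le_one_left' (by simpa [← ofReal_norm] using h d)
    · simp only [Prod.mk.injEq] at hab
      ext i
      cases i with
      | none => exact hab.1
      | some i => exact hab.2

instance : Cv (R some (PowerSeries.exp ℂ) : PS (Option Unit)) := cv_of_le fun d => by
  have := coeff_up (PowerSeries.exp ℂ : PS Unit) 0 d
  rw [pow_zero, mul_one] at this
  rw [this]
  split_ifs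
  · rw [Finsupp.unique_single d.some]
    change ‖PowerSeries.coeff _ (PowerSeries.exp ℂ)‖ ≤ 1
    simpa using inv_le_one_of_one_le₀ (by exact_mod_cast Nat.factorial_pos _)
  · simp

instance (i : Fin 3) : Cv (th i) := by
  fin_cases i <;> simp only [th, Fin.zero_eta, Fin.mk_one, Fin.reduceFinMk, Matrix.cons_val] <;>
    infer_instance

instance : Cv (S th gg) := cv_of_le fun d => by
  have e0 : coeff d (S th gg) = coeff d.some (cf (d none) (S th gg)) := by
    rw [coeff_cf, Finsupp.optionElim_some]
  rw [e0, cf_th]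
  rcases Nat.eq_zero_or_pos (d none) with h | h
  · simp [h, coeff_gg]
  · have e1 : S th (gn (d none)) = R some (C ((d none)! : ℂ) * (PowerSeries.exp ℂ -
        ∑ j ∈ range (d none + 1), C (j ! : ℂ)⁻¹ * PowerSeries.X ^ j)) * X none ^ d none := by
      obtain ⟨n, hn⟩ := Nat.exists_eq_add_one_of_ne_zero h.ne'
      simp only [gn, map_mul, map_sub, map_sum, map_pow, S_C, S_XZ, PowerSeries.X]
      simp only [th, Matrix.cons_val, mul_assoc, sub_mul, sum_mul]
      congr 2
      · rw [hn]; simp only [Nat.add_sub_cancel]; ring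
      · refine sum_congr rfl fun j hj => ?_
        rw [mul_pow, ← mul_assoc (X none ^ _), ← pow_add, Nat.sub_add_cancel
          (Nat.lt_succ_iff.1 (mem_range.1 hj)), mul_comm (X none ^ _)]
    rw [sum_congr rfl fun e he => by
      have := (mem_finsuppAntidiag.1 he).1
      rw [coeff_gg, if_neg (by rintro rfl; simp at this; omega), this], ← cf_th, e1, cf_up,
      if_pos rfl, Finsupp.unique_single d.some]
    change ‖PowerSeries.coeff _ (PowerSeries.C _ * (PowerSeries.exp ℂ -
      ∑ j ∈ _, PowerSeries.C _ * PowerSeries.X ^ j))‖ ≤ 1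
    simp only [PowerSeries.coeff_C_mul, map_sub, map_sum, PowerSeries.coeff_X_pow,
      PowerSeries.coeff_exp, mul_ite, mul_one, mul_zero, sum_ite_eq, mem_range]
    split_ifs with h1
    · simp
    · have h2 : d none ≤ d.some default := by omega
      generalize d.some default = k at h2
      simpa using mul_inv_le_one_of_le₀ (by exact_mod_cast Nat.factorial_le h2) (by positivity)

end

end Pool.Agent.Lib.MP_547e2f_an.Gab
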