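import Pool.Agent.Lib.MP_547e2f_an.Cubic
import Pool.Agent.Lib.MP_547e2f_an.Gab

/-!
The source and target submanifolds and the formal map of the counterexample.
-/

namespace Pool.Agent.Lib.MP_547e2f_an.Example

open St MvPowerSeries Cubic Gab Sum Finset Complex

noncomputable section

/-- graph functions of the source -/
def ph : Fin 3 → PS (Option Unit) := ![th 1, th 2, S th gg]

/-- graph functions of the target -/
def ph' : Fin 2 → PS (Option Unit) := ![X (some ()), 0]

instance (k : Fin 3) : Cv (ph k) := by fin_cases k <;> simp only [ph] <;> simp <;> infer_instance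
instance (k : Fin 3) : Z (ph k) := by fin_cases k <;> simp only [ph] <;> simp <;> infer_instance
instance (k : Fin 2) : Cv (ph' k) := by fin_cases k <;> simp only [ph'] <;> simp <;> infer_instance
instance (k : Fin 2) : Z (ph' k) := by fin_cases k <;> simp only [ph'] <;> simp <;> infer_instance

/-- the divergent component -/
def ps : PS (Fin 5) := X 4 - R (![1, 2, 3] : Fin 3 → Fin 5) gg

instance : Z ps := by unfold ps; infer_instance

lemma u0 : uu ph' 0 = X (inl 2) - (X (inr 1) + X (inl 0) * X (inl 0) * X (inr 0)) := by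
  simp [uu, ph', sg]

lemma u1 : uu ph' 1 = X (inl 3) := by simp [uu, ph']

lemma isCR : IsCR (rh ph') := fun v hv => by
  have h := tan_eq ph' (v := Sum.elim 0 v) fun i => by simpa using hv i
  have h0 := h 0
  have h1 := h 1
  simp [ph'] at h0 h1
  obtain ⟨h0, h2⟩ := h0
  refine ⟨fun a => C (v 0) * LL ph' a, ⟨fun j => by simp [LL], fun i => ?_⟩, fun j => ?_⟩
  · have : act (fun a => C (v 0) * LL ph' a) (rh ph' i) = C (v 0) * vf (LL ph') (rh ph' i) := by
      simp only [act, vf, mul_sum, mul_assoc]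
    rw [this, vf_LL, mul_zero]
    exact zero_mem _
  · fin_cases j <;> simp [LL, h0.symm, h1, h2]

lemma poly (i : Fin (2 + 2)) : ∃ p : MvPolynomial (Fin 4 ⊕ Fin 4) ℂ, rh ph' i = p := by
  have hn : ∀ p : MvPolynomial (Fin 4 ⊕ Fin 4) ℂ, ((-p : MvPolynomial _ ℂ) : Ser 4) = -(p : Ser 4) :=
    map_neg MvPolynomial.coeToMvPowerSeries.ringHom
  have h : ∀ k, ∃ p q : MvPolynomial (Fin 4 ⊕ Fin 4) ℂ, uu ph' k = p ∧ conjSer (uu ph' k) = q := by
    refine Fin.forall_fin_two.2 ⟨⟨.X (inl 2) - (.X (inr 1) + .X (inl 0) * .X (inl 0) * .X (inr 0)),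
      .X (inr 2) - (.X (inl 1) + .X (inr 0) * .X (inr 0) * .X (inl 0)), ?_⟩,
      .X (inl 3), .X (inr 3), ?_⟩ <;> simp [u0, u1, cs_X, sub_eq_add_neg, hn]
  refine rh_ind ph' (P := fun f => ∃ p : MvPolynomial (Fin 4 ⊕ Fin 4) ℂ, f = p) (fun k => ?_)
    (fun k => ?_) i <;> obtain ⟨p, q, h1, h2⟩ := h k
  · exact ⟨p + q, by rw [h2, h1, MvPolynomial.coe_add]⟩
  · exact ⟨.C I * (p - q), by rw [h2, h1]; simp [sub_eq_add_neg, hn]⟩

lemma mapsTo : MapsFormally (rh ph) (rh ph') ![0, 0, 0, ps] := by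
  have h1 : (R inl ps : Ser 5) ∈ Ideal.span (Set.range (rh ph)) := by
    have a := add_mem (uu_mem ph 2) (sub_S_mem _ gg (fun i => S (sg 3) (th i))
      (fun i => X (inl ((![1, 2, 3] : Fin 3 → Fin 5) i))) fun i => by
        fin_cases i
        · simp [th, sg]
        · simpa [uu, ph] using neg_mem (uu_mem ph 0)
        · simpa [uu, ph] using neg_mem (uu_mem ph 1))
    simpa [uu, ph, ps, S_S th, S_R] using a
  have h2 := cs_mem (defining ph) h1
  rw [cs_S] at h2
  simp only [cs_X, swap_inl] at h2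
  have h3 : ∀ i, subst (Sum.elim (fun j => (rename inl ((![0, 0, 0, ps] : Fin 4 → _) j) : Ser 5))
      fun j => rename inr (bar ((![0, 0, 0, ps] : Fin 4 → _) j))) (rh ph' i) ∈
      Ideal.span (Set.range (rh ph)) := fun i => by
    rw [← S_eq_subst fun j => by rcases j with j | j <;> fin_cases j <;> simp [R_eq, bar]]
    refine rh_ind ph' (P := fun f => S _ f ∈ _) (Fin.forall_fin_two.2 ⟨?_, ?_⟩)
      (Fin.forall_fin_two.2 ⟨?_, ?_⟩) i
    · simp [u0, cs_X, R_eq, bar]
    · simpa [u1, cs_X, R_eq, bar] using add_mem h1 h2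
    · simp [u0, cs_X, R_eq, bar]
    · simpa [u1, cs_X, R_eq, bar] using Ideal.mul_mem_left _ (C I) (sub_mem h1 h2)
  choose a ha using fun i => Ideal.mem_span_range_iff_exists_fun.mp (h3 i)
  exact ⟨a, fun i => (ha i).symm⟩

lemma last_zero {y : Fin 4 → ℂ} (h : y ∈ zeroSet (rh ph')) : y 3 = 0 := by
  have hX : ∀ (p : Fin 4 ⊕ Fin 4 → ℂ) a, (X a : Ser 4) ∈ B p := fun p a =>
    (nrm_X _ _).trans_ne enorm_ne_top
  have h1 := h (Fin.castAdd 2 1)
  have h2 := h (Fin.natAdd 2 1)
  simp only [rh, Fin.append_left, Fin.append_right, u1, cs_X, swap_inl] at h1 h2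
  rw [value_add (hX _ _) (hX _ _), value_X, value_X] at h1
  rw [value_mul ((nrm_C _ _).trans_ne enorm_ne_top) (sub_mem (hX _ _) (hX _ _)), value_C,
    show value (X _ - X _) _ = value (X _) _ - value (X _) _ from
      map_sub (ev _) ⟨_, hX _ _⟩ ⟨_, hX _ _⟩, value_X, value_X] at h2
  simp only [elim_inl, elim_inr, mul_eq_zero, I_ne_zero, false_or] at h1 h2
  linear_combination (h1 + h2) / 2

lemma no_conv (G : PS (Fin 5)) [Cv G] [Z G] (h1 : cc (pd 4 G) = 1) (h2 : S (par ph) G = 0) :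
    False := by
  let e : Fin 5 → PS (Fin 3 ⊕ Unit) := ![0, X (inl 0), X (inl 1), X (inl 2), X (inr ())]
  have : ∀ j, Cv (e j) := fun j => by fin_cases j <;> simp only [e] <;> simp <;> infer_instance
  have : ∀ j, Z (e j) := fun j => by fin_cases j <;> simp only [e] <;> simp <;> infer_instance
  have hd : (Matrix.of fun (_ : Unit) j => cc (pd (inr j) (S e G))).det ≠ 0 := by
    simp [pd_S, Fin.sum_univ_five, e, h1]
  obtain ⟨u, _, a1, a2⟩ := ift (fun _ => S e G) hd
  have a3 := ift_unique (fun _ => S e G) hd th (fun i => S th (u i)) (fun _ => S th gg) fun i => by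
    have := congrArg (S th) (a1 i)
    rw [S_elim, map_zero] at this
    simp only [S_XZ] at this
    rw [this, S_S e, ← h2]
    exact S_congr (fun j => by fin_cases j <;> simp [e, par, ph, th]) G
  exact not_cv_gg (th_inj (congrFun a3 ()) ▸ a2 inferInstance ())

end

end Pool.Agent.Lib.MP_547e2f_an.Example
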