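import Mathlib

-- part Pool.Agent.Lib.MP_547e2f_an.Basic
section

/-!
Formal power series over the complex numbers: substitution, continuity, chain rule.
-/

namespace Pool.Agent.Lib.MP_547e2f_an

open MvPowerSeries Finset
open scoped MvPowerSeries.WithPiTopology

noncomputable section

abbrev PS (σ : Type) : Type := MvPowerSeries σ ℂ

abbrev cc {σ : Type} (f : PS σ) : ℂ := constantCoeff f

abbrev pd {σ : Type} (i : σ) : Derivation ℂ (PS σ) (PS σ) := pderiv ℂ i

variable {σ τ υ : Type}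

lemma hasSubst0 [Finite σ] (a : σ → PS τ) : HasSubst fun i => a i - C (cc (a i)) :=
  hasSubst_of_constantCoeff_zero fun i => by simp

/-- substitution (constant terms of the substituted series are dropped) -/
def S [Finite σ] (a : σ → PS τ) : PS σ →ₐ[ℂ] PS τ := substAlgHom (hasSubst0 a)

variable [Finite σ]

lemma S_def (a : σ → PS τ) (f : PS σ) : S a f = subst (fun i => a i - C (cc (a i))) f := by
  simp [S]

lemma S_eq_subst {a : σ → PS τ} (h : ∀ i, cc (a i) = 0) (f : PS σ) : S a f = subst a f := by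
  rw [S_def]; simp [h]

lemma S_X' (a : σ → PS τ) (i : σ) : S a (X i) = a i - C (cc (a i)) := by
  rw [S_def, subst_X (hasSubst0 a)]

@[simp] lemma S_X {a : σ → PS τ} {i : σ} (h : cc (a i) = 0) : S a (X i) = a i := by
  rw [S_X', h]; simp

@[simp] lemma S_C (a : σ → PS τ) (c : ℂ) : S a (C c) = C c := by
  rw [S_def, subst_C]

lemma exists_fin (a : σ → PS τ) (e : τ →₀ ℕ) : ∃ s : Finset (σ →₀ ℕ), ∀ f : PS σ,
    coeff e (S a f) = ∑ d ∈ s, coeff d f *
      coeff e (d.prod fun i k => (a i - C (cc (a i))) ^ k) := by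
  have h := coeff_subst_finite (R := ℂ) (hasSubst0 a) (fun _ => 1) e
  refine ⟨h.toFinset, fun f => ?_⟩
  rw [S_def, coeff_subst (hasSubst0 a), finsum_eq_sum_of_support_subset]
  · rfl
  · intro d hd
    simp only [Set.Finite.coe_toFinset, Function.mem_support, smul_eq_mul, ne_eq, mul_eq_zero,
      not_or] at hd ⊢
    exact ⟨one_ne_zero, hd.2⟩

omit [Finite σ] in
lemma cont_iff {T : Type*} [TopologicalSpace T] {L : T → PS σ} :
    Continuous L ↔ ∀ d, Continuous fun t => coeff d (L t) := continuous_pi_iff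

omit [Finite σ] in
@[fun_prop] lemma cont_coeff (d : σ →₀ ℕ) : Continuous fun f : PS σ => coeff d f :=
  WithPiTopology.continuous_coeff ℂ d

@[fun_prop] lemma cont_S (a : σ → PS τ) : Continuous fun f => S a f := by
  refine cont_iff.mpr fun e => ?_
  obtain ⟨s, hs⟩ := exists_fin a e
  simp only [hs]
  fun_prop

omit [Finite σ] in
@[fun_prop] lemma cont_pd (i : σ) : Continuous fun f : PS σ => pd i f := by
  refine cont_iff.mpr fun e => ?_
  simp only [coeff_pderiv]
  fun_prop

omit [Finite σ] in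
@[fun_prop] lemma cont_cc : Continuous fun f : PS σ => cc f :=
  WithPiTopology.continuous_constantCoeff ℂ

omit [Finite σ] in
lemma ind {P : PS σ → Prop} (hc : IsClosed {f | P f}) (hC : ∀ c, P (C c))
    (hadd : ∀ f g, P f → P g → P (f + g)) (hX : ∀ f i, P f → P (f * X i)) (f : PS σ) : P f := by
  refine WithPiTopology.denseRange_toMvPowerSeries.induction_on f hc fun p => ?_
  induction p using MvPolynomial.induction_on with
  | C a => simpa using hC a
  | add p q hp hq => simpa using hadd _ _ hp hq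
  | mul_X p i hp => simpa using hX _ i hp

omit [Finite σ] in
lemma ind_mono {P : PS σ → Prop} (hc : IsClosed {f | P f})
    (hadd : ∀ f g, P f → P g → P (f + g)) (hm : ∀ d c, P (monomial d c)) (f : PS σ) : P f := by
  refine WithPiTopology.denseRange_toMvPowerSeries.induction_on f hc fun p => ?_
  induction p using MvPolynomial.induction_on' with
  | monomial d a => simpa using hm d a
  | add p q hp hq => simpa using hadd _ _ hp hq

@[simp] lemma cc_S (a : σ → PS τ) (f : PS σ) : constantCoeff (S a f) = cc f := by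
  refine ind (P := fun f => cc (S a f) = cc f) (isClosed_eq (by fun_prop) (by fun_prop))
    (by simp) (fun f g hf hg => by simp [hf, hg]) (fun f i hf => by simp [S_X']) f

lemma S_S [Finite τ] (a : σ → PS τ) (b : τ → PS υ) (f : PS σ) :
    S b (S a f) = S (fun i => S b (a i)) f := by
  refine ind (P := fun f => S b (S a f) = S (fun i => S b (a i)) f)
    (isClosed_eq (by fun_prop) (by fun_prop)) (by simp) (fun f g hf hg => by simp [hf, hg])
    (fun f i hf => by simp only [map_mul, hf, S_X', map_sub, S_C, cc_S]) f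

@[simp] lemma S_id (f : PS σ) : S X f = f := by
  rw [S_eq_subst (by simp), subst_self]; rfl

@[simp] lemma S_id' (f : PS σ) : S (fun i => X i) f = f := S_id f

lemma S_congr {a b : σ → PS τ} (h : ∀ i, a i = b i) (f : PS σ) : S a f = S b f := by
  rw [funext h]

lemma S_eq_self {a : σ → PS σ} (h : ∀ i, a i = X i) (f : PS σ) : S a f = f := by
  rw [S_congr h, S_id']

@[simp] lemma S_zero (f : PS σ) : S (fun _ => (0 : PS τ)) f = C (cc f) := by
  refine ind (P := fun f => S (fun _ => (0 : PS τ)) f = C (cc f))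
    (isClosed_eq (by fun_prop) (WithPiTopology.continuous_C.comp cont_cc)) (by simp)
    (fun f g hf hg => by simp [hf, hg]) (fun f i hf => by simp) f

omit [Finite σ] in
lemma pd_X [DecidableEq σ] (i j : σ) : pd i (X j : PS σ) = if j = i then 1 else 0 := by
  split_ifs with h
  · rw [h, pderiv_X_self]
  · exact pderiv_X_of_ne h

omit [Finite σ] in
lemma pd_mul (i : σ) (f g : PS σ) : pd i (f * g) = f * pd i g + g * pd i f := by
  simp [Derivation.leibniz]

/-- chain rule -/
lemma pd_S [Fintype σ] (a : σ → PS τ) (j : τ) (f : PS σ) :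
    pd j (S a f) = ∑ i, S a (pd i f) * pd j (a i) := by
  classical
  refine ind (P := fun f => pd j (S a f) = ∑ i, S a (pd i f) * pd j (a i))
    (isClosed_eq (by fun_prop) (by fun_prop)) (by simp)
    (fun f g hf hg => by simp [hf, hg, add_mul, sum_add_distrib]) (fun f k hf => ?_) f
  simp only [map_mul, pd_mul, hf, map_add, pd_X, add_mul, sum_add_distrib, mul_sum, mul_assoc]
  congr 1
  rw [sum_eq_single k (fun b _ hb => by simp [hb.symm]) (by simp)]
  simp [S_X']

omit [Finite σ] in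
lemma pd_comm (i j : σ) (f : PS σ) : pd i (pd j f) = pd j (pd i f) := by
  classical
  ext d
  simp only [coeff_pderiv, add_right_comm d (Finsupp.single i 1), Finsupp.add_apply,
    Finsupp.single_apply]
  by_cases h : i = j
  · rw [h]
  · simp only [if_neg h, if_neg (Ne.symm h), add_zero]; ring

/-- the derivative of a series that does not involve a variable -/
lemma pd_S_zero (a : σ → PS τ) (j : τ) (h : ∀ i, pd j (a i) = 0) (f : PS σ) :
    pd j (S a f) = 0 := by
  have := Fintype.ofFinite σ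
  simp [pd_S, h]

lemma pd_S_single (a : σ → PS τ) (j : τ) (k : σ) (h : ∀ i, i ≠ k → pd j (a i) = 0)
    (hk : pd j (a k) = 1) (f : PS σ) : pd j (S a f) = S a (pd k f) := by
  have := Fintype.ofFinite σ
  rw [pd_S, sum_eq_single k (fun b _ hb => by simp [h b hb]) (by simp), hk, mul_one]

/-- renaming variables -/
abbrev R (e : σ → τ) : PS σ →ₐ[ℂ] PS τ := S fun i => X (e i)

lemma S_R [Finite τ] (e : σ → τ) (b : τ → PS υ) (f : PS σ) :
    S b (R e f) = S (fun i => b (e i)) f := by
  rw [S_S, S_def, S_def]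
  congr 1
  funext i
  simp [S_X']

end

end Pool.Agent.Lib.MP_547e2f_an
end

-- part Pool.Agent.Lib.MP_547e2f_an.Conv
section

/-!
Weighted norms, convergent power series, filtrations and a fixed point principle.
-/

namespace Pool.Agent.Lib.MP_547e2f_an

open MvPowerSeries Finset Filter Topology
open scoped ENNReal

noncomputable section

variable {σ τ υ ι : Type}

/-- series without constant term -/
class Z (f : PS σ) : Prop where
  out : cc f = 0

@[simp] lemma Z.cc_eq (f : PS σ) [h : Z f] : constantCoeff f = 0 := h.out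

instance (i : σ) : Z (X i : PS σ) := ⟨by simp⟩
instance : Z (0 : PS σ) := ⟨by simp⟩
instance (f g : PS σ) [Z f] [Z g] : Z (f + g) := ⟨by simp⟩
instance (f g : PS σ) [Z f] [Z g] : Z (f - g) := ⟨by simp⟩
instance (f : PS σ) [Z f] : Z (-f) := ⟨by simp⟩
instance (f g : PS σ) [Z f] : Z (f * g) := ⟨by simp⟩
instance (f g : PS σ) [Z g] : Z (f * g) := ⟨by simp⟩
instance (f : PS σ) : Z (f - C (cc f)) := ⟨by simp⟩
instance [Finite σ] (a : σ → PS τ) (f : PS σ) [Z f] : Z (S a f) := ⟨by simp⟩
instance {α : Type} (s : Finset α) (f : α → PS σ) [∀ i, Z (f i)] : Z (∑ i ∈ s, f i) := ⟨by simp⟩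
instance {α β : Type} (a : α → PS σ) (b : β → PS σ) [∀ i, Z (a i)] [∀ i, Z (b i)] (i : α ⊕ β) :
    Z (Sum.elim a b i) := by cases i <;> simp only [Sum.elim_inl, Sum.elim_inr] <;> infer_instance
instance {α : Type} (a : PS σ) (b : α → PS σ) [Z a] [∀ i, Z (b i)] (i : Option α) :
    Z (i.elim a b) := by cases i <;> simp only [Option.elim] <;> infer_instance
instance (p : Prop) [Decidable p] (f g : PS σ) [Z f] [Z g] : Z (if p then f else g) := by
  split_ifs <;> infer_instance

def mono (r : σ → ℝ≥0∞) (d : σ →₀ ℕ) : ℝ≥0∞ := d.prod fun i k => r i ^ k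

lemma mono_add (r : σ → ℝ≥0∞) (d e : σ →₀ ℕ) : mono r (d + e) = mono r d * mono r e :=
  Finsupp.prod_add_index' (by simp) fun _ _ _ => pow_add _ _ _

@[simp] lemma mono_zero (r : σ → ℝ≥0∞) : mono r 0 = 1 := Finsupp.prod_zero_index

@[simp] lemma mono_single (r : σ → ℝ≥0∞) (i : σ) (k : ℕ) :
    mono r (Finsupp.single i k) = r i ^ k := Finsupp.prod_single_index (by simp)

lemma mono_le {r r' : σ → ℝ≥0∞} (h : ∀ i, r i ≤ r' i) (d : σ →₀ ℕ) : mono r d ≤ mono r' d :=
  prod_le_prod' fun i _ => pow_le_pow_left' (h i) _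

lemma mono_scale (w : σ → ℕ) (θ : ℝ≥0∞) (r : σ → ℝ≥0∞) (d : σ →₀ ℕ) :
    mono (fun i => θ ^ w i * r i) d = θ ^ Finsupp.weight w d * mono r d := by
  simp only [mono, Finsupp.prod, mul_pow, prod_mul_distrib, ← pow_mul, prod_pow_eq_pow_sum,
    Finsupp.weight_apply, Finsupp.sum, smul_eq_mul, mul_comm]

/-- weighted norm -/
def nrm (r : σ → ℝ≥0∞) (f : PS σ) : ℝ≥0∞ := ∑' d, ‖coeff d f‖ₑ * mono r d

lemma nrm_mono {r r' : σ → ℝ≥0∞} (h : ∀ i, r i ≤ r' i) (f : PS σ) : nrm r f ≤ nrm r' f :=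
  ENNReal.tsum_le_tsum fun d => mul_le_mul_right (mono_le h d) _

lemma nrm_le_of_coeff (r : σ → ℝ≥0∞) {f g : PS σ} (h : ∀ d, ‖coeff d f‖ₑ ≤ ‖coeff d g‖ₑ) :
    nrm r f ≤ nrm r g := ENNReal.tsum_le_tsum fun d => mul_le_mul_left (h d) _

lemma nrm_add (r : σ → ℝ≥0∞) (f g : PS σ) : nrm r (f + g) ≤ nrm r f + nrm r g := by
  rw [nrm, nrm, nrm, ← ENNReal.tsum_add]
  refine ENNReal.tsum_le_tsum fun d => ?_
  rw [← add_mul, map_add]
  exact mul_le_mul_left (enorm_add_le _ _) _

lemma nrm_neg (r : σ → ℝ≥0∞) (f : PS σ) : nrm r (-f) = nrm r f := by simp [nrm]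

lemma nrm_sub (r : σ → ℝ≥0∞) (f g : PS σ) : nrm r (f - g) ≤ nrm r f + nrm r g := by
  rw [sub_eq_add_neg, ← nrm_neg r g]; exact nrm_add _ _ _

lemma nrm_monomial (r : σ → ℝ≥0∞) (d : σ →₀ ℕ) (c : ℂ) :
    nrm r (monomial d c) = ‖c‖ₑ * mono r d := by
  rw [nrm, tsum_eq_single d fun e he => by simp [coeff_monomial_ne he], coeff_monomial_same]

lemma nrm_C (r : σ → ℝ≥0∞) (c : ℂ) : nrm r (C c) = ‖c‖ₑ := by
  rw [← monomial_zero_eq_C_apply, nrm_monomial]; simp

lemma nrm_X (r : σ → ℝ≥0∞) (i : σ) : nrm r (X i) = r i := by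
  rw [X_def, nrm_monomial]; simp

lemma nrm_mul (r : σ → ℝ≥0∞) (f g : PS σ) : nrm r (f * g) ≤ nrm r f * nrm r g := by
  classical
  have h : nrm r f * nrm r g = ∑' p : (σ →₀ ℕ) × (σ →₀ ℕ),
      (‖coeff p.1 f‖ₑ * mono r p.1) * (‖coeff p.2 g‖ₑ * mono r p.2) := by
    rw [ENNReal.tsum_prod', nrm, ← ENNReal.tsum_mul_right]
    simp only [nrm, ENNReal.tsum_mul_left]
  rw [h, ← HasAntidiagonal.sigmaAntidiagonalEquivProd.tsum_eq, ENNReal.tsum_sigma']
  refine ENNReal.tsum_le_tsum fun d => ?_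
  rw [tsum_fintype, coeff_mul]
  refine (mul_le_mul_left (enorm_sum_le _ _) _).trans ?_
  rw [sum_mul, ← sum_coe_sort]
  refine sum_le_sum fun p _ => le_of_eq ?_
  have := (congrArg (mono r) (mem_antidiagonal.mp p.2)).symm.trans (mono_add _ _ _)
  simp only [HasAntidiagonal.sigmaAntidiagonalEquivProd_apply, enorm_mul]
  rw [this]; ring

lemma nrm_prod {α : Type} (r : σ → ℝ≥0∞) (s : Finset α) (f : α → PS σ) :
    nrm r (∏ i ∈ s, f i) ≤ ∏ i ∈ s, nrm r (f i) := by
  classical
  induction s using Finset.induction_on with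
  | empty => simpa using (nrm_C r 1).le
  | insert a s ha ih =>
    rw [prod_insert ha, prod_insert ha]
    exact (nrm_mul _ _ _).trans (mul_le_mul_right ih _)

lemma nrm_pow (r : σ → ℝ≥0∞) (f : PS σ) (k : ℕ) : nrm r (f ^ k) ≤ nrm r f ^ k := by
  simpa using nrm_prod r (range k) fun _ => f

lemma nrm_sum {α : Type} (r : σ → ℝ≥0∞) (s : Finset α) (f : α → PS σ) :
    nrm r (∑ i ∈ s, f i) ≤ ∑ i ∈ s, nrm r (f i) := by
  classical
  induction s using Finset.induction_on with
  | empty => simp [nrm]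
  | insert a s ha ih =>
    rw [sum_insert ha, sum_insert ha]
    exact (nrm_add _ _ _).trans (add_le_add_right ih _)

lemma nrm_sub_cc (r : σ → ℝ≥0∞) (f : PS σ) : nrm r (f - C (cc f)) ≤ nrm r f := by
  classical
  refine nrm_le_of_coeff r fun d => ?_
  by_cases h : d = 0
  · simp [h]
  · simp [coeff_C, h]

lemma nrm_S [Finite σ] {r : τ → ℝ≥0∞} {ρ : σ → ℝ≥0∞} {a : σ → PS τ} (h : ∀ i, nrm r (a i) ≤ ρ i)
    (f : PS σ) : nrm r (S a f) ≤ nrm ρ f := by
  calc nrm r (S a f) ≤ ∑' e, ∑' d, ‖coeff d f‖ₑ * (‖coeff e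
        (d.prod fun i k => (a i - C (cc (a i))) ^ k)‖ₑ * mono r e) := by
        refine ENNReal.tsum_le_tsum fun e => ?_
        obtain ⟨s, hs⟩ := exists_fin a e
        rw [hs]
        refine (mul_le_mul_left (enorm_sum_le _ _) _).trans ?_
        rw [sum_mul]
        simp only [enorm_mul, mul_assoc]
        exact ENNReal.sum_le_tsum s
    _ ≤ _ := by
        rw [ENNReal.tsum_comm]
        refine ENNReal.tsum_le_tsum fun d => ?_
        rw [ENNReal.tsum_mul_left]
        refine mul_le_mul_right ((nrm_prod r _ _).trans (prod_le_prod' fun i _ => ?_)) _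
        exact (nrm_pow _ _ _).trans (pow_le_pow_left' ((nrm_sub_cc _ _).trans (h i)) _)

lemma nrm_reindex {r : σ → ℝ≥0∞} {r' : τ → ℝ≥0∞} {f : PS σ} {g : PS τ} {m M : ℝ≥0∞}
    (k : (τ →₀ ℕ) → (σ →₀ ℕ)) (hk : Function.Injective k)
    (h : ∀ d, ‖coeff d g‖ₑ * mono r' d * m ≤ ‖coeff (k d) f‖ₑ * mono r (k d) * M) :
    nrm r' g * m ≤ nrm r f * M := by
  rw [nrm, ← ENNReal.tsum_mul_right]
  refine (ENNReal.tsum_le_tsum h).trans ?_
  rw [ENNReal.tsum_mul_right]
  exact mul_le_mul_left (ENNReal.tsum_comp_le_tsum_of_injective hk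
    fun d => ‖coeff d f‖ₑ * mono r d) _

/-- the filtration by a weight -/
def Fil (w : σ → ℕ) (k : ℕ) : Ideal (PS σ) where
  carrier := {f | ∀ d, Finsupp.weight w d < k → coeff d f = 0}
  add_mem' hf hg d hd := by simp [hf d hd, hg d hd]
  zero_mem' d _ := by simp
  smul_mem' c f hf d hd := by
    classical
    rw [smul_eq_mul, coeff_mul]
    refine sum_eq_zero fun p hp => ?_
    rw [← mem_antidiagonal.mp hp, map_add] at hd
    rw [hf _ (by omega), mul_zero]

lemma mem_Fil {w : σ → ℕ} {k : ℕ} {f : PS σ} :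
    f ∈ Fil w k ↔ ∀ d, Finsupp.weight w d < k → coeff d f = 0 := Iff.rfl

lemma Fil_mul {w : σ → ℕ} {k l : ℕ} {f g : PS σ} (hf : f ∈ Fil w k) (hg : g ∈ Fil w l) :
    f * g ∈ Fil w (k + l) := by
  classical
  intro d hd
  rw [coeff_mul]
  refine sum_eq_zero fun p hp => ?_
  rw [← mem_antidiagonal.mp hp, map_add] at hd
  by_cases h : Finsupp.weight w p.1 < k
  · rw [hf _ h, zero_mul]
  · rw [hg _ (by omega), mul_zero]

lemma Fil_mono {w : σ → ℕ} {k l : ℕ} (h : k ≤ l) {f : PS σ} (hf : f ∈ Fil w l) : f ∈ Fil w k :=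
  fun d hd => hf d (by omega)

lemma eq_zero_of_Fil {w : σ → ℕ} {f : PS σ} (h : ∀ k, f ∈ Fil w k) : f = 0 :=
  MvPowerSeries.ext fun d => h _ d (Nat.lt_succ_self _)

lemma mem_Fil_one (f : PS σ) [Z f] : f ∈ Fil (fun _ => 1) 1 := by
  intro d hd
  have : d = 0 := by
    rw [← Finsupp.degree_eq_zero_iff, Finsupp.degree_eq_weight_one]
    exact Nat.lt_one_iff.mp hd
  simp [this]

lemma nrm_scale {w : σ → ℕ} {k : ℕ} {f : PS σ} (hf : f ∈ Fil w k) {θ : ℝ≥0∞} (hθ : θ ≤ 1)
    (r : σ → ℝ≥0∞) : nrm (fun i => θ ^ w i * r i) f ≤ θ ^ k * nrm r f := by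
  rw [nrm, nrm, ← ENNReal.tsum_mul_left]
  refine ENNReal.tsum_le_tsum fun d => ?_
  by_cases h : Finsupp.weight w d < k
  · simp [hf d h]
  · rw [mono_scale, mul_left_comm]
    exact mul_le_mul_left (pow_le_pow_right_of_le_one' hθ (not_lt.mp h)) _

/-- fixed points of formal contractions -/
lemma fixpt (w : σ → ℕ) (T : (ι → PS σ) → (ι → PS σ))
    (hT : ∀ k u v, (∀ i, u i - v i ∈ Fil w k) → ∀ i, T u i - T v i ∈ Fil w (k + 1)) :
    ∃ u, T u = u ∧ ∀ (r : σ → ℝ≥0∞) (M : ι → ℝ≥0∞),
      (∀ v, (∀ i, nrm r (v i) ≤ M i) → ∀ i, nrm r (T v i) ≤ M i) → ∀ i, nrm r (u i) ≤ M i := by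
  have h1 : ∀ k j i, T^[k + j] 0 i - T^[k] 0 i ∈ Fil w k := by
    intro k j
    induction k with
    | zero => exact fun i d hd => absurd hd (Nat.not_lt_zero _)
    | succ k ih =>
      rw [add_right_comm, Function.iterate_succ_apply', Function.iterate_succ_apply']
      exact hT k _ _ ih
  set u : ι → PS σ := fun i d => coeff d (T^[Finsupp.weight w d + 1] 0 i) with hu
  have h2 : ∀ k i d, Finsupp.weight w d < k → coeff d (u i) = coeff d (T^[k] 0 i) := by
    intro k i d hd
    obtain ⟨j, rfl⟩ := Nat.exists_eq_add_of_le (Nat.succ_le_of_lt hd)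
    have := h1 _ j i d (Nat.lt_succ_self _)
    rw [map_sub, sub_eq_zero] at this
    exact this.symm
  refine ⟨u, funext fun i => MvPowerSeries.ext fun d => ?_, fun r M hM i => ?_⟩
  · have := hT (Finsupp.weight w d) u (T^[Finsupp.weight w d] 0)
      (fun i e he => by rw [map_sub, h2 _ i e he, sub_self]) i d (Nat.lt_succ_self _)
    rw [map_sub, sub_eq_zero, ← Function.iterate_succ_apply' T] at this
    exact this
  · have h3 : ∀ k i, nrm r (T^[k] 0 i) ≤ M i := by
      intro k
      induction k with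
      | zero => intro i; simp [nrm]
      | succ k ih => rw [Function.iterate_succ_apply']; exact hM _ ih
    rw [nrm, ENNReal.tsum_eq_iSup_sum]
    refine iSup_le fun s => le_trans ?_ (h3 (s.sup (Finsupp.weight w) + 1) i)
    rw [sum_congr rfl fun d hd => by
      rw [h2 _ i d (Nat.lt_succ_of_le (le_sup (f := Finsupp.weight w) hd))]]
    exact ENNReal.sum_le_tsum s

/-- convergent series -/
class Cv (f : PS σ) : Prop where
  out : ∃ r : ℝ≥0∞, r ≠ 0 ∧ nrm (fun _ => r) f ≠ ∞

abbrev sm : Filter ℝ≥0∞ := 𝓝[>] 0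

lemma ev_le {r : ℝ≥0∞} (hr : r ≠ 0) : ∀ᶠ t in sm, t ≤ r :=
  nhdsWithin_le_nhds (Iic_mem_nhds (pos_iff_ne_zero.mpr hr))

lemma ev_ne : ∀ᶠ t in sm, t ≠ 0 ∧ t ≠ ∞ ∧ t ≤ 1 := by
  filter_upwards [self_mem_nhdsWithin, ev_le one_ne_zero] with t h1 h2
  exact ⟨ne_of_gt h1, ne_top_of_le_ne_top ENNReal.one_ne_top h2, h2⟩

lemma ev_mul_le {M r : ℝ≥0∞} (hM : M ≠ ∞) (hr : r ≠ 0) : ∀ᶠ t in sm, t * M ≤ r := by
  filter_upwards [ev_le (r := r / M) (by simp [hM, hr])] with t ht
  exact (mul_le_mul_left ht _).trans (mul_comm M _ ▸ ENNReal.mul_div_le)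

lemma Cv.ev (f : PS σ) [h : Cv f] : ∀ᶠ t in sm, nrm (fun _ => t) f ≠ ∞ := by
  obtain ⟨r, h1, h2⟩ := h.out
  filter_upwards [ev_le h1] with t ht
  exact ne_top_of_le_ne_top h2 (nrm_mono (fun _ => ht) f)

lemma Cv.of_ev {f : PS σ} (h : ∀ᶠ t in sm, nrm (fun _ => t) f ≠ ∞) : Cv f := by
  obtain ⟨t, h1, h2⟩ := (ev_ne.and h).exists
  exact ⟨t, h1.1, h2⟩

lemma Cv.of_poly [Finite σ] {f : PS σ} {r : σ → ℝ≥0∞} (hr : ∀ i, r i ≠ 0) (h : nrm r f ≠ ∞) :
    Cv f := by
  refine .of_ev ?_
  filter_upwards [eventually_all.mpr fun i => ev_le (hr i)] with t ht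
  exact ne_top_of_le_ne_top h (nrm_mono ht f)

lemma Cv.small (f : PS σ) [Cv f] [Z f] {ρ : ℝ≥0∞} (hρ : ρ ≠ 0) :
    ∀ᶠ t in sm, nrm (fun _ => t) f ≤ ρ := by
  obtain ⟨r, h1, h2⟩ := (ev_ne.and (Cv.ev f)).exists
  obtain ⟨θ, h3, h4⟩ := (ev_ne.and (ev_mul_le h2 hρ)).exists
  filter_upwards [ev_le (mul_ne_zero h3.1 h1.1)] with t ht
  refine (nrm_mono (r' := fun _ => θ ^ 1 * r) (fun _ => by simpa using ht) f).trans ?_
  refine (nrm_scale (mem_Fil_one f) h3.2.2 fun _ => r).trans ?_
  simpa using h4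

instance (f g : PS σ) [Cv f] [Cv g] : Cv (f + g) := .of_ev <| by
  filter_upwards [Cv.ev f, Cv.ev g] with t h1 h2
  exact ne_top_of_le_ne_top (ENNReal.add_ne_top.mpr ⟨h1, h2⟩) (nrm_add _ _ _)

instance (f g : PS σ) [Cv f] [Cv g] : Cv (f * g) := .of_ev <| by
  filter_upwards [Cv.ev f, Cv.ev g] with t h1 h2
  exact ne_top_of_le_ne_top (ENNReal.mul_ne_top h1 h2) (nrm_mul _ _ _)

instance (f : PS σ) [Cv f] : Cv (-f) := .of_ev <| by simpa only [nrm_neg] using Cv.ev f

instance (f g : PS σ) [Cv f] [Cv g] : Cv (f - g) := by rw [sub_eq_add_neg]; infer_instance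

instance (c : ℂ) : Cv (C c : PS σ) := ⟨1, one_ne_zero, by simp [nrm_C]⟩
instance (i : σ) : Cv (X i : PS σ) := ⟨1, one_ne_zero, by simp [nrm_X]⟩
instance : Cv (0 : PS σ) := ⟨1, one_ne_zero, by simp [nrm]⟩
instance : Cv (1 : PS σ) := by rw [← map_one C]; infer_instance

instance (f : PS σ) [Cv f] (k : ℕ) : Cv (f ^ k) := by
  induction k with
  | zero => rw [pow_zero]; infer_instance
  | succ k ih => rw [pow_succ]; infer_instance

instance {α : Type} (s : Finset α) (f : α → PS σ) [∀ i, Cv (f i)] : Cv (∑ i ∈ s, f i) :=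
  sum_induction f Cv (fun _ _ _ _ => inferInstance) inferInstance fun _ _ => inferInstance

instance {α : Type} (s : Finset α) (f : α → PS σ) [∀ i, Cv (f i)] : Cv (∏ i ∈ s, f i) :=
  prod_induction f Cv (fun _ _ _ _ => inferInstance) inferInstance fun _ _ => inferInstance

instance {α β : Type} (a : α → PS σ) (b : β → PS σ) [∀ i, Cv (a i)] [∀ i, Cv (b i)] (i : α ⊕ β) :
    Cv (Sum.elim a b i) := by cases i <;> simp only [Sum.elim_inl, Sum.elim_inr] <;> infer_instance

instance {α : Type} (a : PS σ) (b : α → PS σ) [Cv a] [∀ i, Cv (b i)] (i : Option α) :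
    Cv (i.elim a b) := by cases i <;> simp only [Option.elim] <;> infer_instance

instance (p : Prop) [Decidable p] (f g : PS σ) [Cv f] [Cv g] : Cv (if p then f else g) := by
  split_ifs <;> infer_instance

instance [Finite σ] (a : σ → PS τ) (f : PS σ) [∀ i, Cv (a i)] [h : Cv f] : Cv (S a f) := by
  obtain ⟨ρ, h1, h2⟩ := h.out
  refine .of_ev ?_
  filter_upwards [eventually_all.mpr fun i => Cv.small (a i - C (cc (a i))) h1] with t ht
  rw [show S a f = S (fun i => a i - C (cc (a i))) f by simp [S_def]]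
  exact ne_top_of_le_ne_top h2 (nrm_S ht f)

instance {κ : Type} [Fintype κ] [DecidableEq κ] (M : Matrix κ κ (PS σ)) [∀ i j, Cv (M i j)] :
    Cv M.det := by
  rw [Matrix.det_apply']
  have : ∀ c : ℤ, Cv (c : PS σ) := fun c => by rw [← map_intCast (C : ℂ →+* PS σ)]; infer_instance
  infer_instance

instance {κ : Type} [Fintype κ] [DecidableEq κ] (M : Matrix κ κ (PS σ)) [∀ i j, Cv (M i j)]
    (i j : κ) : Cv (M.adjugate i j) := by
  rw [Matrix.adjugate_apply]
  have : ∀ k l, Cv (M.updateRow j (Pi.single i 1) k l) := fun k l => by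
    rw [Matrix.updateRow_apply, Pi.single_apply]; infer_instance
  infer_instance

instance (p : MvPolynomial σ ℂ) : Cv (p : PS σ) := by
  induction p using MvPolynomial.induction_on with
  | C a => rw [MvPolynomial.coe_C]; infer_instance
  | add p q hp hq => rw [MvPolynomial.coe_add]; infer_instance
  | mul_X p i hp => rw [MvPolynomial.coe_mul, MvPolynomial.coe_X]; infer_instance

lemma Cv.of_reindex [Finite τ] {f : PS σ} [Cv f] {g : PS τ} (k : (τ →₀ ℕ) → (σ →₀ ℕ))
    (hk : Function.Injective k) (hg : ∀ d, coeff d g = coeff (k d) f ∨ coeff d g = 0)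
    (h : ∀ t : ℝ≥0∞, t ≠ 0 → t ≠ ∞ → ∃ (r' : τ → ℝ≥0∞) (m M : ℝ≥0∞), (∀ i, r' i ≠ 0) ∧ m ≠ 0 ∧
      M ≠ ∞ ∧ ∀ d, coeff d g ≠ 0 → mono r' d * m ≤ mono (fun _ => t) (k d) * M) : Cv g := by
  obtain ⟨t, h1, h2⟩ := (ev_ne.and (Cv.ev f)).exists
  obtain ⟨r', m, M, h3, h4, h5, h6⟩ := h t h1.1 h1.2.1
  refine .of_poly h3 fun h7 => ?_
  have := nrm_reindex (r := fun _ => t) (r' := r') (f := f) (g := g) (m := m) (M := M) k hk
    fun d => by
      by_cases h8 : coeff d g = 0
      · simp [h8]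
      · rw [← (hg d).resolve_right h8, mul_assoc, mul_assoc]
        exact mul_le_mul_right (h6 d h8) _
  rw [h7, ENNReal.top_mul h4, top_le_iff] at this
  exact ENNReal.mul_ne_top h2 h5 this

end

end Pool.Agent.Lib.MP_547e2f_an
end

-- part Pool.Agent.Lib.MP_547e2f_an.Taylor
section

/-!
Taylor expansions and the implicit function theorem for formal and convergent series.
-/

namespace Pool.Agent.Lib.MP_547e2f_an

open MvPowerSeries Finset Filter Topology Sum
open scoped ENNReal MvPowerSeries.WithPiTopology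

noncomputable section

variable {σ τ υ ι α β ξ κ : Type}

@[simp] lemma S_XZ [Finite σ] (a : σ → PS τ) (i : σ) [Z (a i)] : S a (X i) = a i := S_X (by simp)

instance (a : α → PS σ) (b : β → PS σ) (i : α) [h : Z (a i)] : Z (Sum.elim a b (inl i)) := h
instance (a : α → PS σ) (b : β → PS σ) (i : β) [h : Z (b i)] : Z (Sum.elim a b (inr i)) := h

lemma Cv.of_X_pow_mul [Finite σ] (i : σ) (p : ℕ) {q : PS σ} (h : Cv (X i ^ p * q)) : Cv q := by
  refine Cv.of_reindex (f := X i ^ p * q) (fun d => Finsupp.single i p + d)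
    (add_right_injective _) (fun d => Or.inl ?_) fun t h1 _ =>
      ⟨fun _ => t, t ^ p, 1, fun _ => h1, pow_ne_zero _ h1, ENNReal.one_ne_top, fun d _ => ?_⟩
  · rw [X_pow_eq, coeff_add_monomial_mul, one_mul]
  · rw [mono_add, mono_single, mul_one, mul_comm]

lemma X_dvd_sub [Finite σ] [DecidableEq σ] (a : σ) (g : PS σ) :
    X a ∣ g - S (fun i => if i = a then 0 else X i) g := by
  refine ind (P := fun g => X a ∣ g - S (fun i => if i = a then 0 else X i) g) ?_ (by simp)
    (fun f g hf hg => ?_) (fun f i hf => ?_) g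
  · simp only [X_dvd_iff, Set.ofPred_forall]
    exact isClosed_iInter fun m => isClosed_iInter fun _ => isClosed_eq (by fun_prop) (by fun_prop)
  · rw [map_add, add_sub_add_comm]; exact dvd_add hf hg
  · rw [map_mul, S_XZ]
    split_ifs with h
    · simp [h]
    · rw [← sub_mul]; exact hf.mul_right _

lemma hadamard [Finite σ] [DecidableEq σ] (s : Finset σ) (f : PS σ) : ∃ c : σ → PS σ,
    f = S (fun i => if i ∈ s then 0 else X i) f + ∑ i ∈ s, X i * c i ∧ (Cv f → ∀ i, Cv (c i)) := by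
  induction s using Finset.induction_on with
  | empty => exact ⟨fun _ => 0, by simp, fun _ _ => inferInstance⟩
  | insert a s ha ih =>
    obtain ⟨c, h1, h2⟩ := ih
    obtain ⟨q, hq⟩ := X_dvd_sub a (S (fun i => if i ∈ s then 0 else X i) f)
    refine ⟨Function.update c a q, ?_, fun hf i => ?_⟩
    · rw [sum_insert ha, Function.update_self, ← hq, S_S, sum_congr rfl fun i hi => by
        rw [Function.update_of_ne (ne_of_mem_of_not_mem hi ha)]]
      rw [S_congr (a := fun i => if i ∈ insert a s then 0 else X i)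
        (b := fun i => S (fun i => if i = a then 0 else X i) (if i ∈ s then 0 else X i)) fun i => by
        by_cases h3 : i ∈ s <;> by_cases h4 : i = a <;> simp [h3, h4, ha]]
      linear_combination h1
    · by_cases h : i = a
      · rw [h, Function.update_self]
        exact .of_X_pow_mul a 1 (by rw [pow_one, ← hq]; infer_instance)
      · rw [Function.update_of_ne h]; exact h2 hf i

lemma hadamard' [Finite β] [Fintype κ] (f : PS (β ⊕ κ)) : ∃ c : κ → PS (β ⊕ κ),
    f = R inl (S (Sum.elim X fun _ => 0) f) + ∑ j, X (inr j) * c j ∧ (Cv f → ∀ j, Cv (c j)) := by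
  classical
  obtain ⟨c, h1, h2⟩ := hadamard (univ.map ⟨inr, inr_injective⟩) f
  refine ⟨fun j => c (inr j), ?_, fun hf j => h2 hf _⟩
  rw [sum_map] at h1
  rw [S_S, S_congr (b := fun i => if i ∈ univ.map ⟨inr, inr_injective⟩ then 0 else X i)
    fun i => by cases i <;> simp]
  exact h1

@[simp] lemma pd_inr_R_inl [Finite β] (j : κ) (f : PS β) : pd (inr j) (R inl f) = 0 :=
  pd_S_zero _ _ (fun _ => pderiv_X_of_ne inl_ne_inr) f

@[simp] lemma pd_inl_R_inr [Finite κ] (j : β) (f : PS κ) : pd (inl j) (R inr f) = 0 :=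
  pd_S_zero _ _ (fun _ => pderiv_X_of_ne inr_ne_inl) f

lemma pd_R_inj [Finite σ] {e : σ → τ} (he : Function.Injective e) (j : σ) (f : PS σ) :
    pd (e j) (R e f) = R e (pd j f) :=
  pd_S_single _ _ j (fun _ hi => pderiv_X_of_ne (he.ne hi)) pderiv_X_self f

lemma taylor1 [Fintype β] (G : PS β) : ∃ c : β → PS (β ⊕ β),
    S (fun i => X (inl i) + X (inr i)) G = R inl G + ∑ j, X (inr j) * c j ∧
      (∀ j, S (Sum.elim X fun _ => 0) (c j) = pd j G) ∧ (Cv G → ∀ j, Cv (c j)) := by
  classical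
  obtain ⟨c, h1, h2⟩ := hadamard' (S (fun i => X (inl i) + X (inr i)) G)
  have h0 : ∀ f : PS β, S (Sum.elim X fun _ => 0) (S (fun i => X (inl i) + X (inr i)) f) = f :=
    fun f => by rw [S_S]; exact S_eq_self (by simp) f
  rw [h0] at h1
  refine ⟨c, h1, fun j => ?_, fun _ => h2 inferInstance⟩
  have h3 := congrArg (fun f => S (Sum.elim X fun _ => 0) (pd (inr j) f)) h1
  beta_reduce at h3
  rw [pd_S_single _ _ j (fun i hi => by simp [hi]) (by simp), h0] at h3
  rw [h3]
  simp [pd_X, apply_ite]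

instance [Finite β] (G : PS β) [h : Cv G] (j : β) : Cv (pd j G) := by
  have := Fintype.ofFinite β
  obtain ⟨c, -, h2, h3⟩ := taylor1 G
  have := h3 h
  rw [← h2]; infer_instance

lemma taylor2 [Fintype β] (G : PS β) (v Δ : β → PS α) [∀ i, Z (v i)] [∀ i, Z (Δ i)] :
    ∃ q : β → β → PS α, S (fun i => v i + Δ i) G = S v G + ∑ j, Δ j * S v (pd j G) +
      ∑ j, ∑ k, Δ j * Δ k * q j k ∧
      (Cv G → (∀ i, Cv (v i)) → (∀ i, Cv (Δ i)) → ∀ j k, Cv (q j k)) := by
  obtain ⟨c, h1, h2, h3⟩ := taylor1 G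
  choose q h4 h5 using fun j => hadamard' (c j)
  refine ⟨fun j k => S (Sum.elim v Δ) (q j k), ?_, fun hG _ _ j k => ?_⟩
  · have h6 := congrArg (S (Sum.elim v Δ)) h1
    rw [S_S, map_add, S_R, map_sum, sum_congr rfl fun j _ => by rw [h4 j, h2]] at h6
    simpa [S_R, mul_add, sum_add_distrib, mul_sum, mul_assoc, add_assoc] using h6
  · have := h5 j (h3 hG j) k
    infer_instance

lemma diff_S [Fintype β] (G : PS β) (v v' : β → PS α) [∀ i, Z (v i)] [∀ i, Z (v' i)] :
    ∃ c : β → PS α, S v G - S v' G = ∑ j, (v j - v' j) * c j ∧ (∀ j, cc (c j) = cc (pd j G)) ∧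
      (Cv G → (∀ i, Cv (v i)) → (∀ i, Cv (v' i)) → ∀ j, Cv (c j)) := by
  obtain ⟨q, h1, h2⟩ := taylor2 G v' fun i => v i - v' i
  refine ⟨fun j => S v' (pd j G) + ∑ k, (v k - v' k) * q j k, ?_, by simp, fun h3 _ _ j => ?_⟩
  · simp only [add_sub_cancel] at h1
    rw [h1]
    simp [mul_add, sum_add_distrib, mul_sum, mul_assoc, add_assoc]
  · have := h2 h3 inferInstance inferInstance
    infer_instance

lemma sub_S_mem [Finite β] (I : Ideal (PS α)) (G : PS β) (v v' : β → PS α) [∀ i, Z (v i)]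
    [∀ i, Z (v' i)] (h : ∀ i, v i - v' i ∈ I) : S v G - S v' G ∈ I := by
  have := Fintype.ofFinite β
  obtain ⟨c, h1, -⟩ := diff_S G v v'
  rw [h1]
  exact sum_mem fun j _ => I.mul_mem_right _ (h j)

lemma X_mem_Fil (w : σ → ℕ) (i : σ) : (X i : PS σ) ∈ Fil w (w i) := by
  classical
  intro d hd
  rw [coeff_X, if_neg]
  rintro rfl
  simp [Finsupp.weight_single] at hd

lemma mem_Fil_one' {w : σ → ℕ} (hw : ∀ i, w i ≠ 0) (f : PS σ) [Z f] : f ∈ Fil w 1 := by
  intro d hd
  have : d = 0 := by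
    ext i
    have := Finsupp.le_weight w (hw i) d
    simp only [Finsupp.coe_zero, Pi.zero_apply]
    omega
  simp [this]

/-- a set of series closed under derivatives whose elements vanish on a subspace is zero -/
lemma taylor_zero [Finite ξ] [Finite κ] (K : PS (ξ ⊕ κ) → Prop)
    (hK : ∀ f j, K f → K (pd (inr j) f)) (h0 : ∀ f, K f → S (Sum.elim X fun _ => 0) f = 0)
    {f : PS (ξ ⊕ κ)} (hf : K f) : f = 0 := by
  have := Fintype.ofFinite κ
  have h1 : ∀ f, K f → f ∈ Fil (Sum.elim (fun _ => 0) fun _ => 1) 1 := by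
    intro f hf
    obtain ⟨c, h, -⟩ := hadamard' f
    rw [h, h0 f hf, map_zero, zero_add]
    exact sum_mem fun j _ => Ideal.mul_mem_right _ _ (X_mem_Fil _ (inr j))
  have h2 : ∀ k f, K f → f ∈ Fil (Sum.elim (fun _ => 0) fun _ => 1) k := by
    intro k
    induction k with
    | zero => exact fun f _ d hd => absurd hd (Nat.not_lt_zero _)
    | succ k ih =>
      intro f hf d hd
      by_cases h : ∃ j, d (inr j) ≠ 0
      · obtain ⟨j, hj⟩ := h
        obtain ⟨e, rfl⟩ : ∃ e, d = e + Finsupp.single (inr j) 1 :=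
          ⟨d - Finsupp.single (inr j) 1, (tsub_add_cancel_of_le
            (Finsupp.single_le_iff.mpr (by omega))).symm⟩
        have := ih _ (hK f j hf) e (by
          simpa [Finsupp.weight_single] using hd)
        rw [coeff_pderiv] at this
        exact (mul_eq_zero.mp this).resolve_right (Nat.cast_add_one_ne_zero _)
      · push Not at h
        refine h1 f hf d ?_
        rw [Finsupp.weight_apply, Finsupp.sum, sum_eq_zero fun i _ => by cases i <;> simp [h]]
        exact Nat.one_pos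
  exact eq_zero_of_Fil fun k => h2 k f hf

lemma exists_inv (f : PS σ) (h : cc f ≠ 0) : ∃ g, f * g = 1 ∧ (Cv f → Cv g) := by
  have : Z (1 - C (cc f)⁻¹ * f) := ⟨by simp [h]⟩
  obtain ⟨u, h1, h2⟩ := fixpt (ι := Unit) (fun _ => 1)
    (fun u _ => C (cc f)⁻¹ + u () * (1 - C (cc f)⁻¹ * f)) fun k u v h i => by
      rw [add_sub_add_left_eq_sub, ← sub_mul]
      exact Fil_mul (h ()) (mem_Fil_one _)
  have h3 := congrFun h1 ()
  refine ⟨u (), ?_, fun _ => ?_⟩
  · have h4 : (C (cc f) * C (cc f)⁻¹ : PS σ) = 1 := by rw [← map_mul, mul_inv_cancel₀ h, map_one]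
    linear_combination (-C (cc f)) * h3 + (1 - f * u ()) * h4
  · obtain ⟨t, h4, h5⟩ := (ev_ne.and (Cv.small (1 - C (cc f)⁻¹ * f)
      (ρ := 2⁻¹) (by simp))).exists
    refine ⟨t, h4.1, ne_top_of_le_ne_top (b := 2 * ‖(cc f)⁻¹‖ₑ) (by finiteness)
      (h2 _ (fun _ => 2 * ‖(cc f)⁻¹‖ₑ) (fun v hv i => ?_) ())⟩
    refine (nrm_add _ _ _).trans ?_
    rw [nrm_C, two_mul]
    refine add_le_add_right ((nrm_mul _ _ _).trans ((mul_le_mul' (hv ()) h5).trans ?_)) _
    rw [mul_right_comm, ENNReal.mul_inv_cancel (by simp) (by simp), one_mul]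

lemma sub_cc_mem {w : σ → ℕ} {k : ℕ} {u v : PS σ} (h : u - v ∈ Fil w k) :
    (u - C (cc u)) - (v - C (cc v)) ∈ Fil w k := by
  classical
  intro d hd
  have := h d hd
  by_cases h0 : d = 0
  · simp [h0]
  · simpa [coeff_C, h0] using this

lemma ift_aux [Finite ξ] [Fintype κ] (H : κ → PS (ξ ⊕ κ)) [∀ i, Z (H i)]
    (hH : ∀ i j, cc (pd (inr j) (H i)) = 0) : ∃ u : κ → PS ξ, (∀ i, Z (u i)) ∧
      (∀ i, S (Sum.elim X u) (H i) = u i) ∧ ((∀ i, Cv (H i)) → ∀ i, Cv (u i)) := by
  have := Fintype.ofFinite ξ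
  obtain ⟨u, h1, h2⟩ := fixpt (fun _ => 1)
    (fun (u : κ → PS ξ) i => S (Sum.elim X fun j => u j - C (cc (u j))) (H i))
    fun k u v h i => by
      obtain ⟨c, h3, h4, -⟩ := diff_S (H i) (Sum.elim X fun j => u j - C (cc (u j)))
        (Sum.elim X fun j => v j - C (cc (v j)))
      rw [h3]
      refine sum_mem fun j _ => ?_
      cases j with
      | inl j => simp
      | inr j =>
        have : Z (c (inr j)) := ⟨by rw [h4, hH]⟩
        exact Fil_mul (sub_cc_mem (h j)) (mem_Fil_one _)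
  have hz : ∀ i, Z (u i) := fun i => by rw [← congrFun h1 i]; infer_instance
  refine ⟨u, hz, fun i => by simpa using congrFun h1 i, fun _ i => ?_⟩
  set w : ξ ⊕ κ → ℕ := Sum.elim (fun _ => 2) fun _ => 1 with hw
  have h3 : ∀ i, H i ∈ Fil w 2 := by
    intro i
    obtain ⟨c, h3, h4, -⟩ := diff_S (H i) X fun _ => (0 : PS (ξ ⊕ κ))
    simp only [S_id, S_zero, Z.cc_eq, map_zero, sub_zero] at h3
    rw [h3]
    refine sum_mem fun j _ => ?_
    cases j with
    | inl j => exact Ideal.mul_mem_right _ _ (X_mem_Fil w (inl j))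
    | inr j =>
      have : Z (c (inr j)) := ⟨by rw [h4, hH]⟩
      exact Fil_mul (X_mem_Fil w (inr j)) (mem_Fil_one' (fun i => by cases i <;> simp [hw]) _)
  obtain ⟨r, h4, h5⟩ := (ev_ne.and (eventually_all.mpr fun i => Cv.ev (H i))).exists
  obtain ⟨θ, h6, h7⟩ := (ev_ne.and (eventually_all.mpr fun i => ev_mul_le (h5 i) h4.1)).exists
  refine ⟨θ ^ 2 * r, mul_ne_zero (pow_ne_zero _ h6.1) h4.1, ne_top_of_le_ne_top
    (ENNReal.mul_ne_top h6.2.1 h4.2.1) (h2 _ (fun _ => θ * r) (fun v hv i => ?_) i)⟩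
  refine (nrm_S (ρ := fun i => θ ^ w i * r) (fun j => ?_) _).trans
    ((nrm_scale (h3 i) h6.2.2 fun _ => r).trans ?_)
  · cases j with
    | inl j => simp [nrm_X, hw]
    | inr j => simpa [hw] using (nrm_sub_cc _ _).trans (hv j)
  · rw [sq, mul_assoc]
    exact mul_le_mul_right (h7 i) _

lemma ift_unique [Finite ξ] [Fintype κ] [DecidableEq κ] (G : κ → PS (ξ ⊕ κ))
    (hL : (Matrix.of fun i j => cc (pd (inr j) (G i))).det ≠ 0) (θ : ξ → PS α) (v v' : κ → PS α)
    [∀ i, Z (θ i)] [∀ i, Z (v i)] [∀ i, Z (v' i)]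
    (h : ∀ i, S (Sum.elim θ v) (G i) = S (Sum.elim θ v') (G i)) : v = v' := by
  have := Fintype.ofFinite ξ
  choose c h1 h2 _ using fun i => diff_S (G i) (Sum.elim θ v) (Sum.elim θ v')
  rw [← sub_eq_zero]
  refine Matrix.eq_zero_of_mulVec_eq_zero (M := .of fun i j => c i (inr j)) (fun h0 => hL ?_) ?_
  · have := congrArg constantCoeff h0
    rw [RingHom.map_det, map_zero] at this
    rw [← this]
    congr 1
    ext i j
    simp [h2]
  · funext i
    have := h1 i
    rw [h i, sub_self] at this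
    simpa [Matrix.mulVec, dotProduct, mul_comm] using this.symm

/-- implicit function theorem -/
lemma ift [Finite ξ] [Fintype κ] [DecidableEq κ] (G : κ → PS (ξ ⊕ κ)) [∀ i, Z (G i)]
    (hL : (Matrix.of fun i j => cc (pd (inr j) (G i))).det ≠ 0) : ∃ u : κ → PS ξ, (∀ i, Z (u i)) ∧
      (∀ i, S (Sum.elim X u) (G i) = 0) ∧ ((∀ i, Cv (G i)) → ∀ i, Cv (u i)) := by
  classical
  set L := Matrix.of fun i j => cc (pd (inr j) (G i)) with hL'
  have h0 := Matrix.nonsing_inv_mul L (Ne.isUnit hL)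
  obtain ⟨u, h1, h2, h3⟩ := ift_aux (fun i => X (inr i) - ∑ k, C (L⁻¹ i k) * G k) fun i j => by
    have := congrFun (congrFun h0 i) j
    rw [Matrix.mul_apply, Matrix.one_apply] at this
    have h1 : ∑ k, L⁻¹ i k * constantCoeff (pd (inr j) (G k)) = if i = j then 1 else 0 := this
    simp only [map_sub, map_sum, pd_mul, pderiv_C, mul_zero, add_zero, map_mul, constantCoeff_C, h1]
    by_cases h2 : i = j <;> simp [h2]
  refine ⟨u, h1, ?_, fun _ => h3 inferInstance⟩
  have h4 : (L⁻¹.map C).mulVec (fun i => S (Sum.elim X u) (G i)) = 0 := funext fun i => by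
    simpa [Matrix.mulVec, dotProduct] using h2 i
  refine congrFun (Matrix.eq_zero_of_mulVec_eq_zero (fun h5 => ?_) h4)
  have := congrArg Matrix.det h0
  rw [← RingHom.mapMatrix_apply, ← RingHom.map_det, map_eq_zero_iff _ C_injective] at h5
  simp [h5] at this

end

end Pool.Agent.Lib.MP_547e2f_an
end

-- part Pool.Agent.Lib.MP_547e2f_an.Weier
section

/-!
Weierstrass division and preparation for formal and convergent series.
-/

namespace Pool.Agent.Lib.MP_547e2f_an

open MvPowerSeries Finset Filter Topology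
open Finsupp hiding some sum_ite_eq' prod_ne_zero_iff
open scoped ENNReal MvPowerSeries.WithPiTopology

noncomputable section

variable {σ τ β : Type}

lemma S_monomial [Finite σ] (a : σ → PS τ) [∀ i, Z (a i)] (d : σ →₀ ℕ) (c : ℂ) :
    S a (monomial d c) = C c * d.prod fun i k => a i ^ k := by
  rw [S_eq_subst (by simp), subst_monomial (hasSubst_of_constantCoeff_zero (by simp))]; rfl

lemma R_monomial [Finite σ] (e : σ → τ) (d : σ →₀ ℕ) (c : ℂ) :
    R e (monomial d c) = monomial (d.mapDomain e) c := by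
  rw [S_eq_subst (by simp), ← rename_monomial, rename_eq_subst]; rfl

variable [Finite β]

lemma coeff_up (f : PS β) (j : ℕ) (d : Option β →₀ ℕ) :
    coeff d (R some f * X none ^ j) = if d none = j then coeff d.some f else 0 := by
  classical
  refine ind_mono (P := fun f => coeff d (R some f * X none ^ j) =
    if d none = j then coeff d.some f else 0) (isClosed_eq (by fun_prop) ?_)
    (fun f g hf hg => ?_) (fun e c => ?_) f
  · split_ifs <;> fun_prop
  · simp only [map_add, add_mul, hf, hg]; split_ifs <;> simp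
  · rw [R_monomial, X_pow_eq, monomial_mul_monomial, mul_one, coeff_monomial, coeff_monomial,
      ← ite_and]
    refine if_congr ⟨?_, ?_⟩ rfl rfl
    · rintro rfl
      refine ⟨by simp [mapDomain_of_notMem_range], Finsupp.ext fun i => ?_⟩
      simp [mapDomain_apply (Option.some_injective _)]
    · rintro ⟨rfl, rfl⟩
      ext i
      cases i <;> simp [mapDomain_of_notMem_range, mapDomain_apply (Option.some_injective _)]

/-- polynomials in the distinguished variable -/
def pol {p : ℕ} (r : Fin p → PS β) : PS (Option β) := ∑ j, R some (r j) * X none ^ (j : ℕ)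

instance {p : ℕ} (r : Fin p → PS β) [∀ j, Cv (r j)] : Cv (pol r) := by
  unfold pol; infer_instance

lemma coeff_pol {p : ℕ} (r : Fin p → PS β) (d : Option β →₀ ℕ) :
    coeff d (pol r) = if h : d none < p then coeff d.some (r ⟨_, h⟩) else 0 := by
  simp only [pol, map_sum, coeff_up]
  split_ifs with h
  · rw [sum_eq_single ⟨_, h⟩ (fun b _ hb => if_neg fun e => hb (Fin.ext e.symm)) (by simp),
      if_pos rfl]
  · exact sum_eq_zero fun j _ => if_neg fun e : d none = j => h (e ▸ j.2)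

lemma pol_eq_zero {p : ℕ} {r : Fin p → PS β} (h : pol r = 0) (j : Fin p) : r j = 0 := by
  ext e
  have := coeff_pol r (e.optionElim j)
  simpa [h, optionElim_apply_none] using this.symm

/-- coefficient of a power of the distinguished variable -/
def cf (j : ℕ) (f : PS (Option β)) : PS β := fun d => coeff (d.optionElim j) f

/-- shift -/
def hi (p : ℕ) (f : PS (Option β)) : PS (Option β) := fun d => coeff (single none p + d) f

omit [Finite β] in
lemma coeff_cf (j : ℕ) (f : PS (Option β)) (d) : coeff d (cf j f) = coeff (d.optionElim j) f := rfl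

omit [Finite β] in
lemma coeff_hi (p : ℕ) (f : PS (Option β)) (d) :
    coeff d (hi p f) = coeff (single none p + d) f := rfl

lemma hi_add_pol (p : ℕ) (f : PS (Option β)) :
    f = X none ^ p * hi p f + pol fun j : Fin p => cf j f := by
  ext d
  rw [map_add, coeff_pol, X_pow_eq, coeff_monomial_mul]
  simp only [single_le_iff, coeff_hi, coeff_cf, optionElim_some]
  by_cases h : p ≤ d none
  · rw [if_pos h, dif_neg (by omega), add_tsub_cancel_of_le (single_le_iff.mpr h)]; simp
  · rw [if_neg h, dif_pos (by omega), zero_add]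

lemma hi_eq (p : ℕ) (q : PS (Option β)) (r : Fin p → PS β) : hi p (X none ^ p * q + pol r) = q := by
  ext d
  rw [coeff_hi, map_add, coeff_pol, X_pow_eq, coeff_add_monomial_mul, dif_neg (by simp)]
  simp

lemma mono_optionElim (r : Option β → ℝ≥0∞) (j : ℕ) (d : β →₀ ℕ) :
    mono r (d.optionElim j) = r none ^ j * mono (fun i => r (some i)) d := by
  have := Fintype.ofFinite β
  simp [mono, prod_fintype]

instance (j : ℕ) (f : PS (Option β)) [Cv f] : Cv (cf j f) :=
  Cv.of_reindex (f := f) (fun d => d.optionElim j) (fun d e h => by simpa using congrArg Finsupp.some h)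
    (fun _ => Or.inl rfl) fun t h1 _ => ⟨fun _ => t, t ^ j, 1, fun _ => h1, pow_ne_zero _ h1,
      ENNReal.one_ne_top, fun d _ => by rw [mono_optionElim, mul_one, mul_comm]⟩

instance (p : ℕ) (f : PS (Option β)) [Cv f] : Cv (hi p f) :=
  .of_X_pow_mul none p (by rw [eq_sub_of_add_eq (hi_add_pol p f).symm]; infer_instance)

omit [Finite β] in
lemma nrm_hi (r : Option β → ℝ≥0∞) (p : ℕ) (f : PS (Option β)) :
    nrm r (hi p f) * r none ^ p ≤ nrm r f := by
  simpa using nrm_reindex (r := r) (r' := r) (f := f) (g := hi p f) (m := r none ^ p) (M := 1)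
    (fun d => single none p + d) (add_right_injective _) fun d => by
      rw [mono_add, mono_single, coeff_hi, mul_one, mul_assoc, mul_comm (mono r d)]

/-- the weight of the non-distinguished variables -/
abbrev w0 : Option β → ℕ := fun i => i.elim 0 fun _ => 1

omit [Finite β] in
lemma hi_mem {p k : ℕ} {f : PS (Option β)} (h : f ∈ Fil w0 k) : hi p f ∈ Fil w0 k :=
  fun d hd => h _ (by simpa [weight_single] using hd)

omit [Finite β] in
lemma hi_sub (p : ℕ) (f g : PS (Option β)) : hi p f - hi p g = hi p (f - g) := by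
  ext d; simp [coeff_hi]

omit [Finite β] in
lemma coeff_w0 {f : PS (Option β)} (h : f ∈ Fil w0 1) (j : ℕ) : coeff (single none j) f = 0 :=
  h _ (by simp [weight_single])

lemma pol_mem {p : ℕ} (r : Fin p → PS β) [∀ j, Z (r j)] : pol r ∈ Fil w0 1 := by
  intro d hd
  have : d.some = 0 := by
    ext i
    have := le_weight w0 (s := some i) (by simp) d
    simp only [some_apply, Finsupp.coe_zero, Pi.zero_apply]
    omega
  simp [coeff_pol, this]

/-- regular of order `p` in the distinguished variable -/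
def Reg (g : PS (Option β)) (p : ℕ) : Prop :=
  (∀ j < p, coeff (single none j) g = 0) ∧ coeff (single none p) g ≠ 0

omit [Finite β] in
lemma coeff_dec {p : ℕ} (e : PS (Option β)) {l : PS (Option β)} (hl : l ∈ Fil w0 1) :
    (∀ j < p, coeff (single none j) (X none ^ p * e + l) = 0) ∧
      coeff (single none p) (X none ^ p * e + l) = cc e := by
  simp only [map_add, coeff_w0 hl, add_zero, X_pow_eq, coeff_monomial_mul, single_le_iff]
  exact ⟨fun j hj => if_neg (by simpa using hj), by simp⟩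

omit [Finite β] in
lemma Reg.of_dec {p : ℕ} {e l : PS (Option β)} (he : cc e ≠ 0) (hl : l ∈ Fil w0 1) :
    Reg (X none ^ p * e + l) p := ⟨(coeff_dec e hl).1, (coeff_dec e hl).2 ▸ he⟩

lemma Reg.dec {p : ℕ} {g : PS (Option β)} (h : Reg g p) : ∃ e l, cc e ≠ 0 ∧ l ∈ Fil w0 1 ∧
    g = X none ^ p * e + l ∧ (Cv g → Cv e ∧ Cv l) := by
  have : ∀ j : Fin p, Z (cf j g) := fun j => ⟨by
    rw [cc, ← coeff_zero_eq_constantCoeff_apply, coeff_cf, optionElim_zero, h.1 _ j.2]⟩
  refine ⟨hi p g, _, ?_, pol_mem _, hi_add_pol p g, fun _ => ⟨inferInstance, inferInstance⟩⟩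
  rw [cc, ← coeff_zero_eq_constantCoeff_apply, coeff_hi, add_zero]
  exact h.2

lemma Reg.mul {p q : ℕ} {g g' : PS (Option β)} (h : Reg g p) (h' : Reg g' q) :
    Reg (g * g') (p + q) := by
  obtain ⟨e, l, h1, h2, rfl, -⟩ := h.dec
  obtain ⟨e', l', h3, h4, rfl, -⟩ := h'.dec
  rw [show (X none ^ p * e + l) * (X none ^ q * e' + l') = X none ^ (p + q) * (e * e') +
    (l * (X none ^ q * e' + l') + X none ^ p * e * l') by ring]
  exact .of_dec (by simp [h1, h3]) (add_mem (Ideal.mul_mem_right _ _ h2) (Ideal.mul_mem_left _ _ h4))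

omit [Finite β] in
lemma Reg.ne_zero {p : ℕ} {g : PS (Option β)} (h : Reg g p) : g ≠ 0 := fun e => h.2 (by simp [e])

omit [Finite β] in
lemma reg_X : Reg (X none : PS (Option β)) 1 := by
  simpa using Reg.of_dec (β := β) (p := 1) (e := 1) (by simp) (zero_mem _)

lemma reg_dist {p : ℕ} (a : Fin p → PS β) [∀ j, Z (a j)] : Reg (X none ^ p + pol a) p := by
  simpa using Reg.of_dec (p := p) (e := 1) (by simp) (pol_mem a)

/-- Weierstrass division -/
lemma Reg.div {p : ℕ} {g : PS (Option β)} (h : Reg g p) (f : PS (Option β)) :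
    ∃ (q : PS (Option β)) (r : Fin p → PS β), f = q * g + pol r ∧
      (Cv f → Cv g → Cv q ∧ ∀ j, Cv (r j)) := by
  obtain ⟨e, l, h1, h2, h3, h4⟩ := h.dec
  obtain ⟨e', h5, h6⟩ := exists_inv e h1
  have h7 : e' * l ∈ Fil w0 1 := Ideal.mul_mem_left _ _ h2
  obtain ⟨Q, q1, q2⟩ := fixpt (ι := Unit) w0 (fun Q _ => hi p (f - Q () * (e' * l)))
    fun k u v h i => by
      rw [hi_sub, sub_sub_sub_cancel_left, ← sub_mul, ← neg_sub (u ()), neg_mul]
      exact hi_mem (neg_mem (Fil_mul (h ()) h7))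
  have q3 := hi_add_pol p (f - Q () * (e' * l))
  rw [congrFun q1 ()] at q3
  refine ⟨Q () * e', fun j => cf j (f - Q () * (e' * l)), ?_, fun _ hg => ?_⟩
  · rw [h3]; linear_combination q3 - X none ^ p * Q () * h5
  · obtain ⟨h8, h9⟩ := h4 hg
    have := h6 h8
    suffices Cv (Q ()) from ⟨inferInstance, inferInstance⟩
    obtain ⟨t, t1, t2, t3⟩ := (ev_ne.and ((Cv.ev f).and (Cv.ev (e' * l)))).exists
    have a1 : t ^ p ≠ 0 := pow_ne_zero _ t1.1
    have a2 : t ^ p ≠ ∞ := ENNReal.pow_ne_top t1.2.1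
    obtain ⟨θ, t4, t5⟩ := (ev_ne.and (ev_mul_le t3 (r := 2⁻¹ * t ^ p) (by simp [a1]))).exists
    refine .of_poly (r := fun i => θ ^ w0 i * t)
      (fun i => mul_ne_zero (pow_ne_zero _ t4.1) t1.1) (ne_top_of_le_ne_top
        (b := 2 * nrm (fun _ => t) f / t ^ p) (ENNReal.div_ne_top (by finiteness) a1)
        (q2 _ (fun _ => 2 * nrm (fun _ => t) f / t ^ p) (fun v hv i => ?_) ()))
    rw [ENNReal.le_div_iff_mul_le (Or.inl a1) (Or.inl a2)]
    have b1 := nrm_hi (fun i => θ ^ w0 i * t) p (f - v () * (e' * l))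
    simp only [Option.elim_none, pow_zero, one_mul] at b1
    refine b1.trans ((nrm_sub _ _ _).trans ?_)
    rw [two_mul]
    refine add_le_add (nrm_mono (fun i => mul_le_of_le_one_left' (pow_le_one' t4.2.2 _)) f)
      ((nrm_mul _ _ _).trans ((mul_le_mul' (hv ())
        ((nrm_scale h7 t4.2.2 fun _ => t).trans (by simpa using t5))).trans (le_of_eq ?_)))
    rw [mul_left_comm, ENNReal.div_mul_cancel a1 a2, ← mul_assoc,
      ENNReal.inv_mul_cancel (by simp) (by simp), one_mul]

lemma Reg.unique {p : ℕ} {g : PS (Option β)} (h : Reg g p) {r : Fin p → PS β} (hq : g ∣ pol r)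
    (j : Fin p) : r j = 0 := by
  obtain ⟨q, hq⟩ := hq
  obtain ⟨e, l, h1, h2, h3, -⟩ := h.dec
  obtain ⟨e', h5, -⟩ := exists_inv e h1
  have h6 : hi p (-(q * e * (e' * l))) = q * e := by
    refine Eq.trans ?_ (hi_eq p (q * e) fun j => -r j)
    congr 1
    have : pol (fun j => -r j) = -pol r := by simp [pol]
    rw [this, hq, h3]
    linear_combination (-q * l) * h5
  have h7 : ∀ k, q * e ∈ Fil w0 k := fun k => by
    induction k with
    | zero => exact fun d hd => absurd hd (Nat.not_lt_zero _)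
    | succ k ih => exact h6 ▸ hi_mem (neg_mem (Fil_mul ih (Ideal.mul_mem_left _ _ h2)))
  have h8 : q = 0 := by rw [← mul_one q, ← h5, ← mul_assoc, eq_zero_of_Fil h7, zero_mul]
  exact pol_eq_zero (by rw [hq, h8, mul_zero]) j

/-- Weierstrass preparation -/
lemma Reg.prep {p : ℕ} {g : PS (Option β)} (h : Reg g p) :
    ∃ (q : PS (Option β)) (a : Fin p → PS β), cc q ≠ 0 ∧ (∀ j, Z (a j)) ∧
      X none ^ p + pol a = q * g ∧ (Cv g → Cv q ∧ ∀ j, Cv (a j)) := by
  obtain ⟨q, r, h1, h2⟩ := h.div (X none ^ p)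
  obtain ⟨e, l, -, h4, h5, -⟩ := h.dec
  have h6 : X none ^ p * 1 + 0 = (X none ^ p * (q * e) + q * l) + pol r := by
    rw [h5] at h1; linear_combination h1
  have h7 := coeff_dec (p := p) (q * e) (Ideal.mul_mem_left _ q h4)
  have h8 := coeff_dec (β := β) (p := p) 1 (zero_mem _)
  refine ⟨q, fun j => -r j, fun h0 => ?_, fun j => ⟨?_⟩, ?_, fun hg => ?_⟩
  · have := h8.2
    rw [h6, map_add, h7.2, coeff_pol] at this
    simp [h0] at this
  · have := h8.1 j j.2
    rw [h6, map_add, h7.1 j j.2, coeff_pol] at this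
    simpa using this
  · have : pol (fun j => -r j) = -pol r := by simp [pol]
    rw [this]; linear_combination h1
  · obtain ⟨h9, _⟩ := h2 inferInstance hg
    exact ⟨h9, inferInstance⟩

omit [Finite β] in
lemma exists_reg {g : PS (Option β)} (h : ∃ m, coeff (single none m) g ≠ 0) : ∃ p, Reg g p := by
  classical
  exact ⟨Nat.find h, fun j hj => not_not.mp (Nat.find_min h hj), Nat.find_spec h⟩

omit [Finite β] in
lemma exists_line [Finite σ] {δ : PS σ} (h : δ ≠ 0) : ∃ c : σ → ℂ, (∀ i, c i ≠ 0) ∧ ∃ m,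
    coeff (single none m) (S (fun i => C (c i) * X none) δ : PS (Option β)) ≠ 0 := by
  classical
  have := Fintype.ofFinite σ
  have key : ∀ (c : σ → ℂ) (m : ℕ) (f : PS σ),
      coeff (single none m) (S (fun i => C (c i) * X none) f : PS (Option β)) =
      ∑ d ∈ finsuppAntidiag univ m, coeff d f * ∏ i, c i ^ d i := by
    intro c m f
    refine ind_mono (P := fun f => coeff (single none m)
      (S (fun i => C (c i) * X none) f : PS (Option β)) =
      ∑ d ∈ finsuppAntidiag univ m, coeff d f * ∏ i, c i ^ d i)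
      (isClosed_eq (by fun_prop) (by fun_prop))
      (fun f g hf hg => by simp only [map_add, hf, hg, add_mul, sum_add_distrib]) (fun e a => ?_) f
    rw [S_monomial, prod_fintype _ _ (by simp)]
    simp only [mul_pow, prod_mul_distrib, prod_pow_eq_pow_sum, ← map_pow, ← map_prod, coeff_C_mul,
      coeff_X_pow, coeff_monomial, ite_mul, zero_mul, sum_ite_eq', mem_finsuppAntidiag,
      subset_univ, and_true, (single_injective _).eq_iff, eq_comm (a := m)]
    split_ifs <;> simp
  obtain ⟨d, hd⟩ : ∃ d, coeff d δ ≠ 0 := by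
    by_contra hc
    push Not at hc
    exact h (MvPowerSeries.ext fun d => by simp [hc])
  set P : MvPolynomial σ ℂ := ∑ e ∈ finsuppAntidiag univ (∑ i, d i),
    MvPolynomial.monomial e (coeff e δ) with hP
  have h1 : P * ∏ i, MvPolynomial.X i ≠ 0 := by
    refine mul_ne_zero (fun h0 => hd ?_) (prod_ne_zero_iff.mpr fun i _ => MvPolynomial.X_ne_zero i)
    have := congrArg (MvPolynomial.coeff d) h0
    simpa [hP, MvPolynomial.coeff_sum, MvPolynomial.coeff_monomial] using this
  obtain ⟨c, hc⟩ : ∃ c, MvPolynomial.eval c (P * ∏ i, MvPolynomial.X i) ≠ 0 := by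
    by_contra hc
    push Not at hc
    exact h1 (MvPolynomial.funext fun c => by rw [hc c, map_zero])
  simp only [map_mul, map_prod, MvPolynomial.eval_X, mul_ne_zero_iff, prod_ne_zero_iff] at hc
  refine ⟨c, fun i => hc.2 i (mem_univ i), ∑ i, d i, ?_⟩
  rw [key]
  simpa [hP, MvPolynomial.eval_monomial, prod_fintype] using hc.1

lemma exists_shear {δ : PS (Option β)} (h : δ ≠ 0) : ∃ φ ψ : Option β → PS (Option β),
    (∀ i, Cv (φ i)) ∧ (∀ i, Cv (ψ i)) ∧ (∀ i, Z (φ i)) ∧ (∀ i, Z (ψ i)) ∧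
      (∀ i, S φ (ψ i) = X i) ∧ (∀ i, S ψ (φ i) = X i) ∧ ∃ p, Reg (S φ δ) p := by
  obtain ⟨c, h1, m, h2⟩ := exists_line (β := β) h
  refine ⟨fun i => i.elim 0 (fun j => X (some j)) + C (c i) * X none,
    fun i => i.elim (C (c none)⁻¹ * X none) fun j =>
      X (some j) - C (c (some j) * (c none)⁻¹) * X none, inferInstance, inferInstance,
    inferInstance, inferInstance, fun i => ?_, fun i => ?_, exists_reg ⟨m, ?_⟩⟩
  · have : (C (c none)⁻¹ * C (c none) : PS (Option β)) = 1 := by
      rw [← map_mul, inv_mul_cancel₀ (h1 _), map_one]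
    cases i with
    | none => simp [← mul_assoc, this]
    | some j => simp; linear_combination (-(C (c (some j))) * X none) * this
  · have : (C (c none) * C (c none)⁻¹ : PS (Option β)) = 1 := by
      rw [← map_mul, mul_inv_cancel₀ (h1 _), map_one]
    cases i with
    | none => simp [← mul_assoc, this]
    | some j => simp; ring
  · have := coeff_w0 (sub_S_mem (Fil w0 1) δ
      (fun i => i.elim 0 (fun j => X (some j)) + C (c i) * X none) (fun i => C (c i) * X none)
      fun i => by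
        cases i with
        | none => simp
        | some j => simpa using X_mem_Fil w0 (some j)) m
    rw [map_sub, sub_eq_zero] at this
    rwa [this]

end

end Pool.Agent.Lib.MP_547e2f_an
end

-- part Pool.Agent.Lib.MP_547e2f_an.Jac
section

/-!
The Jacobian lemma for the ideal of convergent relations of a formal map.
-/

namespace Pool.Agent.Lib.MP_547e2f_an

open MvPowerSeries Finset

noncomputable section

lemma exists_minor {A κ ι : Type*} [CommRing A] [Fintype κ] [DecidableEq κ] [Fintype ι]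
    (J : Matrix κ ι A) (B : Matrix ι κ A) (h : (J * B).det ≠ 0) :
    ∃ e : κ → ι, (J.submatrix id e).det ≠ 0 := by
  classical
  by_contra hc
  push Not at hc
  refine h ?_
  have : (J * B).det = ∑ p : κ → ι, (J.submatrix id p).det * ∏ i, B (p i) i := by
    simp only [Matrix.det_apply', Matrix.mul_apply, prod_univ_sum, mul_sum, Fintype.piFinset_univ,
      sum_mul, Matrix.submatrix_apply, id, prod_mul_distrib, mul_assoc]
    rw [sum_comm]
  simp [this, hc]

open Polynomial in
lemma poly_sat {A D : Type*} [CommRing A] [CommRing D] [IsDomain D] [CharZero D] (φ : A[X] →+* D)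
    (hw : ∃ p w, φ w = 0 ∧ w.natDegree ≤ p ∧ φ (Polynomial.C (w.coeff p)) ≠ 0) :
    ∃ h, φ h = 0 ∧ φ (derivative h) ≠ 0 ∧ ∀ I : Ideal A[X], h ∈ I →
      (∀ c, φ (Polynomial.C c) = 0 → Polynomial.C c ∈ I) →
      (∀ c r, φ (Polynomial.C c) ≠ 0 → Polynomial.C c * r ∈ I → r ∈ I) → ∀ r, φ r = 0 → r ∈ I := by
  classical
  obtain ⟨h, h1, h2, h3⟩ := Nat.find_spec hw
  have hmin := fun n => Nat.find_min' hw (m := n)
  generalize Nat.find hw = m at *
  refine ⟨h, h1, fun h4 => ?_, fun I i1 i2 i3 => ?_⟩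
  · cases m with
    | zero => exact h3 (by rw [← eq_C_of_natDegree_le_zero h2, h1])
    | succ k =>
      refine absurd (hmin k ⟨_, h4, (natDegree_derivative_le h).trans (by omega), ?_⟩) (by omega)
      rw [coeff_derivative, map_mul, map_mul]
      exact mul_ne_zero h3 (by simpa using Nat.cast_add_one_ne_zero k)
  · have key : ∀ n (r : A[X]), (∀ j, n ≤ j → r.coeff j = 0) → φ r = 0 → r ∈ I := by
      intro n
      induction n with
      | zero => exact fun r hr _ => by rw [show r = 0 from Polynomial.ext fun j => hr j j.zero_le]; simp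
      | succ n ih =>
        intro r hr h0
        by_cases hc : φ (Polynomial.C (r.coeff n)) = 0
        · have := ih (r - Polynomial.C (r.coeff n) * Polynomial.X ^ n) (fun j hj => by
            rw [coeff_sub, Polynomial.coeff_C_mul, Polynomial.coeff_X_pow]
            split_ifs with h5
            · simp [h5]
            · simp [hr j (by omega)]) (by simp [h0, hc])
          simpa using add_mem this (I.mul_mem_right (Polynomial.X ^ n) (i2 _ hc))
        · have h5 := hmin n ⟨r, h0, natDegree_le_iff_coeff_eq_zero.mpr hr, hc⟩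
          have := ih (Polynomial.C (h.coeff m) * r -
            Polynomial.C (r.coeff n) * (Polynomial.X ^ (n - m) * h)) (fun j hj => by
            rw [coeff_sub, Polynomial.coeff_C_mul, Polynomial.coeff_C_mul, coeff_X_pow_mul',
              if_pos (by omega)]
            rcases hj.eq_or_lt with rfl | hj
            · rw [show n - (n - m) = m by omega]; ring
            · rw [hr j hj, natDegree_le_iff_coeff_eq_zero.mp h2 (j - (n - m)) (by omega)]; ring)
            (by simp [h0, h1])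
          refine i3 _ _ h3 ?_
          simpa using add_mem this (I.mul_mem_left (Polynomial.C (r.coeff n))
            (I.mul_mem_left (Polynomial.X ^ (n - m)) i1))
    exact fun r => key (r.natDegree + 1) r fun j hj => coeff_eq_zero_of_natDegree_lt hj

variable {α β β' : Type}

instance : IsDomain (PS α) := NoZeroDivisors.to_isDomain _

instance : CharZero (PS α) := algebraRat.charZero _

/-- the ring of convergent series -/
def O (β : Type) : Subring (PS β) where
  carrier := {f | Cv f}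
  mul_mem' {a b} (_ : Cv a) (_ : Cv b) := inferInstanceAs (Cv _)
  one_mem' := inferInstanceAs (Cv _)
  add_mem' {a b} (_ : Cv a) (_ : Cv b) := inferInstanceAs (Cv _)
  zero_mem' := inferInstanceAs (Cv _)
  neg_mem' {a} (_ : Cv a) := inferInstanceAs (Cv _)

instance (f : O β) : Cv (f : PS β) := f.2

variable [Finite β] [Finite β']

/-- polynomials over convergent series as series -/
def evp : Polynomial (O β) →+* PS (Option β) :=
  Polynomial.eval₂RingHom ((R some).toRingHom.comp (O β).subtype) (X none)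

lemma evp_C (c : O β) : evp (Polynomial.C c) = R some (c : PS β) := by simp [evp]

lemma evp_X : evp (Polynomial.X : Polynomial (O β)) = X none := by simp [evp]

lemma pd_none_up (f : PS β) : pd none (R some f) = 0 :=
  pd_S_zero _ _ (fun _ => pderiv_X_of_ne (by simp)) f

lemma evp_prop (h : Polynomial (O β)) :
    Cv (evp h) ∧ pd none (evp h) = evp (Polynomial.derivative h) := by
  induction h using Polynomial.induction_on with
  | C a => exact ⟨by rw [evp_C]; infer_instance, by simp [evp_C, pd_none_up]⟩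
  | add p q hp hq =>
    obtain ⟨_, hp⟩ := hp
    obtain ⟨_, hq⟩ := hq
    exact ⟨by rw [map_add]; infer_instance, by simp [hp, hq]⟩
  | monomial n a _ =>
    exact ⟨by rw [map_mul, map_pow, evp_C, evp_X]; infer_instance,
      by simp [evp_C, evp_X, pd_none_up]⟩

lemma evp_pol {p : ℕ} (r : Fin p → PS β) [h : ∀ j, Cv (r j)] :
    evp (∑ j, Polynomial.C (⟨r j, h j⟩ : O β) * Polynomial.X ^ (j : ℕ)) = pol r := by
  simp [evp_C, evp_X, pol]

lemma S_inv {φ : β → PS β'} {ψ : β' → PS β} (h : ∀ i, S ψ (φ i) = X i) (f : PS β) :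
    S ψ (S φ f) = f := by rw [S_S, S_eq_self h]

/-- conclusion of the Jacobian lemma -/
def Jac (a : β → PS α) : Prop := ∃ (r : ℕ) (h : Fin r → PS β) (e : Fin r → β),
  (∀ i, Cv (h i)) ∧ (∀ i, S a (h i) = 0) ∧
    (Matrix.of fun i k => S a (pd (e k) (h i))).det ≠ 0 ∧
    ∀ F, Cv F → S a F = 0 → ∃ c, S a c ≠ 0 ∧ c * F ∈ Ideal.span (Set.range h)

lemma Jac.transport {a : β → PS α} (φ : β → PS β') (ψ : β' → PS β) [∀ i, Cv (φ i)]
    [∀ i, Cv (ψ i)] (h1 : ∀ i, S φ (ψ i) = X i) (h2 : ∀ i, S ψ (φ i) = X i)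
    (H : Jac fun i => S a (ψ i)) : Jac a := by
  have := Fintype.ofFinite β
  obtain ⟨r, h, e, j1, j2, j3, j4⟩ := H
  have k1 : ∀ f, S (fun i => S a (ψ i)) (S φ f) = S a f := fun f => by rw [← S_S, S_inv h2]
  obtain ⟨e', he⟩ := exists_minor (.of fun i j => S a (pd j (S ψ (h i))))
    (.of fun j k => S (fun i => S a (ψ i)) (pd (e k) (φ j))) (by
      convert j3
      ext1 i k
      conv_rhs => rw [Matrix.of_apply, ← S_inv h1 (h i), pd_S]
      simp [Matrix.mul_apply, k1])
  refine ⟨r, fun i => S ψ (h i), e', inferInstance, fun i => by rw [S_S, j2], he, fun F _ hF => ?_⟩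
  obtain ⟨c, h3, h4⟩ := j4 (S φ F) inferInstance (by rw [k1, hF])
  refine ⟨S ψ c, by rwa [S_S], ?_⟩
  have := Ideal.mem_map_of_mem (S ψ) h4
  rwa [map_mul, S_inv h2, Ideal.map_span, ← Set.range_comp] at this

lemma jac_trivial {a : β → PS α} (h : ∀ F, Cv F → S a F = 0 → F = 0) : Jac a :=
  ⟨0, Fin.elim0, Fin.elim0, fun i => i.elim0, fun i => i.elim0, by simp, fun F h1 h2 =>
    ⟨1, by simp, by simp [h F h1 h2]⟩⟩

lemma jac_step {a : Option β → PS α} (H : Jac fun i => a (some i)) {W : PS (Option β)} [hW : Cv W]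
    (h0 : S a W = 0) {p : ℕ} (hp : Reg W p) : Jac a := by
  obtain ⟨r, h, e, j1, j2, j3, j4⟩ := H
  obtain ⟨q, c, p1, -, p2, p3⟩ := hp.prep
  obtain ⟨-, p3⟩ := p3 hW
  set w : Polynomial (O β) := Polynomial.X ^ p +
    ∑ j, Polynomial.C (⟨c j, p3 j⟩ : O β) * Polynomial.X ^ (j : ℕ) with hw
  have w1 : evp w = q * W := by rw [hw, map_add, evp_pol, map_pow, evp_X, p2]
  have w2 : (S a).toRingHom.comp evp w = 0 := by simp [w1, h0]
  obtain ⟨g, g1, g2, g3⟩ := poly_sat ((S a).toRingHom.comp evp) ⟨p, w, w2,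
    Polynomial.natDegree_le_iff_coeff_eq_zero.mpr fun j hj => by
      simp [hw, Polynomial.coeff_X_pow, hj.ne', (Fin.is_lt _).trans hj |>.ne'], by
      simp [hw, Polynomial.coeff_X_pow, (Fin.is_lt _).ne']⟩
  set h' : Fin (r + 1) → PS (Option β) := Fin.cons (evp g) fun i => R some (h i) with hh
  let I : Ideal (PS (Option β)) :=
    { carrier := {F | ∃ c, S a c ≠ 0 ∧ c * F ∈ Ideal.span (Set.range h')}
      zero_mem' := ⟨1, by simp, by simp⟩
      add_mem' := by
        rintro F G ⟨c, h1, h2⟩ ⟨d, h3, h4⟩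
        refine ⟨c * d, by simp [h1, h3], ?_⟩
        convert add_mem (Ideal.mul_mem_left _ d h2) (Ideal.mul_mem_left _ c h4) using 1
        ring
      smul_mem' := by
        rintro b F ⟨c, h1, h2⟩
        exact ⟨c, h1, by rw [smul_eq_mul, mul_left_comm]; exact Ideal.mul_mem_left _ _ h2⟩ }
  have hI : ∀ c F, S a c ≠ 0 → c * F ∈ I → F ∈ I := by
    rintro c F h1 ⟨d, h2, h3⟩
    exact ⟨d * c, by simp [h1, h2], by rwa [mul_assoc]⟩
  have g4 := g3 (I.comap evp) ⟨1, by simp, by
    rw [one_mul]; exact Ideal.subset_span ⟨0, rfl⟩⟩ (fun b hb => by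
      obtain ⟨d, h1, h2⟩ := j4 b inferInstance (by simpa [evp_C, S_R] using hb)
      refine ⟨R some d, by rwa [S_R], ?_⟩
      have := Ideal.mem_map_of_mem (R some) h2
      rw [map_mul, Ideal.map_span, ← Set.range_comp] at this
      rw [evp_C]
      exact Ideal.span_mono (by rintro _ ⟨i, rfl⟩; exact ⟨i.succ, rfl⟩) this)
    fun b s h1 h2 => hI _ _ h1 (by rwa [Ideal.mem_comap, map_mul] at h2)
  have hWI : W ∈ I := hI q W (fun h1 => p1 (by simpa using congrArg cc h1)) (w1 ▸ g4 w w2)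
  refine ⟨r + 1, h', Fin.cons none fun k => some (e k), fun i => ?_, fun i => ?_, ?_,
    fun F hF h1 => ?_⟩
  · refine Fin.cases (evp_prop g).1 (fun i => ?_) i
    simp only [hh, Fin.cons_succ]; infer_instance
  · refine Fin.cases g1 (fun i => ?_) i
    simp only [hh, Fin.cons_succ, S_R, j2]
  · rw [Matrix.det_succ_column_zero, Fin.sum_univ_succ, sum_eq_zero fun i _ => by
      simp [hh, pd_none_up]]
    simp only [hh, Matrix.of_apply, Fin.cons_zero, (evp_prop g).2, Fin.val_zero, pow_zero, one_mul,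
      add_zero]
    refine mul_ne_zero g2 ?_
    convert j3
    ext1 i k
    simp [pd_R_inj (Option.some_injective _), S_R]
  · obtain ⟨q', s, d1, d2⟩ := hp.div F
    obtain ⟨-, d2⟩ := d2 hF hW
    have := g4 _ (show S a (evp (∑ j, Polynomial.C (⟨s j, d2 j⟩ : O β) *
      Polynomial.X ^ (j : ℕ))) = 0 by rw [evp_pol]; simpa [d1, h0] using h1)
    rw [Ideal.mem_comap, evp_pol] at this
    exact d1 ▸ add_mem (I.mul_mem_left _ hWI) this

omit [Finite β] in
lemma eq_C_of_isEmpty [IsEmpty β] (f : PS β) : f = C (cc f) := by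
  ext d
  rw [Subsingleton.elim d 0]; simp

/-- the Jacobian lemma -/
theorem jac (a : β → PS α) : Jac a := by
  suffices ∀ (β : Type) [Finite β], ∀ [Finite β] (a : β → PS α), Jac a from this β a
  refine Finite.induction_empty_option (fun {β β'} e H _ a => ?_) (fun a => ?_)
    fun {β} _ H _ a => ?_
  · have := Finite.of_equiv _ e.symm
    exact .transport (fun i => X (e.symm i)) (fun i => X (e i)) (by simp) (by simp) (H _)
  · refine jac_trivial fun F _ h => ?_
    rw [eq_C_of_isEmpty F, ← cc_S a, h]; simp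
  · by_cases h : ∀ F, Cv F → S a F = 0 → F = 0
    · exact jac_trivial h
    push Not at h
    obtain ⟨F, h1, h2, h3⟩ := h
    obtain ⟨φ, ψ, _, _, -, -, h4, h5, p, hp⟩ := exists_shear h3
    exact .transport φ ψ h4 h5 (jac_step (H _) (by rw [← S_S, S_inv h5, h2]) hp)

end

end Pool.Agent.Lib.MP_547e2f_an
end
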