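import Pool.Agent.Lib.MP_547e2f_an.Jac

-- part Pool.Agent.Lib.MP_547e2f_an.Ploski
section

/-!
The Bourbaki-Tougeron implicit function theorem and the parametrized Artin approximation theorem
of Ploski for analytic equations.
-/

namespace Pool.Agent.Lib.MP_547e2f_an

open MvPowerSeries Finset Sum

noncomputable section

variable {α α' β ι ξ κ : Type}

lemma S_elim [Finite α] [Finite ι] [Finite ξ] (θ : ξ → PS β) (a : α → PS ξ) (b : ι → PS ξ)
    (f : PS (α ⊕ ι)) : S θ (S (Sum.elim a b) f) =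
      S (Sum.elim (fun i => S θ (a i)) fun i => S θ (b i)) f := by
  rw [S_S]; exact S_congr (fun i => by cases i <;> rfl) f

lemma S_det [Finite α] [Fintype κ] [DecidableEq κ] (a : α → PS β) (M : κ → κ → PS α) :
    S a (Matrix.of M).det = (Matrix.of fun i j => S a (M i j)).det := (S a).map_det _

lemma tougeron [Finite β] [Finite ι] [Finite ξ] [Fintype κ] [DecidableEq κ]
    (h : κ → PS (β ⊕ ι)) (e : κ → ι) (b : β → PS ξ) (y s : ι → PS ξ) (a Q : PS ξ) (ε : κ → PS ξ)
    [∀ i, Cv (h i)] [∀ i, Cv (b i)] [∀ i, Cv (y i)] [∀ i, Cv (s i)] [Cv a] [Cv Q] [∀ i, Cv (ε i)]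
    [∀ i, Z (b i)] [∀ i, Z (y i)] [∀ i, Z (s i)] [∀ i, Z (ε i)] (hQ : cc Q ≠ 0) (ha : a ≠ 0)
    (h1 : ∀ i, S (Sum.elim b y) (h i) = a * a * ε i)
    (h2 : (Matrix.of fun i k => S (Sum.elim b y) (pd (inr (e k)) (h i))).det = a * Q) :
    ∃ Y : ι → PS ξ, (∀ i, Cv (Y i)) ∧ (∀ i, Z (Y i)) ∧ (∀ i, S (Sum.elim b Y) (h i) = 0) ∧
      ∀ θ : ξ → PS α, (∀ i, Z (θ i)) → S θ a ≠ 0 →
        (∀ i, S θ (S (Sum.elim b fun ν => y ν + a * a * s ν) (h i)) = 0) →
        ∀ ν, S θ (Y ν) = S θ (y ν + a * a * s ν) := by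
  classical
  have := Fintype.ofFinite β
  have := Fintype.ofFinite ι
  set w : ι → PS (ξ ⊕ κ) := fun ν => R inl (a * s ν) + ∑ k, if e k = ν then X (inr k) else 0
    with hw
  have : ∀ ν, Z (w ν) := fun ν => by simp only [hw]; infer_instance
  have : ∀ ν, Cv (w ν) := fun ν => by simp only [hw]; infer_instance
  choose q q1 q2 using fun i => taylor2 (h i)
    (Sum.elim (fun j => R inl (b j)) fun j => R inl (y j))
    (Sum.elim (fun _ => 0) fun ν => R inl a * w ν)
  have : ∀ i j k, Cv (q i j k) := fun i => q2 i inferInstance inferInstance inferInstance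
  set M := Matrix.of fun i k => S (Sum.elim b y) (pd (inr (e k)) (h i)) with hM
  have : ∀ i k, Cv (M i k) := fun i k => by simp only [hM, Matrix.of_apply]; infer_instance
  set G : κ → PS (ξ ⊕ κ) := fun i => R inl Q * X (inr i) + ∑ l, R inl (M.adjugate i l) *
    (R inl (ε l) + ∑ ν, R inl (s ν * S (Sum.elim b y) (pd (inr ν) (h l))) +
      ∑ ν, ∑ μ, w ν * w μ * q l (inr ν) (inr μ)) with hG
  have : ∀ i, Z (G i) := fun i => by simp only [hG]; infer_instance
  have key : ∀ i, ∑ l, R inl (M.adjugate i l) * S (Sum.elim (fun j => R inl (b j))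
      fun ν => R inl (y ν) + R inl a * w ν) (h l) = R inl a * R inl a * G i := by
    intro i
    have k1 : ∀ l, S (Sum.elim (fun j => R inl (b j)) fun ν => R inl (y ν) + R inl a * w ν) (h l)
        = R inl a * R inl a * (R inl (ε l) + ∑ ν, R inl (s ν * S (Sum.elim b y) (pd (inr ν) (h l))) +
          ∑ ν, ∑ μ, w ν * w μ * q l (inr ν) (inr μ)) + R inl a * ∑ k, R inl (M l k) * X (inr k) := by
      intro l
      refine (S_congr (fun i => by cases i <;> simp) _).trans ((q1 l).trans ?_)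
      simp only [← S_elim, h1, Fintype.sum_sum_type, elim_inl, elim_inr, zero_mul, mul_zero,
        sum_const_zero, zero_add, map_mul, mul_add, mul_sum, hM, Matrix.of_apply]
      have : ∀ ν, R inl a * w ν * R inl (S (Sum.elim b y) (pd (inr ν) (h l))) =
          R inl a * R inl a * (R inl (s ν) * R inl (S (Sum.elim b y) (pd (inr ν) (h l)))) +
          ∑ k, if e k = ν then R inl a * (R inl (S (Sum.elim b y) (pd (inr ν) (h l))) * X (inr k))
            else 0 := fun ν => by
        simp only [hw, map_mul, mul_add, add_mul, mul_sum, sum_mul, mul_ite, ite_mul, mul_zero,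
          zero_mul]
        congr 1
        · ring
        · exact sum_congr rfl fun k _ => if_congr Iff.rfl (by ring) rfl
      rw [sum_congr rfl fun ν _ => this ν, sum_add_distrib, sum_comm (f := fun ν k => ite _ _ _)]
      simp only [sum_ite_eq, mem_univ, if_true]
      rw [sum_congr rfl fun ν _ => sum_congr rfl fun μ _ => show R inl a * w ν * (R inl a * w μ) *
        q l (inr ν) (inr μ) = R inl a * R inl a * (w ν * w μ * q l (inr ν) (inr μ)) by ring]
      ring
    have k2 : ∑ l, R inl (M.adjugate i l) * ∑ k, R inl (M l k) * X (inr k) =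
        (R inl a * R inl Q * X (inr i) : PS (ξ ⊕ κ)) := by
      have k3 := fun k => congrFun (congrFun M.adjugate_mul i) k
      simp only [Matrix.mul_apply, h2, Matrix.smul_apply, Matrix.one_apply, smul_eq_mul] at k3
      simp only [mul_sum, ← mul_assoc, ← map_mul]
      rw [sum_comm]
      simp only [← sum_mul, ← map_sum, k3]
      rw [sum_eq_single i (fun k _ hk => by simp [hk.symm]) (by simp)]
      simp
    simp only [k1, hG, mul_add (R inl (M.adjugate _ _)), sum_add_distrib,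
      mul_left_comm (R inl (M.adjugate _ _)), ← mul_sum, k2]
    ring
  have hL : (Matrix.of fun i j => cc (pd (inr j) (G i))).det ≠ 0 := by
    rw [show (Matrix.of fun i j => cc (pd (inr j) (G i))) = Matrix.diagonal fun _ => cc Q by
      ext i j
      by_cases h : i = j <;> simp [hG, pd_mul, h, -Derivation.leibniz]]
    simp [hQ]
  obtain ⟨u, _, u2, u3⟩ := ift G hL
  have := u3 fun i => by simp only [hG]; infer_instance
  refine ⟨fun ν => S (Sum.elim X u) (R inl (y ν) + R inl a * w ν), inferInstance, inferInstance,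
    fun i => ?_, fun θ _ t1 t2 ν => ?_⟩
  · have k1 : M.adjugate.mulVec (fun l => S (Sum.elim b fun ν => S (Sum.elim X u)
        (R inl (y ν) + R inl a * w ν)) (h l)) = 0 := funext fun i => by
      have := congrArg (S (Sum.elim X u)) (key i)
      simpa [S_elim, S_R, u2, -map_add, Matrix.mulVec, dotProduct] using this
    have k2 := congrArg M.mulVec k1
    rw [Matrix.mulVec_mulVec, M.mul_adjugate, h2, Matrix.smul_mulVec, Matrix.one_mulVec,
      Matrix.mulVec_zero] at k2
    exact (mul_eq_zero.mp (congrFun k2 i)).resolve_left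
      (mul_ne_zero ha fun h0 => hQ (by simp [h0]))
  · have k1 : ∀ ν, S (Sum.elim θ fun _ => 0) (R inl (y ν) + R inl a * w ν) =
        S θ (y ν + a * a * s ν) := fun ν => by simp [hw, S_R, apply_ite, mul_assoc]
    have k2 := ift_unique G hL θ (fun i => S θ (u i)) (fun _ => 0) fun i => by
      have k3 := congrArg (S (Sum.elim θ fun _ => 0)) (key i)
      have k4 := congrArg (S θ) (u2 i)
      simp only [S_elim] at t2
      simp only [map_sum, map_mul, S_elim, k1, S_R, elim_inl, t2, mul_zero, sum_const_zero] at k3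
      rw [(mul_eq_zero.mp k3.symm).resolve_left (mul_ne_zero t1 t1)]
      simpa [S_elim] using k4
    rw [S_elim, k2, ← k1]
    simp

/-- convergent parametrization of solutions through a formal solution -/
def Pl [Finite α] [Finite ι] (K : PS (α ⊕ ι) → Prop) (y : ι → PS α) : Prop :=
  ∃ (τ : Type) (_ : Finite τ) (Y : ι → PS (α ⊕ τ)) (t : τ → PS α), (∀ i, Cv (Y i)) ∧
    (∀ i, Z (Y i)) ∧ (∀ i, Z (t i)) ∧
    (∀ F, K F → S (Sum.elim (fun i => X (inl i)) Y) F = 0) ∧ ∀ i, S (Sum.elim X t) (Y i) = y i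

variable [Finite α] [Finite α'] [Finite ι]

lemma Pl.transport {K : PS (α ⊕ ι) → Prop} {K' : PS (α' ⊕ ι) → Prop} {y : ι → PS α}
    (φ : α → PS α') (ψ : α' → PS α) [∀ i, Cv (ψ i)] [∀ i, Z (ψ i)]
    (h : ∀ i, S ψ (φ i) = X i)
    (hK : ∀ F, K F → K' (S (Sum.elim (fun i => R inl (φ i)) fun i => X (inr i)) F))
    (H : Pl K' fun i => S φ (y i)) : Pl K y := by
  obtain ⟨τ, _, Y, t, _, _, _, h1, h2⟩ := H
  refine ⟨τ, inferInstance, fun i => S (Sum.elim (fun j => R inl (ψ j)) fun j => X (inr j)) (Y i),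
    fun j => S ψ (t j), inferInstance, inferInstance, inferInstance, fun F hF => ?_, fun i => ?_⟩
  · have := congrArg (S (Sum.elim (fun j => R inl (ψ j)) fun j => X (inr j))) (h1 _ (hK F hF))
    simpa [S_elim, S_R, ← S_S, h] using this
  · have := congrArg (S ψ) (h2 i)
    simpa [S_elim, S_R, S_inv h] using this

lemma S_pol [Finite β] (σ : Option β → PS ξ) [Z (σ none)] {p : ℕ} (r : Fin p → PS β) :
    S σ (pol r) = ∑ j, S (fun i => σ (some i)) (r j) * σ none ^ (j : ℕ) := by
  simp [pol, S_R]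

lemma pl_reg (IH : ∀ (ι : Type) [Finite ι] (y : ι → PS α) [∀ i, Z (y i)],
      Pl (fun F => Cv F ∧ S (Sum.elim X y) F = 0) y)
    (y : ι → PS (Option α)) [∀ i, Z (y i)] {r : ℕ} (h : Fin r → PS (Option α ⊕ ι))
    [∀ i, Cv (h i)] (e : Fin r → ι) (h0 : ∀ i, S (Sum.elim X y) (h i) = 0) {p : ℕ}
    (hp : Reg (S (Sum.elim X y) (Matrix.of fun i k => pd (inr (e k)) (h i)).det) p) :
    Pl (fun F => ∃ i, F = h i) y := by
  set D := (Matrix.of fun i k => pd (inr (e k)) (h i)).det with hD
  have : Cv D := by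
    have : ∀ i k, Cv (Matrix.of (fun i k => pd (inr (e k)) (h i)) i k) := fun i k => by
      rw [Matrix.of_apply]; infer_instance
    infer_instance
  obtain ⟨q0, a0, p1, _, p2, -⟩ := hp.prep
  set a := X none ^ p + pol a0 with ha
  have ra : Reg a p := reg_dist a0
  have ra2 := (ra.mul ra).mul reg_X
  choose q v hv _ using fun ν => ra2.div (y ν)
  set ga : PS (Option (α ⊕ (ι × Fin (p + p + 1)) ⊕ Fin p)) :=
    X none ^ p + pol fun j => X (inr (inr j)) with hga
  have rg : Reg ga p := reg_dist _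
  set gV : ι → PS (Option (α ⊕ (ι × Fin (p + p + 1)) ⊕ Fin p)) :=
    fun ν => pol fun j => C (cc (v ν j)) + X (inr (inl (ν, j))) with hgV
  have : ∀ ν, Z (pol (v ν)) := fun ν => by
    rw [eq_sub_of_add_eq' (hv ν).symm]; infer_instance
  have : ∀ ν, Z (gV ν) := fun ν => ⟨by
    have := (this ν).out
    simp only [cc, ← coeff_zero_eq_constantCoeff_apply, hgV, coeff_pol] at this ⊢
    simpa using this⟩
  have : Cv ga := by rw [hga]; infer_instance
  have : ∀ ν, Cv (gV ν) := fun ν => by simp only [hgV]; infer_instance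
  set Γ : Option α ⊕ ι → PS (Option (α ⊕ (ι × Fin (p + p + 1)) ⊕ Fin p)) :=
    Sum.elim (fun i => i.elim (X none) fun i => X (some (inl i))) gV with hΓ
  have : ∀ i, Cv (Γ i) := fun i => by simp only [hΓ]; infer_instance
  choose Q H d1 d2 using fun i => ((rg.mul rg).mul reg_X).div (S Γ (h i))
  obtain ⟨Q0, G, d3, d4⟩ := rg.div (S Γ D)
  obtain ⟨_, d4⟩ := d4 inferInstance inferInstance
  have : ∀ i, Cv (Q i) := fun i => (d2 i inferInstance inferInstance).1
  set y' : (ι × Fin (p + p + 1)) ⊕ Fin p → PS α :=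
    Sum.elim (fun k => v k.1 k.2 - C (cc (v k.1 k.2))) a0 with hy'
  have : ∀ i, Z (y' i) := fun i => by simp only [hy']; infer_instance
  obtain ⟨τ, _, Y', t', _, _, _, i1, i2⟩ := IH _ y'
  set σ0 : Option (α ⊕ (ι × Fin (p + p + 1)) ⊕ Fin p) → PS (Option α) :=
    fun i => i.elim (X none) fun k => R some (Sum.elim X y' k) with hσ0
  have : ∀ i, Z (σ0 i) := fun i => by simp only [hσ0]; infer_instance
  have z1 : σ0 none = X none := rfl
  have z2 : ∀ k, σ0 (some k) = R some (Sum.elim X y' k) := fun _ => rfl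
  have s1 : ∀ {m : ℕ} (c : Fin m → PS (α ⊕ (ι × Fin (p + p + 1)) ⊕ Fin p)),
      S σ0 (pol c) = pol fun j => S (Sum.elim X y') (c j) := fun c => by
    rw [S_pol]; simp only [z1, z2, ← S_S, pol]
  have s2 : S σ0 ga = a := by simp [hga, s1, z1, hy', ha]
  have s3 : ∀ f, S σ0 (S Γ f) = S (Sum.elim X fun ν => pol (v ν)) f := fun f => by
    rw [S_S]
    refine S_congr (fun i => ?_) f
    rcases i with (_ | i) | ν
    · simp [hΓ, hσ0]
    · simp [hΓ, hσ0]
    · simp [hΓ, hgV, s1, hy']
  have s4 : ∀ f, a * a * X none ∣ S (Sum.elim X y) f - S σ0 (S Γ f) := fun f => by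
    rw [s3, ← Ideal.mem_span_singleton]
    refine sub_S_mem _ f _ _ fun i => ?_
    cases i with
    | inl i => simp
    | inr ν => exact Ideal.mem_span_singleton.mpr ⟨q ν, by
        simp only [elim_inr]; linear_combination hv ν⟩
  have s5 : ∀ i j, S (Sum.elim X y') (H i j) = 0 := fun i => ra2.unique (by
    have := s4 (h i)
    rw [h0, d1, map_add, s1, zero_sub, dvd_neg] at this
    exact (dvd_add_right (by simp [s2, z1])).mp this)
  obtain ⟨q1, p3, -⟩ := exists_inv q0 p1
  obtain ⟨c, s6⟩ := s4 D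
  rw [d3, map_add, s1, map_mul, s2] at s6
  have s7 : ∀ j, S (Sum.elim X y') (G j) = 0 := ra.unique
    ⟨q1 - S σ0 Q0 - a * X none * c, by linear_combination -s6 - q1 * p2 - S (Sum.elim X y) D * p3⟩
  have s8 : cc Q0 ≠ 0 := fun h1 => by
    have h2 : 1 - q0 * S σ0 Q0 = q0 * a * X none * c := mul_left_cancel₀ ra.ne_zero (by
      simp only [s7, pol, map_zero, zero_mul, sum_const_zero, add_zero] at s6
      linear_combination q0 * s6 + p2)
    simpa [h1] using congrArg cc h2
  set σ : Option (α ⊕ (ι × Fin (p + p + 1)) ⊕ Fin p) → PS (Option α ⊕ τ ⊕ ι) :=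
    fun i => i.elim (X (inl none)) fun k => R (Sum.map some inl)
      (Sum.elim (fun i => X (inl i)) Y' k) with hσ
  have : ∀ i, Z (σ i) := fun i => by simp only [hσ]; infer_instance
  have : ∀ i, Cv (σ i) := fun i => by simp only [hσ]; infer_instance
  have t1 : ∀ {m : ℕ} (c : Fin m → PS (α ⊕ (ι × Fin (p + p + 1)) ⊕ Fin p)), (∀ j, Cv (c j)) →
      (∀ j, S (Sum.elim X y') (c j) = 0) → S σ (pol c) = 0 := fun c h1 h2 => by
    simp [S_pol, hσ, ← S_S, i1 _ ⟨h1 _, h2 _⟩]
  have t2 : ∀ f, S (Sum.elim (fun i => X (inl i)) fun ν => S σ (gV ν)) f = S σ (S Γ f) :=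
    fun f => by
    rw [S_S]
    refine S_congr (fun i => ?_) f
    rcases i with (_ | i) | ν <;> simp [hΓ, hσ]
  set θ : Option α ⊕ τ ⊕ ι → PS (Option α) :=
    Sum.elim X (Sum.elim (fun i => R some (t' i)) fun ν => X none * q ν) with hθ
  have : ∀ i, Z (θ i) := fun i => by simp only [hθ]; infer_instance
  have t3 : ∀ f, S θ (S σ f) = S σ0 f := fun f => by
    rw [S_S]
    refine S_congr (fun i => ?_) f
    have : ∀ g, S θ (R (Sum.map some inl) g) = R some (S (Sum.elim X t') g) := fun g => by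
      rw [S_R, S_S]
      exact S_congr (fun i => by cases i <;> simp [hθ]) g
    rcases i with _ | i | i
    · simp [hθ, hσ, hσ0]
    · simp [hθ, hσ, hσ0]
    · simp [hσ, hσ0, this, i2]
  have t4 : S θ (S σ ga) ≠ 0 := by rw [t3, s2]; exact ra.ne_zero
  obtain ⟨Y, _, _, u1, u2⟩ := tougeron (α := Option α) h e (fun i => X (inl i))
    (fun ν => S σ (gV ν)) (fun ν => X (inr (inr ν))) (S σ ga) (S σ Q0)
    (fun i => X (inl none) * S σ (Q i)) (by simpa using s8) (fun h1 => t4 (by rw [h1, map_zero]))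
    (fun i => by
      rw [t2, d1, map_add, t1 _ (d2 i inferInstance inferInstance).2 (s5 i)]
      simp [hσ]; ring)
    (by rw [← S_det, t2, d3, map_add, t1 _ d4 s7, map_mul]; ring)
  have t5 : ∀ ν, S θ (S σ (gV ν) + S σ ga * S σ ga * X (inr (inr ν))) = y ν := fun ν => by
    have := s3 (X (inr ν))
    simp only [hΓ, S_XZ, elim_inr] at this
    simp only [map_add, map_mul, t3, s2, S_XZ, this]
    simp only [hθ, elim_inr]
    linear_combination -hv ν
  refine ⟨τ ⊕ ι, inferInstance, Y, _, ‹_›, ‹_›, inferInstance, ?_, fun ν =>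
    (u2 θ ‹_› t4 (fun i => ?_) ν).trans (t5 ν)⟩
  · rintro _ ⟨i, rfl⟩; exact u1 i
  · simp only [S_elim, t5]
    simpa [hθ] using h0 i

/-- Ploski's parametrized version of the Artin approximation theorem -/
theorem ploski (y : ι → PS α) [∀ i, Z (y i)] :
    Pl (fun F => Cv F ∧ S (Sum.elim X y) F = 0) y := by
  suffices ∀ (α : Type) [Finite α], ∀ [Finite α] (ι : Type) [Finite ι] (y : ι → PS α)
    [∀ i, Z (y i)], Pl (fun F => Cv F ∧ S (Sum.elim X y) F = 0) y from this α ι y
  refine Finite.induction_empty_option (fun {α α'} e H _ ι _ y _ => ?_) (fun ι _ y _ => ?_)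
    fun {α} _ H _ ι _ y _ => ?_
  · have := Finite.of_equiv _ e.symm
    refine .transport (fun i => X (e.symm i)) (fun i => X (e i)) (by simp) ?_ (H _ _)
    rintro F ⟨_, h⟩
    refine ⟨inferInstance, ?_⟩
    simpa [S_elim] using congrArg (R e.symm) h
  · refine ⟨PEmpty, inferInstance, fun _ => 0, fun _ => 0, inferInstance, inferInstance,
      inferInstance, fun F h => ?_, fun i => by rw [eq_C_of_isEmpty (y i)]; simp⟩
    rw [eq_C_of_isEmpty (S _ F), cc, cc_S, ← cc_S (Sum.elim X y), h.2]; simp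
  · classical
    have := Fintype.ofFinite ι
    obtain ⟨r, h, e, _, j2, j3, j4⟩ := jac (Sum.elim X y)
    obtain ⟨e', he⟩ := exists_minor (.of fun i ν => S (Sum.elim X y) (pd (inr ν) (h i)))
      (.of fun ν k => (e k).elim (fun j => -pd j (y ν)) fun μ => if ν = μ then 1 else 0) (by
        convert j3
        ext1 i k
        simp only [Matrix.mul_apply, Matrix.of_apply]
        cases e k with
        | inl j =>
          have := pd_S (Sum.elim X y) j (h i)
          rw [j2, map_zero, Fintype.sum_sum_type, sum_eq_single j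
            (fun b _ hb => by simp [hb]) (by simp)] at this
          simp only [elim_inl, elim_inr, pderiv_X_self, mul_one, mul_neg, sum_neg_distrib] at this ⊢
          linear_combination this
        | inr μ => simp)
    obtain ⟨φ, ψ, _, _, _, _, -, h5, p, hp⟩ := exists_shear he
    have k1 : ∀ f, S (Sum.elim X fun i => S φ (y i))
        (S (Sum.elim (fun i => R inl (φ i)) fun i => X (inr i)) f) = S φ (S (Sum.elim X y) f) :=
      fun f => by simp [S_elim, S_R]
    obtain ⟨τ, _, Y, t, _, _, _, h1, h2⟩ : Pl (fun F => ∃ i, F = h i) y :=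
      .transport φ ψ h5 (by rintro _ ⟨i, rfl⟩; exact ⟨i, rfl⟩) (pl_reg H (fun i => S φ (y i))
        (fun i => S (Sum.elim (fun i => R inl (φ i)) fun i => X (inr i)) (h i)) e'
        (fun i => by rw [k1, j2, map_zero]) (p := p) (by
          convert hp
          rw [S_det, AlgHom.map_det]
          congr 1
          ext1 i k
          rw [Matrix.of_apply, pd_S_single _ _ (inr (e' k))
            (fun j hj => by cases j <;> simp_all) (by simp), k1]
          rfl))
    refine ⟨τ, ‹_›, Y, t, ‹_›, ‹_›, ‹_›, fun F hF => ?_, h2⟩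
    obtain ⟨c, h3, h4⟩ := j4 F hF.1 hF.2
    have h6 : Ideal.span (Set.range h) ≤ RingHom.ker (S (Sum.elim (fun i => X (inl i)) Y)) :=
      Ideal.span_le.mpr (by rintro _ ⟨i, rfl⟩; exact h1 _ ⟨i, rfl⟩)
    have h7 := h6 h4
    rw [RingHom.mem_ker, map_mul] at h7
    refine (mul_eq_zero.mp h7).resolve_left fun h8 => h3 ?_
    simpa [S_elim, h2] using congrArg (S (Sum.elim X t)) h8

end

end Pool.Agent.Lib.MP_547e2f_an
end

-- part Pool.Agent.Lib.MP_547e2f_an.Spec
section

/-!
Specializations of formal maps with respect to convergent relations.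
-/

namespace Pool.Agent.Lib.MP_547e2f_an

open MvPowerSeries Finset Sum
open scoped MvPowerSeries.WithPiTopology ENNReal

noncomputable section

variable {α α' α'' β γ ι τ ω : Type}

/-- `a'` satisfies all convergent relations of `a` -/
def Spec [Finite β] (a : β → PS α) (a' : β → PS α') : Prop :=
  ∀ ψ, Cv ψ → S a ψ = 0 → S a' ψ = 0

section
variable [Finite β] {a : β → PS α} {a' : β → PS α'}

lemma Spec.trans {a'' : β → PS α''} (h : Spec a a') (h' : Spec a' a'') : Spec a a'' :=
  fun ψ h1 h2 => h' ψ h1 (h ψ h1 h2)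

lemma Spec.map [Finite α] (a : β → PS α) (θ : α → PS α') : Spec a fun i => S θ (a i) :=
  fun ψ _ h => by rw [← S_S, h, map_zero]

lemma Spec.comp [Finite γ] (h : Spec a a') (φ : γ → PS β) [∀ i, Cv (φ i)] :
    Spec (fun i => S a (φ i)) fun i => S a' (φ i) := fun ψ _ h2 => by
  rw [← S_S] at h2 ⊢
  exact h _ inferInstance h2

lemma Spec.congr {b : β → PS α} {b' : β → PS α'} (h : Spec a a') (h1 : ∀ i, a i = b i)
    (h2 : ∀ i, a' i = b' i) : Spec b b' := funext h1 ▸ funext h2 ▸ h

lemma pd_lift [Finite α] [Finite τ] (a : β → PS α) (j : τ) (ψ : PS (β ⊕ τ)) :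
    pd (inr j) (S (Sum.elim (fun i => R inl (a i)) fun k => X (inr k)) ψ) =
      S (Sum.elim (fun i => R inl (a i)) fun k => X (inr k)) (pd (inr j) ψ) :=
  pd_S_single _ _ (inr j) (fun i hi => by cases i <;> simp_all) (by simp) ψ

lemma lift_eq_zero [Finite α] [Finite τ] (a : β → PS α) (K : PS (β ⊕ τ) → Prop)
    (hK : ∀ ψ j, K ψ → K (pd (inr j) ψ)) (h0 : ∀ ψ, K ψ → S (Sum.elim a fun _ => 0) ψ = 0)
    (t : τ → PS α) [∀ i, Z (t i)] {ψ : PS (β ⊕ τ)} (h : K ψ) : S (Sum.elim a t) ψ = 0 := by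
  have := taylor_zero (fun f => ∃ ψ, K ψ ∧
    f = S (Sum.elim (fun i => R inl (a i)) fun k => X (inr k)) ψ)
    (by rintro _ j ⟨ψ, h1, rfl⟩; exact ⟨_, hK ψ j h1, pd_lift a j ψ⟩)
    (by rintro _ ⟨ψ, h1, rfl⟩; simpa [S_elim, S_R] using h0 ψ h1) ⟨ψ, h, rfl⟩
  simpa [S_elim, S_R] using congrArg (S (Sum.elim X t)) this

lemma Spec.ext [Finite α] [Finite α'] [Finite τ] [∀ i, Z (a i)] [∀ i, Z (a' i)] (h : Spec a a')
    (t : τ → PS α') [∀ i, Z (t i)] :
    Spec (Sum.elim (fun i => R inl (a i)) fun k => X (inr k)) (Sum.elim a' t) := by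
  intro ψ h1 h2
  refine lift_eq_zero a' (fun ψ => Cv ψ ∧
    S (Sum.elim (fun i => R inl (a i)) fun k => X (inr k)) ψ = 0) ?_ ?_ t ⟨h1, h2⟩
  · rintro ψ j ⟨_, h2⟩
    exact ⟨inferInstance, by rw [← pd_lift, h2, map_zero]⟩
  · rintro ψ ⟨_, h2⟩
    have h3 := congrArg (S (Sum.elim X fun _ => 0)) h2
    simpa [S_elim] using h (S (Sum.elim X fun _ => 0) ψ) inferInstance
      (by simpa [S_elim, S_R] using h3)

end

/-- homogeneous components for a torus action -/
def Tc (w : ω → ℕ) (c c' : ℕ) (f : PS (Option ω)) : PS ω := fun d =>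
  if c' ≤ c + Finsupp.weight w d then coeff (d.optionElim (c + Finsupp.weight w d - c')) f else 0

variable {w : ω → ℕ}

lemma coeff_Tc (c c' : ℕ) (f : PS (Option ω)) (d : ω →₀ ℕ) : coeff d (Tc w c c' f) =
    if c' ≤ c + Finsupp.weight w d then coeff (d.optionElim (c + Finsupp.weight w d - c')) f
      else 0 := rfl

@[fun_prop] lemma cont_Tc (c c' : ℕ) : Continuous fun f => Tc w c c' f := by
  refine cont_iff.mpr fun d => ?_
  simp only [coeff_Tc]
  split_ifs <;> fun_prop

lemma Tc_add (c c' : ℕ) (f g : PS (Option ω)) : Tc w c c' (f + g) = Tc w c c' f + Tc w c c' g := by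
  ext d
  simp only [coeff_Tc, map_add]
  split_ifs <;> simp

lemma Tc_shift (c c' k : ℕ) (f : PS (Option ω)) : Tc w (c + k) (c' + k) f = Tc w c c' f := by
  ext d
  simp only [coeff_Tc]
  exact if_congr (by omega) (by congr 3; omega) rfl

lemma Tc_monomial (c c' : ℕ) (e : Option ω →₀ ℕ) (a : ℂ) : Tc w c c' (monomial e a) =
    if e none + c' = c + Finsupp.weight w e.some then monomial e.some a else 0 := by
  classical
  ext d
  rw [coeff_Tc, apply_ite (coeff d), coeff_monomial, coeff_monomial, ← ite_and, map_zero, ← ite_and]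
  refine if_congr ⟨?_, ?_⟩ rfl rfl
  · rintro ⟨h, rfl⟩
    simp only [Finsupp.optionElim_apply_none, Finsupp.some_optionElim, and_true]
    omega
  · rintro ⟨h, rfl⟩
    exact ⟨by omega, by rw [show c + Finsupp.weight w e.some - c' = e none by omega,
      Finsupp.optionElim_some]⟩

lemma Tc_C (c c' : ℕ) (a : ℂ) : Tc w c c' (C a) = if c' = c then C a else 0 := by
  simpa using Tc_monomial (w := w) c c' 0 a

lemma Tc_mul_C (c c' : ℕ) (f : PS (Option ω)) (a : ℂ) :
    Tc w c c' (f * C a) = Tc w c c' f * C a := by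
  ext d
  simp only [coeff_Tc, coeff_mul_C]
  split_ifs <;> simp

lemma Tc_mul_none (c c' : ℕ) (f : PS (Option ω)) : Tc w c c' (f * X none) = Tc w c (c' + 1) f := by
  refine ind_mono (P := fun f => Tc w c c' (f * X none) = Tc w c (c' + 1) f)
    (isClosed_eq (by fun_prop) (by fun_prop))
    (fun f g hf hg => by simp only [add_mul, Tc_add, hf, hg]) (fun e a => ?_) f
  simp only [X_def, monomial_mul_monomial, Tc_monomial, mul_one, Finsupp.some_add,
    Finsupp.some_single_none, add_zero, Finsupp.add_apply, Finsupp.single_eq_same]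
  exact if_congr (by omega) rfl rfl

lemma Tc_mul_pow (c c' k : ℕ) (f : PS (Option ω)) :
    Tc w c c' (f * X none ^ k) = Tc w c (c' + k) f := by
  induction k generalizing c' with
  | zero => simp
  | succ k ih => rw [pow_succ, ← mul_assoc, Tc_mul_none, ih, add_right_comm, add_assoc]

lemma Tc_mul_some (c c' : ℕ) (i : ω) (f : PS (Option ω)) :
    Tc w c c' (f * X (some i)) = Tc w (c + w i) c' f * X i := by
  refine ind_mono (P := fun f => Tc w c c' (f * X (some i)) = Tc w (c + w i) c' f * X i)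
    (isClosed_eq (by fun_prop) (by fun_prop))
    (fun f g hf hg => by simp only [add_mul, Tc_add, hf, hg]) (fun e a => ?_) f
  simp only [X_def, monomial_mul_monomial, Tc_monomial, mul_one, Finsupp.some_add,
    Finsupp.some_single_some, Finsupp.add_apply, ite_mul, zero_mul, map_add,
    Finsupp.weight_single, one_smul]
  exact if_congr (by simp; omega) rfl rfl

lemma Tc_inj {f : PS (Option ω)} (h : ∀ c c', Tc w c c' f = 0) : f = 0 := by
  ext e
  simpa [coeff_Tc] using congrArg (coeff e.some) (h (e none) (Finsupp.weight w e.some))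

variable [Finite ω]

instance (c c' : ℕ) (f : PS (Option ω)) [Cv f] : Cv (Tc w c c' f) := by
  refine Cv.of_reindex (f := f) (fun d => d.optionElim (c + Finsupp.weight w d - c'))
    (fun d e h => by simpa using congrArg Finsupp.some h) (fun d => ?_) fun t h1 h2 =>
      ⟨fun i => t ^ w i * t, t ^ c, t ^ c', fun i => mul_ne_zero (pow_ne_zero _ h1) h1,
        pow_ne_zero _ h1, ENNReal.pow_ne_top h2, fun d hd => le_of_eq ?_⟩
  · rw [coeff_Tc]; split_ifs <;> simp
  · rw [coeff_Tc] at hd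
    have : c' ≤ c + Finsupp.weight w d := by by_contra h; exact hd (if_neg h)
    rw [mono_scale w t fun _ => t, mono_optionElim, mul_right_comm, mul_right_comm _ _ (t ^ c'),
      ← pow_add, ← pow_add]
    congr 2; omega

/-- the weighted blow-up substitution -/
abbrev blow (w : ω → ℕ) : ω → PS (Option ω) := fun i => X none ^ w i * X (some i)

lemma Tc_mul_blow (c c' : ℕ) (f : PS (Option ω)) (g : PS ω) :
    Tc w c c' (f * S (blow w) g) = Tc w c c' f * g := by
  refine ind (P := fun g => Tc w c c' (f * S (blow w) g) = Tc w c c' f * g)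
    (isClosed_eq (by fun_prop) (by fun_prop)) (fun a => by rw [S_C, Tc_mul_C])
    (fun g h hg hh => by simp only [map_add, mul_add, Tc_add, hg, hh]) (fun g i hg => ?_) g
  rw [map_mul, S_XZ, ← mul_assoc, ← mul_assoc, Tc_mul_some, Tc_mul_pow, Tc_shift, hg, mul_assoc]

lemma blow_inj {g : PS ω} (h : S (blow w) g = 0) : g = 0 := by
  have := Tc_mul_blow (w := w) 0 0 (C 1) g
  rw [h, mul_zero, ← map_zero C, Tc_C, Tc_C] at this
  simpa using this.symm

lemma Spec.blowup [Finite ι] (w : ω → ℕ) {G W : ι → PS ω} [∀ i, Z (G i)] [∀ i, Z (W i)]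
    (h : Spec (Sum.elim X G) (Sum.elim X W)) :
    Spec (Sum.elim X fun i => S (blow w) (G i)) (Sum.elim X fun i => S (blow w) (W i)) := by
  have key : ∀ (G : ι → PS ω) [∀ i, Z (G i)] (ψ : PS (Option (ω ⊕ ι))), (fun c c' => Tc w c c'
      (S (fun i => i.elim (X none) (Sum.elim (fun q => X (some q)) fun i => S (blow w) (G i))) ψ))
      = fun c c' => S (Sum.elim X G) (Tc (Sum.elim w fun _ => 0) c c' ψ) := by
    intro G _ ψ
    refine ind (P := fun ψ => (fun c c' => Tc w c c' (S (fun i : Option (ω ⊕ ι) => i.elim (X none)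
      (Sum.elim (fun q => X (some q)) fun i => S (blow w) (G i))) ψ))
      = fun c c' => S (Sum.elim X G) (Tc (Sum.elim w fun _ => 0) c c' ψ))
      (isClosed_eq (by fun_prop) (by fun_prop)) (fun a => ?_) (fun f g hf hg => ?_)
      (fun f i hf => ?_) ψ <;> funext c c'
    · simp only [S_C, Tc_C]; split_ifs <;> simp
    · simp only [map_add, Tc_add, congrFun₂ hf c c', congrFun₂ hg c c']
    · rcases i with _ | q | i
      · simp [Tc_mul_none, congrFun₂ hf]
      · simp [Tc_mul_some, congrFun₂ hf]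
      · simp [Tc_mul_some, Tc_mul_blow, congrFun₂ hf]
  have key2 : ∀ (G : ι → PS ω) (ψ : PS (Option ω ⊕ ι)),
      S (fun i : Option (ω ⊕ ι) => i.elim (X none) (Sum.elim (fun q => X (some q))
        fun i => S (blow w) (G i))) (R (Sum.elim (Option.map inl) fun i => some (inr i)) ψ) =
      S (Sum.elim X fun i => S (blow w) (G i)) ψ := fun G ψ => by
    rw [S_R]
    exact S_congr (fun i => by rcases i with (_ | q) | i <;> rfl) ψ
  intro ψ _ h2
  rw [← key2] at h2 ⊢
  refine Tc_inj (w := w) fun c c' => (congrFun₂ (key W _) c c').trans (h _ inferInstance ?_)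
  rw [← congrFun₂ (key G _) c c', h2, ← map_zero C, Tc_C]
  simp

end

end Pool.Agent.Lib.MP_547e2f_an
end

-- part Pool.Agent.Lib.MP_547e2f_an.Core
section

/-!
The reflection argument on a manifold with two foliations of finite type.
-/

namespace Pool.Agent.Lib.MP_547e2f_an

open MvPowerSeries Finset Sum

noncomputable section

variable {D ν ν' y U A : Type}

/-- a vector field acting on a series -/
def vf [Fintype A] (V : A → PS A) (f : PS A) : PS A := ∑ q, V q * pd q f

/-- Lie bracket -/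
def br [Fintype A] (V W : A → PS A) : A → PS A := fun q => vf V (W q) - vf W (V q)

section
variable [Fintype A] [Fintype y]

lemma vf_mul (V : A → PS A) (f g : PS A) : vf V (f * g) = f * vf V g + g * vf V f := by
  simp only [vf, pd_mul, mul_add, sum_add_distrib, mul_sum, mul_left_comm]

lemma vf_S (a : y → PS y) (Γ : A → PS y) (f : PS A) :
    vf a (S Γ f) = ∑ q, S Γ (pd q f) * vf a (Γ q) := by
  simp only [vf, pd_S, mul_sum]
  rw [sum_comm]
  exact sum_congr rfl fun _ _ => sum_congr rfl fun _ _ => by ring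

lemma vf_X (V : A → PS A) (q : A) : vf V (X q) = V q := by
  classical
  simp [vf, pd_X]

lemma vf_br (V W : A → PS A) (f : PS A) : vf (br V W) f = vf V (vf W f) - vf W (vf V f) := by
  have : ∀ V W : A → PS A, vf V (vf W f) =
      ∑ q, vf V (W q) * pd q f + ∑ p, ∑ q, V p * W q * pd p (pd q f) := fun V W => by
    simp only [vf, map_sum, pd_mul, mul_sum, sum_mul, mul_add, sum_add_distrib]
    rw [add_comm, sum_comm]
    congr 1 <;> exact sum_congr rfl fun _ _ => sum_congr rfl fun _ _ => by ring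
  rw [this, this, sum_comm (f := fun p q => W p * V q * pd p (pd q f))]
  rw [sum_congr rfl fun p _ => sum_congr rfl fun q _ => show W q * V p * pd q (pd p f) =
    V p * W q * pd p (pd q f) by rw [pd_comm q p f, mul_comm (W q)]]
  simp only [vf, br, sub_mul, sum_sub_distrib]
  ring

/-- a vector field is generically tangent to the image of a formal map -/
def Tan (Γ : A → PS y) (V : A → PS A) : Prop :=
  ∃ c ≠ 0, ∃ a : y → PS y, ∀ q, c * S Γ (V q) = vf a (Γ q)

lemma vf_lin (c d : PS y) (a b : y → PS y) (f : PS y) :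
    vf (fun i => c * a i + d * b i) f = c * vf a f + d * vf b f := by
  simp only [vf, add_mul, sum_add_distrib, mul_sum, mul_assoc]

lemma Tan.lin {Γ : A → PS y} {V W : A → PS A} (h : Tan Γ V) (h' : Tan Γ W) (s t : PS A) :
    Tan Γ fun q => s * V q + t * W q := by
  obtain ⟨c, h1, a, h2⟩ := h
  obtain ⟨d, h3, b, h4⟩ := h'
  refine ⟨c * d, mul_ne_zero h1 h3, fun i => (d * S Γ s) * a i + (c * S Γ t) * b i, fun q => ?_⟩
  rw [vf_lin, ← h2, ← h4, map_add, map_mul, map_mul]; ring

lemma tan_zero (Γ : A → PS y) : Tan Γ fun _ => 0 := ⟨1, one_ne_zero, fun _ => 0, by simp [vf]⟩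

lemma Tan.br {Γ : A → PS y} {V W : A → PS A} (h : Tan Γ V) (h' : Tan Γ W) : Tan Γ (br V W) := by
  obtain ⟨c, h1, a, h2⟩ := h
  obtain ⟨d, h3, b, h4⟩ := h'
  have k : ∀ {c : PS y} {a : y → PS y} {V : A → PS A}, (∀ q, c * S Γ (V q) = vf a (Γ q)) →
      ∀ f, vf a (S Γ f) = c * S Γ (vf V f) := fun h f => by
    rw [vf_S]
    simp only [vf, map_sum, map_mul, mul_sum] at h ⊢
    exact sum_congr rfl fun q _ => by rw [← mul_sum, ← h]; ring
  refine ⟨c * c * (d * d), by simp [h1, h3], fun i => (c * d) * MP_547e2f_an.br a b i +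
    1 * ((d * vf b c) * a i + (-(c * vf a d)) * b i), fun q => ?_⟩
  rw [vf_lin, vf_lin, vf_br, ← h2, ← h4, vf_mul, vf_mul, k h2, k h4, MP_547e2f_an.br, map_sub]
  ring

end

lemma bordered {B κ : Type*} [CommRing B] [IsDomain B] {r : ℕ} (v : Fin r → κ → B) (x : κ → B)
    (f : Fin r → κ) (h : (Matrix.of fun i k => v k (f i)).det ≠ 0) (q : κ)
    (h0 : (Matrix.of fun i k : Fin (r + 1) =>
      (Fin.cons x v : Fin (r + 1) → κ → B) k ((Fin.cons q f : Fin (r + 1) → κ) i)).det = 0) :
    (Matrix.of fun i k => v k (f i)).det * x q =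
      ∑ k, (Matrix.of fun i k => v k (f i)).adjugate.mulVec (fun i => x (f i)) k * v k q := by
  obtain ⟨w, h1, h2⟩ := Matrix.exists_mulVec_eq_zero_iff.mpr h0
  set M := Matrix.of fun i k => v k (f i) with hM
  have h3 : M.mulVec (fun k => w k.succ) = -w 0 • fun i => x (f i) := funext fun i => by
    have := congrFun h2 i.succ
    simp only [Matrix.mulVec, dotProduct, Fin.sum_univ_succ, Matrix.of_apply, Fin.cons_zero,
      Fin.cons_succ, Pi.zero_apply, hM, Pi.smul_apply, smul_eq_mul] at this ⊢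
    linear_combination this
  have h4 : w 0 ≠ 0 := fun h4 => h1 (funext fun k => Fin.cases h4 (congrFun
    (Matrix.eq_zero_of_mulVec_eq_zero h (by rw [h3, h4]; simp))) k)
  have h5 := congrArg M.adjugate.mulVec h3
  rw [Matrix.mulVec_mulVec, M.adjugate_mul, Matrix.smul_mulVec, Matrix.one_mulVec,
    Matrix.mulVec_smul] at h5
  have h6 := congrFun h2 0
  simp only [Matrix.mulVec, dotProduct, Fin.sum_univ_succ, Matrix.of_apply, Fin.cons_zero,
    Fin.cons_succ, Pi.zero_apply] at h6
  refine mul_left_cancel₀ h4 ?_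
  rw [mul_sum, sum_congr rfl fun k _ => show _ = -(M.det * (v k q * w k.succ)) by
    have := congrFun h5 k
    simp only [Pi.smul_apply, smul_eq_mul] at this
    linear_combination v k q * this, sum_neg_distrib, ← mul_sum]
  linear_combination M.det * h6

variable [Finite D] [Finite ν] [Finite ν']

/-- the reflection property of a chart -/
def P [Finite y] (z : ν → PS D) (χ : ν' → PS D) (Γ : D → PS y) : Prop :=
  ∀ (ι ι' : Type) [Finite ι] [Finite ι'] (G : ι → PS D) (H : ι' → PS D) (Q : PS (D ⊕ ι ⊕ ι'))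
    [∀ i, Z (G i)] [∀ i, Z (H i)] [Cv Q], (∀ i, ∃ g, G i = S z g) → (∀ i, ∃ h, H i = S χ h) →
    S (Sum.elim X (Sum.elim G H)) Q = 0 →
    ∀ (ξ : Type) [Finite ξ] (Y : y → PS ξ) (W : ι → PS ξ) [∀ i, Z (Y i)] [∀ i, Z (W i)],
      Spec (Sum.elim X fun i => S Γ (G i)) (Sum.elim Y W) →
      S (Sum.elim (fun q => S Y (Γ q)) (Sum.elim W fun i => S Y (S Γ (H i)))) Q = 0

variable {z : ν → PS D} {χ : ν' → PS D}

lemma S_elim3 {ι ι' ξ β : Type} [Finite ι] [Finite ι'] [Finite ξ] (θ : ξ → PS β) (a : D → PS ξ)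
    (b : ι → PS ξ) (c : ι' → PS ξ) (f : PS (D ⊕ ι ⊕ ι')) :
    S θ (S (Sum.elim a (Sum.elim b c)) f) = S (Sum.elim (fun i => S θ (a i))
      (Sum.elim (fun i => S θ (b i)) fun i => S θ (c i))) f := by
  rw [S_S]; exact S_congr (fun i => by rcases i with i | i | i <;> rfl) f

lemma P_zero [Finite y] : P z χ fun _ => (0 : PS y) := by
  intro ι ι' _ _ G H Q _ _ _ _ _ h ξ _ Y W _ _ hs
  have : ∀ i, W i = 0 := fun i => by simpa using hs (X (inr i)) inferInstance (by simp)
  rw [S_congr (b := fun _ => 0) fun i => by rcases i with i | i | i <;> simp [this], S_zero,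
    ← cc_S (Sum.elim X (Sum.elim G H)), h]
  simp

lemma P.symm [Finite y] {Γ : D → PS y} [∀ q, Cv (Γ q)] [∀ q, Z (Γ q)] (h : P z χ Γ) :
    P χ z Γ := by
  intro ι' ι _ _ H G Q _ _ _ hH hG h0 ξ _ Y W _ _ hs
  obtain ⟨τ, _, W0, t, _, _, _, h1, h2⟩ := ploski fun i => S Γ (G i)
  have sw : ∀ {β : Type} (a : D → PS β) (b : ι → PS β) (c : ι' → PS β),
      S (Sum.elim a (Sum.elim b c)) (R (Sum.map id Sum.swap) Q) =
        S (Sum.elim a (Sum.elim c b)) Q := fun a b c => by
    rw [S_R]; exact S_congr (fun i => by rcases i with i | i | i <;> rfl) Q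
  have h3 := h ι ι' G H (R (Sum.map id Sum.swap) Q) hG hH (by rw [sw, h0]) _ (fun i => X (inl i))
    W0 fun ψ a b => h1 ψ ⟨a, b⟩
  have h4 := hs.ext (fun i => S Y (t i)) (S (Sum.elim (fun q => R (fun i => inl (inl i)) (Γ q))
    (Sum.elim (fun i => X (inl (inr i))) fun i => R (Sum.map inl id) (W0 i))) Q) inferInstance (by
      rw [sw] at h3
      refine Eq.trans ?_ h3
      rw [S_elim3]
      refine S_congr (fun i => ?_) Q
      rcases i with i | i | i
      · simp [S_R]
      · simp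
      · simp only [elim_inr, S_R]
        exact S_eq_self (fun i => by cases i <;> simp) _)
  refine Eq.trans ?_ h4
  rw [S_elim3]
  refine S_congr (fun i => ?_) Q
  rcases i with i | i | i
  · simp [S_R]
  · simp
  · simp only [elim_inr, S_R, ← h2, S_elim]
    exact S_congr (fun i => by cases i <;> simp) _

/-- families of maps that preserve the reflection property -/
def Pres [Finite U] (z : ν → PS D) (χ : ν' → PS D) (F : D → PS (D ⊕ U)) : Prop :=
  ∀ (y : Type) [Finite y] (Γ : D → PS y) (u : U → PS y) [∀ q, Cv (Γ q)] [∀ q, Z (Γ q)]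
    [∀ k, Cv (u k)] [∀ k, Z (u k)], P z χ Γ → P z χ fun q => S (Sum.elim Γ u) (F q)

lemma Pres.symm [Finite U] {F : D → PS (D ⊕ U)} [∀ q, Cv (F q)] [∀ q, Z (F q)] (h : Pres z χ F) :
    Pres χ z F := fun y _ Γ u _ _ _ _ h1 => (h y Γ u h1.symm).symm

lemma pres_of [Finite U] (χ : ν' → PS D) [∀ j, Cv (χ j)] (Φ : D → PS (D ⊕ U)) [∀ q, Cv (Φ q)]
    [∀ q, Z (Φ q)] (h0 : ∀ q, S (Sum.elim X fun _ => 0) (Φ q) = X q)
    (hz : ∀ j, S Φ (z j) = R inl (z j)) : Pres z χ Φ := by
  classical
  have := Fintype.ofFinite ν'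
  intro y _ Γ u _ _ _ _ hP ι ι' _ _ G H Q _ _ _ hG hH h1 ξ _ Y W _ _ hs
  have a1 : ∀ i, S Φ (G i) = R inl (G i) := fun i => by
    obtain ⟨g, hg⟩ := hG i
    simp only [hg, S_S, hz]
  have a0 : ∀ f, S (Sum.elim X fun _ => 0) (S Φ f) = f := S_inv h0
  have a2 : ∀ i, S (fun q => S (Sum.elim Γ u) (Φ q)) (G i) = S Γ (G i) := fun i => by
    rw [← S_S, a1, S_R]; rfl
  simp only [a2] at hs
  let m : D ⊕ U → (D ⊕ ι) ⊕ U := Sum.map inl id
  have a3 : ∀ j f, pd (inr j) (R m f) = R m (pd (inr j) f) := fun j =>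
    pd_R_inj (Sum.map_injective.mpr ⟨inl_injective, Function.injective_id⟩) (inr j)
  have key := lift_eq_zero (Sum.elim (fun q => S Y (Γ q)) W) (fun Ψ : PS ((D ⊕ ι) ⊕ U) =>
    (∃ (ι' : Type) (_ : Finite ι') (H : ι' → PS D) (Q : PS (((D ⊕ ι) ⊕ U) ⊕ ι')),
      (∀ i, Z (H i)) ∧ Cv Q ∧ (∀ i, ∃ h, H i = S χ h) ∧
      Ψ = S (Sum.elim X fun i => R m (S Φ (H i))) Q) ∧
    S (Sum.elim (fun i => R inl (Sum.elim X G i)) fun k => X (inr k)) Ψ = 0) ?_ ?_
    (fun k => S Y (u k)) (ψ := S (Sum.elim (fun q => R m (Φ q))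
      (Sum.elim (fun i => X (inl (inr i))) fun i => R m (S Φ (H i)))) Q)
    ⟨⟨ι', inferInstance, H, S (Sum.elim (fun q => R inl (R m (Φ q)))
      (Sum.elim (fun i => X (inl (inl (inr i)))) fun i => X (inr i))) Q, inferInstance,
      inferInstance, hH, by simp [S_elim3, S_R]⟩, ?_⟩
  · refine Eq.trans ?_ key
    rw [S_elim3]
    have : ∀ f, S (Sum.elim (Sum.elim (fun q => S Y (Γ q)) W) fun k => S Y (u k)) (R m f) =
        S Y (S (Sum.elim Γ u) f) := fun f => by
      rw [S_R, S_elim]; exact S_congr (fun i => by cases i <;> rfl) f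
    simp [this, ← S_S]
  · rintro _ j ⟨⟨ι', _, H, Q, _, _, hH, rfl⟩, h2⟩
    have := Fintype.ofFinite ι'
    have := Fintype.ofFinite ((D ⊕ ι) ⊕ U)
    choose h hh using hH
    refine ⟨⟨ι' ⊕ ι' × ν', inferInstance, Sum.elim H fun k => S χ (pd k.2 (h k.1)) -
      C (cc (S χ (pd k.2 (h k.1)))), R (Sum.map id inl) (pd (inl (inr j)) Q) +
      ∑ k, R (Sum.map id inl) (pd (inr k) Q) * ∑ l, (X (inr (inr (k, l))) +
        C (cc (S χ (pd l (h k))))) * R inl (R m (pd (inr j) (S Φ (χ l)))), inferInstance,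
      inferInstance, ?_, ?_⟩, by rw [← pd_lift, h2, map_zero]⟩
    · rintro (i | i)
      · exact ⟨h i, hh i⟩
      · exact ⟨pd i.2 (h i.1) - C (cc (pd i.2 (h i.1))), by simp⟩
    · have b1 : ∀ f, S (Sum.elim X fun i => R m (S Φ (Sum.elim H (fun k : ι' × ν' =>
          S χ (pd k.2 (h k.1)) - C (cc (S χ (pd k.2 (h k.1))))) i))) (R (Sum.map id inl) f) =
          S (Sum.elim X fun i => R m (S Φ (H i))) f := fun f => by
        rw [S_R]; exact S_congr (fun i => by cases i <;> rfl) f
      have b2 : ∀ k, pd (inr j) (S Φ (H k)) =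
          ∑ l, S Φ (S χ (pd l (h k))) * pd (inr j) (S Φ (χ l)) := fun k => by
        rw [hh, S_S, pd_S]; simp only [← S_S]
      rw [pd_S, Fintype.sum_sum_type, sum_eq_single (inr j) (fun b _ hb => by simp [hb]) (by simp)]
      simp only [map_add, map_sum, map_mul, b1, elim_inr, a3, b2]
      simp [S_R]
  · rintro _ ⟨⟨ι', _, H, Q, _, _, hH, rfl⟩, h2⟩
    have b1 : ∀ {β : Type} (a : D → PS β) (b : ι → PS β) (f : PS D),
        S (Sum.elim (Sum.elim a b) fun _ => 0) (R m (S Φ f)) = S a f := fun a b f => by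
      conv_rhs => rw [← a0 f, S_elim]
      rw [S_R, S_S, S_S]
      refine S_congr (fun q => ?_) f
      rw [S_def, S_def]
      congr 1
      funext i
      cases i <;> simp [m, S_X']
    have b2 : ∀ {β : Type} (a : D → PS β) (b : ι → PS β) (c : ι' → PS β) [∀ i, Z (a i)]
        [∀ i, Z (b i)] [∀ i, Z (c i)], S (Sum.elim a (Sum.elim b c))
        (S (Sum.elim (Sum.elim (Sum.elim (fun q => X (inl q)) fun i => X (inr (inl i))) fun _ => 0)
          fun i => X (inr (inr i))) Q) = S (Sum.elim (Sum.elim (Sum.elim a b) fun _ => 0) c) Q :=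
      fun a b c _ _ _ => by
        rw [S_S]
        exact S_congr (fun i => by rcases i with ((i | i) | i) | i <;> simp) Q
    have h3 := hP ι ι' G H (S (Sum.elim (Sum.elim (Sum.elim (fun q => X (inl q))
      fun i => X (inr (inl i))) fun _ => 0) fun i => X (inr (inr i))) Q) hG hH (by
        have := congrArg (S (Sum.elim X fun _ => 0)) h2
        rw [S_S, map_zero, S_congr (b := Sum.elim (Sum.elim X G) fun _ => 0)
          fun i => by cases i <;> simp [S_R], S_elim] at this
        rw [b2]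
        exact Eq.trans (S_congr (fun i => by cases i <;> simp [b1]) Q) this) ξ Y W hs
    rw [b2] at h3
    rw [S_elim]
    exact Eq.trans (S_congr (fun i => by cases i <;> simp [b1, ← S_S]) Q) h3
  · have : ∀ f, S (Sum.elim (fun i => R inl (Sum.elim X G i)) fun k => X (inr k)) (R m f) = f :=
      fun f => by rw [S_R]; exact S_eq_self (fun i => by cases i <;> simp [m]) f
    simpa [S_elim3, this, a1] using congrArg (S Φ) h1

end

end Pool.Agent.Lib.MP_547e2f_an
end

-- part Pool.Agent.Lib.MP_547e2f_an.Rank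
section

/-!
Charts of maximal rank and the abstract approximation theorem.
-/

namespace Pool.Agent.Lib.MP_547e2f_an

open MvPowerSeries Finset Sum

noncomputable section

variable {D ν ν' y U : Type} [Fintype D] [Finite ν] [Finite ν']

/-- invertible families that preserve the reflection property -/
def Good [Finite U] (z : ν → PS D) (χ : ν' → PS D) (F : D → PS (D ⊕ U)) : Prop :=
  (∀ q, Cv (F q)) ∧ (∀ q, Z (F q)) ∧ Pres z χ F ∧ ∃ F' : D → PS (D ⊕ U), (∀ q, Cv (F' q)) ∧
    (∀ q, Z (F' q)) ∧ Pres z χ F' ∧ ∀ q, S (Sum.elim F fun k => X (inr k)) (F' q) = X (inl q)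

variable {z : ν → PS D} {χ : ν' → PS D}

lemma Good.symm [Finite U] {F : D → PS (D ⊕ U)} (h : Good z χ F) : Good χ z F := by
  obtain ⟨_, _, h1, F', _, _, h2, h3⟩ := h
  exact ⟨‹_›, ‹_›, h1.symm, F', ‹_›, ‹_›, h2.symm, h3⟩

lemma Good.comp [Finite y] [Finite U] {F : D → PS (D ⊕ y)} {Φ : D → PS (D ⊕ U)} (h : Good z χ F)
    (h' : Good z χ Φ) : Good z χ fun q => S (Sum.elim (fun p => R (Sum.map id inl) (F p))
      fun k => X (inr (inr k))) (Φ q) := by
  obtain ⟨_, _, h1, F', _, _, h2, h3⟩ := h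
  obtain ⟨_, _, h4, Φ', _, _, h5, h6⟩ := h'
  refine ⟨inferInstance, inferInstance, fun y' _ Γ u _ _ _ _ hP => ?_,
    fun q => S (Sum.elim (fun p => R (Sum.map id inr) (Φ' p)) fun k => X (inr (inl k))) (F' q),
    inferInstance, inferInstance, fun y' _ Γ u _ _ _ _ hP => ?_, fun q => ?_⟩
  · convert h4 y' _ (fun k => u (inr k)) (h1 y' Γ (fun k => u (inl k)) hP) using 2 with q
    rw [S_elim]
    refine S_congr (fun i => ?_) _
    cases i with
    | inl p => exact (S_R _ _ _).trans (S_congr (fun i => by cases i <;> rfl) _)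
    | inr k => simp
  · convert h2 y' _ (fun k => u (inl k)) (h5 y' Γ (fun k => u (inr k)) hP) using 2 with q
    rw [S_elim]
    refine S_congr (fun i => ?_) _
    cases i with
    | inl p => exact (S_R _ _ _).trans (S_congr (fun i => by cases i <;> rfl) _)
    | inr k => simp
  · have := congrArg (R (Sum.map id (inl : y → y ⊕ U))) (h3 q)
    rw [S_elim] at this ⊢
    refine (S_congr (fun i => ?_) _).trans (this.trans (by simp))
    cases i with
    | inl p =>
      have := congrArg (S (Sum.elim (fun p => R (Sum.map id (inl : y → y ⊕ U)) (F p))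
        fun k => X (inr (inr k)))) (h6 p)
      rw [S_elim] at this
      simp only [elim_inl, S_R]
      exact (S_congr (fun i => by cases i <;> simp) _).trans (this.trans (by simp))
    | inr k => simp

/-- the fibres of `z` are the orbits of a family of convergent maps -/
def Side (z : ν → PS D) : Prop := ∃ (U : Type) (_ : Fintype U) (Φ Φ' : D → PS (D ⊕ U)),
  (∀ q, Cv (Φ q)) ∧ (∀ q, Z (Φ q)) ∧ (∀ q, Cv (Φ' q)) ∧ (∀ q, Z (Φ' q)) ∧
  (∀ q, S (Sum.elim X fun _ => 0) (Φ q) = X q) ∧ (∀ q, S (Sum.elim X fun _ => 0) (Φ' q) = X q) ∧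
  (∀ j, S Φ (z j) = R inl (z j)) ∧ (∀ j, S Φ' (z j) = R inl (z j)) ∧
  (∀ q, S (Sum.elim Φ fun k => X (inr k)) (Φ' q) = X (inl q)) ∧
  ∀ V : D → PS D, (∀ j, vf V (z j) = 0) → ∃ c : U → PS D,
    ∀ q, V q = ∑ k, c k * S (Sum.elim X fun _ => 0) (pd (inr k) (Φ q))

/-- a nonzero minor of the Jacobian matrix -/
def Rk [Finite y] (Γ : D → PS y) (r : ℕ) : Prop := ∃ (e : Fin r → y) (f : Fin r → D),
  (Matrix.of fun i k => pd (e k) (Γ (f i))).det ≠ 0

lemma Rk.le [Finite y] {Γ : D → PS y} {r : ℕ} (h : Rk Γ r) : r ≤ Fintype.card D := by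
  obtain ⟨e, f, h⟩ := h
  simpa using Fintype.card_le_of_injective f fun i j hij => by
    by_contra h1
    exact h (Matrix.det_zero_of_row_eq h1 (by ext1; simp [hij]))

lemma tan_of_max [Fintype y] [∀ j, Cv (χ j)] (hz : Side z) {F : D → PS (D ⊕ y)} (hF : Good z χ F)
    {r : ℕ} (h1 : Rk (fun q => S (Sum.elim (fun _ => 0) X) (F q)) r)
    (h2 : ∀ (y : Type) [Fintype y] (F : D → PS (D ⊕ y)), Good z χ F →
      ¬Rk (fun q => S (Sum.elim (fun _ => 0) X) (F q)) (r + 1))
    (V : D → PS D) (hV : ∀ j, vf V (z j) = 0) :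
    Tan (fun q => S (Sum.elim (fun _ => 0) X) (F q)) V := by
  classical
  obtain ⟨U, _, Φ, Φ', _, _, _, _, a1, a2, a3, a4, a5, a6⟩ := hz
  obtain ⟨c, hc⟩ := a6 V hV
  obtain ⟨e, f, h1⟩ := h1
  have := hF.2.1
  have h3 := h2 _ _ (hF.comp ⟨‹_›, ‹_›, pres_of χ Φ a1 a3, Φ', ‹_›, ‹_›, pres_of χ Φ' a2 a4, a5⟩)
  set Γ : D → PS y := fun q => S (Sum.elim (fun _ => 0) X) (F q) with hΓ
  have : ∀ q, Z (Γ q) := fun q => by simp only [hΓ]; infer_instance
  rw [show (fun q => S (Sum.elim (fun _ => 0) X) (S (Sum.elim (fun p => R (Sum.map id inl) (F p))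
      fun k => X (inr (inr k))) (Φ q))) =
      fun q => S (Sum.elim (fun p => R inl (Γ p)) fun k => X (inr k)) (Φ q) from funext fun q => by
    rw [S_elim]
    refine S_congr (fun i => ?_) _
    cases i with
    | inl p =>
      simp only [elim_inl, hΓ, S_R, S_elim]
      exact S_congr (fun i => by cases i <;> simp) _
    | inr k => simp] at h3
  have h4 : ∀ k q, (Matrix.of fun i l => pd (e l) (Γ (f i))).det *
      S Γ (S (Sum.elim X fun _ => 0) (pd (inr k) (Φ q))) = ∑ l, (Matrix.of fun i l =>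
        pd (e l) (Γ (f i))).adjugate.mulVec (fun i => S Γ (S (Sum.elim X fun _ => 0)
        (pd (inr k) (Φ (f i))))) l * pd (e l) (Γ q) := fun k q => by
    refine bordered (fun l q => pd (e l) (Γ q))
      (fun q => S Γ (S (Sum.elim X fun _ => 0) (pd (inr k) (Φ q)))) f h1 q ?_
    by_contra h5
    refine h3 ⟨Fin.cons (inr k) fun l => inl (e l), Fin.cons q f, fun h6 => h5 ?_⟩
    have := congrArg (S (Sum.elim X fun _ => 0)) h6
    rw [S_det, map_zero] at this
    refine Eq.trans (congrArg Matrix.det (Matrix.ext fun i l => ?_)) this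
    refine Fin.cases ?_ (fun l => ?_) l
    · simp [pd_lift, S_elim, S_R]
    · simp only [Matrix.of_apply, Fin.cons_succ]
      rw [← pd_S_single _ (e l) (inl (e l)) (fun j hj => by cases j <;> simp_all) (by simp)]
      congr 1
      simpa [S_elim, S_R] using (congrArg (S Γ) (a1 _)).symm
  refine ⟨_, h1, fun i => ∑ k, S Γ (c k) * ∑ l, if e l = i then (Matrix.of fun i l =>
    pd (e l) (Γ (f i))).adjugate.mulVec (fun i => S Γ (S (Sum.elim X fun _ => 0)
      (pd (inr k) (Φ (f i))))) l else 0, fun q => ?_⟩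
  rw [hc, map_sum, mul_sum, vf]
  simp only [sum_mul, map_mul, mul_left_comm (Matrix.det _), h4, mul_assoc]
  rw [sum_comm]
  refine sum_congr rfl fun k _ => ?_
  rw [← mul_sum, sum_comm]
  simp

theorem core [DecidableEq D] [∀ j, Cv (z j)] [∀ j, Cv (χ j)] (hz : Side z) (hχ : Side χ)
    (FT : ∀ (y : Type) [Fintype y] (Γ : D → PS y) [∀ q, Z (Γ q)],
      (∀ V, (∀ j, vf V (z j) = 0) ∨ (∀ j, vf V (χ j) = 0) → Tan Γ V) →
      ∃ e : D → y, (Matrix.of fun q k => pd (e k) (Γ q)).det ≠ 0) : ∃ w, P z χ (blow w) := by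
  classical
  let T : ℕ → Prop := fun r => ∃ (y : Type) (_ : Fintype y) (F : D → PS (D ⊕ y)), Good z χ F ∧
    Rk (fun q => S (Sum.elim (fun _ => 0) X) (F q)) r
  have hid : Pres z χ fun q => (X (inl q) : PS (D ⊕ PEmpty)) := fun y _ Γ u _ _ _ _ h => by
    simpa using h
  obtain ⟨r, ⟨y, _, F, hF, h1⟩, h3⟩ : ∃ r, T r ∧ ¬T (r + 1) := by
    by_contra hc
    push Not at hc
    obtain ⟨y, _, F, -, h⟩ : T (Fintype.card D + 1) := Nat.rec (motive := T) ⟨PEmpty, inferInstance,
      fun q => X (inl q), ⟨inferInstance, inferInstance, hid, fun q => X (inl q), inferInstance,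
        inferInstance, hid, by simp⟩, Fin.elim0, Fin.elim0, by simp⟩ hc _
    exact Nat.not_succ_le_self _ h.le
  have h2 : ∀ (y : Type) [Fintype y] (F : D → PS (D ⊕ y)), Good z χ F →
      ¬Rk (fun q => S (Sum.elim (fun _ => 0) X) (F q)) (r + 1) :=
    fun y _ F hF h => h3 ⟨y, inferInstance, F, hF, h⟩
  have := hF.1
  have := hF.2.1
  obtain ⟨e, he⟩ := FT y (fun q => S (Sum.elim (fun _ => 0) X) (F q)) fun V hV => hV.elim
    (tan_of_max hz hF h1 h2 V) (tan_of_max hχ hF.symm h1 (fun y _ F h => h2 y F h.symm) V)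
  obtain ⟨-, -, p1, F', _, _, p2, p3⟩ := hF
  obtain ⟨c, -, hc⟩ := exists_line (β := PEmpty) he
  obtain ⟨p, hp⟩ := exists_reg hc
  obtain ⟨Q, l, q1, q2, q3, q4⟩ := hp.dec
  have : ∀ q k, Cv (Matrix.of (fun q k => pd (e k) (S (Sum.elim (fun _ => 0) X) (F q))) q k) :=
    fun q k => by rw [Matrix.of_apply]; infer_instance
  obtain ⟨_, -⟩ := q4 inferInstance
  obtain rfl : l = 0 := MvPowerSeries.ext fun d => q2 d (by
    rw [Finsupp.weight_apply, Finsupp.sum, sum_eq_zero fun i _ => by rcases i with _ | ⟨⟨⟩⟩; simp]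
    exact Nat.one_pos)
  have q5 := congrArg (R (Option.map (PEmpty.elim : PEmpty → D))) q3
  choose ε e1 _ e2 using fun q => diff_S (F q)
    (Sum.elim (fun _ => 0) fun i => (C (c i) * X none : PS (Option D)))
    (Sum.elim (blow fun _ => p + p) fun i => C (c i) * X none)
  have : ∀ q j, Cv (ε q j) := fun q => e2 q inferInstance inferInstance inferInstance
  obtain ⟨Y, _, _, t1, -⟩ := tougeron (α := D)
    (fun q => R inr (S (Sum.elim (fun _ => 0) X) (F q)) - X (inl q)) e
    (fun q => S (Sum.elim (blow fun _ => p + p) fun i => C (c i) * X none) (F q))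
    (fun i => C (c i) * X none) (fun _ => 0) (X none ^ p) (R (Option.map PEmpty.elim) Q)
    (fun q => -∑ j, X (some j) * ε q (inl j)) (by simpa using q1)
    (pow_ne_zero _ reg_X.ne_zero) (fun q => by
      simpa [S_R, S_elim, pow_add, mul_sum, mul_assoc] using e1 q)
    (by
      rw [S_S, S_det] at q5
      simpa [pd_R_inj inr_injective, S_R] using q5)
  refine ⟨fun _ => p + p, ?_⟩
  have t2 := p1 _ (fun _ => 0) Y P_zero
  rw [show (fun q => S (Sum.elim (fun _ => 0) Y) (F q)) = fun q => S (Sum.elim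
    (blow fun _ => p + p) fun i => C (c i) * X none) (F q) from funext fun q => by
      simpa [S_R, S_elim, sub_eq_zero] using t1 q] at t2
  have t3 := p2 _ _ (fun i => C (c i) * X none) t2
  have t4 : ∀ q, S (Sum.elim (fun q => S (Sum.elim (blow fun _ => p + p)
      fun i => C (c i) * X none) (F q)) fun i => C (c i) * X none) (F' q) =
      blow (fun _ => p + p) q := fun q => by
    have := congrArg (S (Sum.elim (blow fun _ => p + p) fun i => C (c i) * X none)) (p3 q)
    rw [S_elim] at this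
    simpa only [S_XZ, elim_inl, elim_inr] using this
  rwa [funext t4] at t3

lemma P.of_blow {w : D → ℕ} (h : P z χ (blow w)) {ι ι' : Type} [Finite ι] [Finite ι']
    (G W : ι → PS D) (H : ι' → PS D) (Q : PS (D ⊕ ι ⊕ ι')) [∀ i, Z (G i)] [∀ i, Z (W i)]
    [∀ i, Z (H i)] [Cv Q] (hG : ∀ i, ∃ g, G i = S z g) (hH : ∀ i, ∃ h, H i = S χ h)
    (h0 : S (Sum.elim X (Sum.elim G H)) Q = 0) (hs : Spec (Sum.elim X G) (Sum.elim X W)) :
    S (Sum.elim X (Sum.elim W H)) Q = 0 :=
  blow_inj (w := w) (by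
    simpa [S_elim3] using h ι ι' G H Q hG hH h0 _ X (fun i => S (blow w) (W i)) (hs.blowup w))

end

end Pool.Agent.Lib.MP_547e2f_an
end

-- part Pool.Agent.Lib.MP_547e2f_an.Side
section

/-!
Construction of foliations, conjugation of series, and some linear algebra.
-/

namespace Pool.Agent.Lib.MP_547e2f_an

open MvPowerSeries Finset Sum

noncomputable section

lemma exists_cols {A : Type} [Fintype A] {d : ℕ} (J : Matrix (Fin d) A ℂ)
    (hJ : LinearIndependent ℂ J.row) (p : A → Prop) : ∃ e : Fin d → A, Function.Injective e ∧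
      (J.submatrix id e).det ≠ 0 ∧ ∀ a, p a → ∃ l : Fin d → ℂ, (∀ k, ¬p (e k) → l k = 0) ∧
        ∀ i, J i a = ∑ k, l k * J i (e k) := by
  classical
  obtain ⟨b1, h1, -, h2, h3⟩ := exists_linearIndepOn_extension (K := ℂ) (v := J.col)
    (linearIndepOn_empty ℂ _) (Set.empty_subset {a | p a})
  obtain ⟨b, -, h4, h5, h6⟩ := exists_linearIndepOn_extension h3 (Set.subset_univ _)
  have h7 : Submodule.span ℂ (Set.range J.col) = ⊤ := by
    apply Submodule.eq_top_of_finrank_eq
    rw [← Matrix.rank_eq_finrank_span_cols, hJ.rank_matrix]; simp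
  have h8 : Fintype.card (Fin d) = Fintype.card b := by
    rw [← Module.finrank_eq_card_basis (Module.Basis.mk h6 (by
      rw [← h7, Submodule.span_le, ← Set.image_univ, ← Set.image_eq_range]; exact h5))]
    simp
  let ε := Fintype.equivOfCardEq h8
  have he : Function.Injective fun k => (ε k : A) := Subtype.val_injective.comp ε.injective
  refine ⟨_, he, ((Matrix.isUnit_iff_isUnit_det _).mp (Matrix.linearIndependent_cols_iff_isUnit.mp
    (h6.comp ε ε.injective))).ne_zero, fun a ha => ?_⟩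
  obtain ⟨l, h9, h10⟩ := (Finsupp.mem_span_image_iff_linearCombination ℂ).mp (h2 ⟨a, ha, rfl⟩)
  rw [Finsupp.mem_supported'] at h9
  refine ⟨fun k => l (ε k), fun k hk => h9 _ fun h => hk (h1 h), fun i => ?_⟩
  have := congrFun h10 i
  rw [Finsupp.linearCombination_apply, Finsupp.sum_fintype _ _ (by simp), Finset.sum_apply] at this
  refine this.symm.trans (Fintype.sum_of_injective _ he _ _ (fun a ha => ?_) fun _ => rfl).symm
  rw [h9 a fun h => ha ⟨ε.symm ⟨a, h4 h⟩, by simp⟩, zero_smul]; rfl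

variable {σ τ D ν : Type}

/-- conjugation of coefficients -/
abbrev cj : PS σ →+* PS σ := map (starRingEnd ℂ)

@[simp] lemma cj_cj (f : PS σ) : cj (cj f) = f := by ext d; simp

lemma cj_S [Finite σ] (a : σ → PS τ) (f : PS σ) : cj (S a f) = S (fun i => cj (a i)) (cj f) := by
  rw [S_def, S_def, map_subst (hasSubst0 a)]
  simp

lemma cj_pd (i : σ) (f : PS σ) : cj (pd i f) = pd i (cj f) := by ext d; simp [coeff_pderiv]

instance (f : PS σ) [Z f] : Z (cj f) := ⟨by simp⟩

instance (f : PS σ) [h : Cv f] : Cv (cj f) := by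
  obtain ⟨r, h1, h2⟩ := h.out
  exact ⟨r, h1, by simpa [nrm, enorm_eq_nnnorm] using h2⟩

lemma S_mem_Fil [Finite σ] (a : σ → PS τ) {k : ℕ} {f : PS σ} (h : f ∈ Fil (fun _ => 1) k) :
    S a f ∈ Fil (fun _ => 1) k := by
  have key : ∀ d : σ →₀ ℕ, (d.prod fun i k => (a i - C (cc (a i))) ^ k) ∈
      Fil (fun _ => 1) (Finsupp.weight (fun _ => 1) d) := fun d => by
    induction d using Finsupp.induction_linear with
    | zero => exact fun d hd => absurd hd (by simp)
    | add d e hd he =>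
      rw [Finsupp.prod_add_index' (by simp) fun _ _ _ => pow_add _ _ _, map_add]
      exact Fil_mul hd he
    | single i n =>
      rw [Finsupp.prod_single_index (by simp), Finsupp.weight_single, smul_eq_mul, mul_one]
      induction n with
      | zero => exact fun d hd => absurd hd (by simp)
      | succ n ih => rw [pow_succ]; exact Fil_mul ih (mem_Fil_one _)
  intro e he
  obtain ⟨s, hs⟩ := exists_fin a e
  rw [hs]
  refine sum_eq_zero fun d _ => ?_
  by_cases hd : Finsupp.weight (fun _ => 1) d < k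
  · rw [h d hd, zero_mul]
  · rw [key d e (by omega), mul_zero]

variable [Fintype D] [Finite ν]

lemma S_shift (p : D → Prop) [DecidablePred p] {f : PS D} (h : ∀ q, p q → pd q f = 0) (c : ℂ) :
    S (fun q => X (inl q) + if p q then C c * X (inr q) else 0) f = R inl f := by
  refine sub_eq_zero.mp (taylor_zero (fun g => g = 0 ∨ g =
    S (fun q => X (inl q) + if p q then C c * X (inr q) else 0) f - R inl f) ?_ ?_ (Or.inr rfl))
  · rintro _ j (rfl | rfl)
    · simp
    · refine Or.inl ?_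
      rw [map_sub, pd_inr_R_inl, sub_zero, pd_S]
      exact sum_eq_zero fun q _ => by by_cases hq : p q <;> simp [hq, h q]
  · rintro _ (rfl | rfl)
    · simp
    · simp [S_S, apply_ite]

lemma S_kill (p : D → Prop) [DecidablePred p] {f : PS D} (h : ∀ q, p q → pd q f = 0) :
    S (fun q => if p q then 0 else X q) f = f := by
  have := congrArg (S (Sum.elim X X)) (S_shift p h (-1))
  rw [S_S, S_R] at this
  refine Eq.trans (S_congr (fun q => ?_) f) (this.trans (S_id' f))
  by_cases hq : p q <;> simp [hq]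

omit [Finite ν] in
lemma Side.of_pd {z : ν → PS D} (p : D → Prop) (h1 : ∀ q j, p q → pd q (z j) = 0)
    (h2 : ∀ q, ¬p q → ∃ j, z j = X q) : Side z := by
  classical
  refine ⟨D, inferInstance, fun q => X (inl q) + if p q then C 1 * X (inr q) else 0,
    fun q => X (inl q) + if p q then C (-1) * X (inr q) else 0, inferInstance, inferInstance,
    inferInstance, inferInstance, fun q => by simp [apply_ite], fun q => by simp [apply_ite],
    fun j => S_shift p (fun q => h1 q j) _, fun j => S_shift p (fun q => h1 q j) _,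
    fun q => by by_cases hq : p q <;> simp [hq], fun V hV => ⟨V, fun q => ?_⟩⟩
  by_cases hq : p q
  · rw [sum_eq_single q (fun k _ hk => by simp [hq, hk.symm]) (by simp)]
    simp [hq]
  · obtain ⟨j, hj⟩ := h2 q hq
    have := hV j
    rw [hj, vf_X] at this
    simp [hq, this]

lemma Side.transport {z : ν → PS D} (h : Side z) (c c' : D → PS D) [∀ q, Cv (c q)] [∀ q, Z (c q)]
    [∀ q, Cv (c' q)] [∀ q, Z (c' q)] (h1 : ∀ q, S c (c' q) = X q) (h2 : ∀ q, S c' (c q) = X q) :
    Side fun j => S c (z j) := by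
  obtain ⟨U, _, Φ, Φ', _, _, _, _, a1, a2, a3, a4, a5, a6⟩ := h
  let m : PS (D ⊕ U) →ₐ[ℂ] PS (D ⊕ U) := S (Sum.elim (fun q => R inl (c q)) fun k => X (inr k))
  have b1 : ∀ (Φ : D → PS (D ⊕ U)) f, S (fun q => m (S Φ (c' q))) (S c f) = m (S Φ f) :=
    fun Φ f => by rw [← S_S, ← S_S, S_inv h2]
  have b2 : ∀ f, m (R inl f) = R inl (S c f) := fun f => by simp [m, S_R, ← S_S]
  have b3 : ∀ f, S (Sum.elim X fun _ => 0) (m f) = S c (S (Sum.elim X fun _ => 0) f) := fun f => by
    simp [m, S_elim, S_R]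
  refine ⟨U, ‹_›, fun q => m (S Φ (c' q)), fun q => m (S Φ' (c' q)), inferInstance, inferInstance,
    inferInstance, inferInstance, fun q => by rw [b3, S_inv a1, h1], fun q => by
    rw [b3, S_inv a2, h1], fun j => by rw [b1, a3, b2], fun j => by rw [b1, a4, b2], fun q => ?_,
    fun V hV => ?_⟩
  · have : ∀ f, S (Sum.elim (fun q => m (S Φ (c' q))) fun k => X (inr k)) (m f) =
        m (S (Sum.elim Φ fun k => X (inr k)) f) := fun f => by
      rw [S_elim, S_elim]
      refine S_congr (fun i => ?_) f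
      cases i with
      | inl q => simpa [S_R] using b1 Φ (X q)
      | inr k => simp
    rw [this, S_S Φ', S_congr a5, b2, h1, S_XZ]
  · obtain ⟨b, hb⟩ := a6 (fun q => S c' (vf V (c q))) fun j => by
      have := congrArg (S c') (hV j)
      simp only [vf_S, map_sum, map_mul, S_inv h2, map_zero] at this
      simpa only [vf, mul_comm] using this
    refine ⟨fun k => S c (b k), fun q => ?_⟩
    have b4 : ∀ p, vf V (c p) = S c (∑ k, b k * S (Sum.elim X fun _ => 0) (pd (inr k) (Φ p))) :=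
      fun p => by rw [← hb, S_inv h1]
    rw [← vf_X V q, ← h1, vf_S]
    simp only [m, pd_lift]
    simp only [b4, show ∀ f, S (Sum.elim X fun _ => 0) (S (Sum.elim (fun q => R inl (c q))
      fun k => X (inr k)) f) = _ from b3, pd_S Φ, map_sum, map_mul, S_inv a1, mul_sum]
    rw [sum_comm]
    exact sum_congr rfl fun _ _ => sum_congr rfl fun _ _ => by ring

end

end Pool.Agent.Lib.MP_547e2f_an
end

-- part Pool.Agent.Lib.MP_547e2f_an.Par
section

/-!
Parametrization of a formal submanifold given by convergent equations.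
-/

namespace Pool.Agent.Lib.MP_547e2f_an

open MvPowerSeries Finset Sum

noncomputable section

variable {A D κ y : Type} [Fintype A] [Fintype D] [Fintype κ]

/-- `ι` parametrizes the zero set of `ρ` as a graph over the coordinates `v` -/
structure Par (ρ : κ → PS A) (v : D → A) (ι : A → PS D) : Prop where
  co : ∀ q, ι (v q) = X q
  zero : ∀ i, S ι (ρ i) = 0
  mem : ∀ Θ, S ι Θ = 0 → ∃ c : κ → PS A, Θ = ∑ i, c i * ρ i ∧ (Cv Θ → ∀ i, Cv (c i))

lemma exists_par [DecidableEq κ] (ε : D ⊕ κ ≃ A) (ρ : κ → PS A) [∀ i, Cv (ρ i)] [∀ i, Z (ρ i)]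
    (h : (Matrix.of fun i k => cc (pd (ε (inr k)) (ρ i))).det ≠ 0) :
    ∃ ι : A → PS D, (∀ a, Cv (ι a)) ∧ (∀ a, Z (ι a)) ∧ Par ρ (fun q => ε (inl q)) ι := by
  obtain ⟨u, _, h1, h2⟩ := ift (fun i => R ε.symm (ρ i)) (by
    refine fun h0 => h (Eq.trans (congrArg Matrix.det (Matrix.ext fun i k => ?_)) h0)
    have := pd_R_inj ε.symm.injective (ε (inr k)) (ρ i)
    rw [ε.symm_apply_apply] at this
    simp [this])
  have := h2 inferInstance
  have h3 : ∀ i, S (fun a => Sum.elim X u (ε.symm a)) (ρ i) = 0 := fun i => by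
    rw [← h1 i, S_R]
  refine ⟨fun a => Sum.elim X u (ε.symm a), inferInstance, inferInstance, by simp, h3,
    fun Θ hΘ => ?_⟩
  have h4 : ∀ Θ, S (fun a => Sum.elim X u (ε.symm a)) Θ = 0 → ∃ c : κ → PS A,
      Θ = ∑ k, c k * (X (ε (inr k)) - R (fun q => ε (inl q)) (u k)) ∧
      (∀ k, cc (c k) = cc (pd (ε (inr k)) Θ)) ∧ (Cv Θ → ∀ k, Cv (c k)) := fun Θ hΘ => by
    obtain ⟨c, a1, a2, a3⟩ := diff_S Θ X
      fun a => R (fun q => ε (inl q)) (Sum.elim X u (ε.symm a))
    refine ⟨fun k => c (ε (inr k)), ?_, fun k => a2 _,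
      fun h k => a3 h inferInstance inferInstance _⟩
    rw [← S_S, hΘ, ← ε.sum_comp] at a1
    simpa [mul_comm] using a1
  choose M m1 m2 m3 using fun i => h4 _ (h3 i)
  obtain ⟨c, c1, -, c2⟩ := h4 Θ hΘ
  obtain ⟨g, g1, g2⟩ := exists_inv (Matrix.of M).det (fun h0 => h (by
    rw [← h0, cc, RingHom.map_det]
    exact congrArg Matrix.det (Matrix.ext fun i k => (m2 i k).symm)))
  refine ⟨fun i => ∑ k, c k * g * (Matrix.of M).adjugate k i, ?_, fun h i => ?_⟩
  · have h5 : (Matrix.of M).mulVec (fun k => X (ε (inr k)) - R (fun q => ε (inl q)) (u k)) = ρ :=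
      funext fun i => (m1 i).symm
    have h6 := congrArg (Matrix.of M).adjugate.mulVec h5
    rw [Matrix.mulVec_mulVec, Matrix.adjugate_mul, Matrix.smul_mulVec, Matrix.one_mulVec] at h6
    simp only [sum_mul]
    rw [c1, sum_comm]
    refine sum_congr rfl fun k _ => ?_
    have h7 := congrFun h6 k
    simp only [Pi.smul_apply, smul_eq_mul, Matrix.mulVec, dotProduct] at h7
    simp only [mul_assoc, ← mul_sum, ← h7]
    linear_combination -c k * (X (ε (inr k)) - R (fun q => ε (inl q)) (u k)) * g1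
  · have := c2 h
    have : ∀ i k, Cv (Matrix.of M i k) := fun i k => m3 i inferInstance k
    have := g2 inferInstance
    infer_instance

namespace Par

variable {ρ : κ → PS A} {v : D → A} {ι : A → PS D} (h : Par ρ v ι)
include h

lemma S_R' (f : PS D) : S ι (R v f) = f := by rw [S_R]; exact S_eq_self h.co f

omit [Fintype D] in
lemma iff {Θ : PS A} : S ι Θ = 0 ↔ Θ ∈ Ideal.span (Set.range ρ) := by
  refine ⟨fun h1 => ?_, fun h1 => ?_⟩
  · obtain ⟨c, rfl, -⟩ := h.mem Θ h1
    exact sum_mem fun i _ => Ideal.mul_mem_left _ _ (Ideal.subset_span ⟨i, rfl⟩)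
  · obtain ⟨c, rfl⟩ := Ideal.mem_span_range_iff_exists_fun.mp h1
    simp [h.zero]

variable [∀ a, Z (ι a)]

lemma univ (Γ : A → PS y) [∀ a, Z (Γ a)] (hΓ : ∀ i, S Γ (ρ i) = 0) (a : A) :
    S (fun q => Γ (v q)) (ι a) = Γ a := by
  obtain ⟨c, h1, -⟩ := h.mem (X a - R v (ι a)) (by simp [h.S_R'])
  have := congrArg (S Γ) h1
  simp only [map_sub, map_sum, map_mul, hΓ, mul_zero, sum_const_zero, S_R, S_XZ] at this
  exact (sub_eq_zero.mp this).symm

lemma tang (V : A → PS A) (hV : ∀ i, S ι (vf V (ρ i)) = 0) (f : PS A) :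
    vf (fun q => S ι (V (v q))) (S ι f) = S ι (vf V f) := by
  classical
  have key : ∀ a, vf (fun q => S ι (V (v q))) (ι a) = S ι (V a) := fun a => by
    obtain ⟨c, h1, -⟩ := h.mem (X a - R v (ι a)) (by simp [h.S_R'])
    have := congrArg (fun f => S ι (vf V f)) h1
    simp only [vf, map_sub, map_sum, map_mul, pd_mul, mul_sum, map_add, h.zero, pd_S, h.S_R',
      mul_sub, sum_sub_distrib, zero_mul, add_zero] at this hV ⊢
    rw [sum_comm, sum_comm (t := Finset.univ (α := κ)), sum_eq_zero (s := Finset.univ (α := κ)) fun i _ => by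
      simp only [mul_left_comm _ (S ι (c i)), ← mul_sum, hV, mul_zero], sub_eq_zero] at this
    simpa [pd_X, apply_ite, mul_comm] using this.symm
  rw [vf_S]
  simp only [key]
  simp [vf, mul_comm]

end Par

end

end Pool.Agent.Lib.MP_547e2f_an
end
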